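import Pool.Agent.LibIV39.Defs

/-! A1 (MEDIUM, only Mathlib): pigeonhole. PLAN. `¬ SD`: there are `η > 0`, `L` with: for every `x0`
there is `x ≥ x0` with `ν (x+η) < ν x + L`. Divide `[x, x+η]` into `L+1` equal parts (points
`p i = x + i η/(L+1)`); if `ν (p i) < ν (p (i+1))` for all `i ≤ L` then `ν (x+η) ≥ ν x + L + 1`
(induction), contradiction. So some part `[p, q]` has `ν p = ν q = n` (monotone). For `p ≤ ξ ≤ q`
`ν ξ = n` by monotonicity, so `T a n ξ = mu a ν ξ` (by `rfl`/`unfold mu`). Take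
`δ = η/(4(L+1))`, `R = (p+q)/2`, so `R - 2δ = p ≥ x`. -/

set_option autoImplicit false

namespace Pool.Agent.LibIV39

open Filter Topology

theorem A1 (a : ℕ → ℂ) (ν : ℝ → ℕ) (X : ℕ → ℝ) (h : NuX a ν X) (hn : ¬ SD ν) :
    ∃ δ : ℝ, 0 < δ ∧ ∀ x1 : ℝ, ∃ (R : ℝ) (n : ℕ), x1 ≤ R - 2 * δ ∧
      ∀ u : ℝ, |u| ≤ 2 * δ → T a n (R + u) = mu a ν (R + u) := by
  have hm : Monotone ν := h.mono
  unfold SD at hn
  push Not at hn
  obtain ⟨η, hη, L, hL⟩ := hn
  have hLp : (0 : ℝ) < (L : ℝ) + 1 := by positivity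
  refine ⟨η / (4 * ((L : ℝ) + 1)), by positivity, fun x1 => ?_⟩
  obtain ⟨x, hx, hlt⟩ := hL x1
  set s : ℝ := η / ((L : ℝ) + 1) with hs
  have hs0 : 0 < s := by positivity
  have hsL : ((L : ℝ) + 1) * s = η := by
    rw [hs]
    field_simp
  obtain ⟨i, hi, he⟩ : ∃ i : ℕ, i ≤ L ∧ ν (x + (i : ℝ) * s) = ν (x + ((i : ℝ) + 1) * s) := by
    by_contra hcon
    push Not at hcon
    have hstep : ∀ i : ℕ, i ≤ L + 1 → ν x + i ≤ ν (x + (i : ℝ) * s) := by
      intro i
      induction i with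
      | zero =>
        intro _
        simp
      | succ i ih =>
        intro hi
        have h1 := ih (by omega)
        have h2 := hcon i (by omega)
        have h3 : ν (x + (i : ℝ) * s) ≤ ν (x + ((i : ℝ) + 1) * s) := by
          apply hm
          nlinarith
        have h4 : ν (x + (i : ℝ) * s) < ν (x + ((i : ℝ) + 1) * s) := lt_of_le_of_ne h3 h2
        push_cast
        omega
    have h5 := hstep (L + 1) le_rfl
    push_cast at h5
    rw [hsL] at h5
    omega
  refine ⟨x + ((i : ℝ) + 1 / 2) * s, ν (x + (i : ℝ) * s), ?_, ?_⟩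
  · have h6 : 2 * (η / (4 * ((L : ℝ) + 1))) = 1 / 2 * s := by
      rw [hs]
      field_simp
      norm_num
    rw [h6]
    have h7 : 0 ≤ (i : ℝ) * s := by positivity
    nlinarith
  · intro u hu
    have h6 : 2 * (η / (4 * ((L : ℝ) + 1))) = 1 / 2 * s := by
      rw [hs]
      field_simp
      norm_num
    rw [h6, abs_le] at hu
    have h8 : ν (x + ((i : ℝ) + 1 / 2) * s + u) = ν (x + (i : ℝ) * s) := by
      apply le_antisymm
      · rw [he]
        apply hm
        nlinarith [hu.2]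
      · apply hm
        nlinarith [hu.1]
    unfold mu
    rw [h8]

end Pool.Agent.LibIV39
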