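import Pool.Agent.LibIV39.Defs

/-! A2 (MEDIUM, only Mathlib): normal family by compactness. PLAN. The set
`{c : ℤ → ℂ | ∀ k, c k ∈ closedBall 0 (exp (-(2δ|k|)))}` (times `Set.Icc 0 (2π)` for the points `v j`
chosen from `hlow`) is compact (`isCompact_univ_pi`, `isCompact_closedBall`, `IsCompact.prod`) in the first
countable space `(ℤ → ℂ) × ℝ`, so a subsequence `(c (φ j), v (φ j))` converges to `(d, v)`
(`IsCompact.tendsto_subseq`). Convergence of the coordinates: `tendsto_pi_nhds`.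
`d 0 = 1`, `‖d k‖ ≤ ..` : limits. For fixed `ζ`, `|re ζ| ≤ δ`:
`∑' k, c (φ j) k e^{kζ} → ∑' k, d k e^{kζ}` by `tendsto_tsum_of_dominated_convergence`, bound
`exp (-(2δ|k|)) exp (δ|k|) = exp (-(δ|k|))`, summable over `ℤ` (two geometric series;
`Summable.of_nat_of_neg` or the like); so `‖..‖ ≤ Q` (`le_of_tendsto_of_tendsto'`). The lower bound:
the terms `c (φ j) k e^{k v_j i} → d k e^{k v i}` with the same bound, again dominated
convergence. -/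

set_option autoImplicit false

namespace Pool.Agent.LibIV39

open Filter Topology

private theorem A2_summ (δ : ℝ) (hδ : 0 < δ) :
    Summable (fun k : ℤ => Real.exp (-(δ * |(k : ℝ)|))) := by
  have h1 : Summable (fun n : ℕ => Real.exp (-δ) ^ n) :=
    summable_geometric_of_lt_one (Real.exp_pos _).le ((Real.exp_lt_exp.mpr (by linarith : -δ < 0)).trans_eq Real.exp_zero)
  have h2 : (fun n : ℕ => Real.exp (-δ) ^ n) = fun n : ℕ => Real.exp (-(δ * (n : ℝ))) := by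
    funext n
    rw [← Real.exp_nat_mul]
    congr 1
    ring
  rw [h2] at h1
  refine Summable.of_nat_of_neg ?_ ?_
  · refine h1.congr fun n => ?_
    have h3 : |(((n : ℤ)) : ℝ)| = (n : ℝ) := by
      rw [Int.cast_natCast]
      exact abs_of_nonneg (Nat.cast_nonneg n)
    rw [h3]
  · refine h1.congr fun n => ?_
    have h3 : |((-(n : ℤ) : ℤ) : ℝ)| = (n : ℝ) := by
      rw [Int.cast_neg, Int.cast_natCast, abs_neg]
      exact abs_of_nonneg (Nat.cast_nonneg n)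
    rw [h3]

private theorem A2_bound (δ : ℝ) (a ζ : ℂ) (k : ℤ)
    (ha : ‖a‖ ≤ Real.exp (-(2 * δ * |(k : ℝ)|))) (hζ : |ζ.re| ≤ δ) :
    ‖a * Complex.exp (k * ζ)‖ ≤ Real.exp (-(δ * |(k : ℝ)|)) := by
  rw [norm_mul, Complex.norm_exp]
  have h1 : ((k : ℂ) * ζ).re = (k : ℝ) * ζ.re := by
    simp [Complex.mul_re]
  rw [h1]
  have h2 : (k : ℝ) * ζ.re ≤ δ * |(k : ℝ)| := by
    calc (k : ℝ) * ζ.re ≤ |(k : ℝ) * ζ.re| := le_abs_self _
      _ = |(k : ℝ)| * |ζ.re| := abs_mul _ _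
      _ ≤ |(k : ℝ)| * δ := mul_le_mul_of_nonneg_left hζ (abs_nonneg _)
      _ = δ * |(k : ℝ)| := mul_comm _ _
  calc ‖a‖ * Real.exp ((k : ℝ) * ζ.re)
      ≤ Real.exp (-(2 * δ * |(k : ℝ)|)) * Real.exp (δ * |(k : ℝ)|) :=
        mul_le_mul ha (Real.exp_le_exp.mpr h2) (Real.exp_pos _).le (Real.exp_pos _).le
    _ = Real.exp (-(δ * |(k : ℝ)|)) := by
        rw [← Real.exp_add]
        congr 1
        ring

private theorem A2_lim (δ : ℝ) (hδ : 0 < δ) (c : ℕ → ℤ → ℂ) (d : ℤ → ℂ) (ζ : ℕ → ℂ) (ζ0 : ℂ)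
    (hc : ∀ j k, ‖c j k‖ ≤ Real.exp (-(2 * δ * |(k : ℝ)|))) (hζ : ∀ j, |(ζ j).re| ≤ δ)
    (hd : ∀ k, Tendsto (fun j => c j k) atTop (𝓝 (d k))) (hz : Tendsto ζ atTop (𝓝 ζ0)) :
    Tendsto (fun j => ∑' k : ℤ, c j k * Complex.exp (k * ζ j)) atTop
      (𝓝 (∑' k : ℤ, d k * Complex.exp (k * ζ0))) := by
  refine tendsto_tsum_of_dominated_convergence (A2_summ δ hδ) ?_ ?_
  · intro k
    refine (hd k).mul ?_
    exact (Complex.continuous_exp.tendsto _).comp (hz.const_mul (k : ℂ))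
  · exact Filter.Eventually.of_forall fun j k => A2_bound δ _ _ k (hc j k) (hζ j)

theorem A2 (δ Q : ℝ) (hδ : 0 < δ) (c : ℕ → ℤ → ℂ) (h0 : ∀ j, c j 0 = 1)
    (hc : ∀ j k, ‖c j k‖ ≤ Real.exp (-(2 * δ * |(k : ℝ)|))) (ε : ℕ → ℝ)
    (hε : Tendsto ε atTop (𝓝 0))
    (hup : ∀ j (ζ : ℂ), |ζ.re| ≤ δ → ‖∑' k : ℤ, c j k * Complex.exp (k * ζ)‖ ≤ Q + ε j)
    (hlow : ∀ j, ∃ v : ℝ, 0 ≤ v ∧ v ≤ 2 * Real.pi ∧
      Q - ε j ≤ ‖∑' k : ℤ, c j k * Complex.exp (k * (v * Complex.I))‖) :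
    ∃ d : ℤ → ℂ, d 0 = 1 ∧ (∀ k, ‖d k‖ ≤ Real.exp (-(2 * δ * |(k : ℝ)|))) ∧
      (∀ ζ : ℂ, |ζ.re| ≤ δ → ‖∑' k : ℤ, d k * Complex.exp (k * ζ)‖ ≤ Q) ∧
      ∃ v : ℝ, Q ≤ ‖∑' k : ℤ, d k * Complex.exp (k * (v * Complex.I))‖ := by
  choose v hv0 hv1 hv2 using hlow
  have hS : IsCompact ((Set.univ.pi fun k : ℤ =>
      Metric.closedBall (0 : ℂ) (Real.exp (-(2 * δ * |(k : ℝ)|)))) ×ˢ
      Set.Icc (0 : ℝ) (2 * Real.pi)) :=
    (isCompact_univ_pi fun k => isCompact_closedBall _ _).prod isCompact_Icc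
  have hmem : ∀ j, ((c j, v j) : (ℤ → ℂ) × ℝ) ∈ ((Set.univ.pi fun k : ℤ =>
      Metric.closedBall (0 : ℂ) (Real.exp (-(2 * δ * |(k : ℝ)|)))) ×ˢ
      Set.Icc (0 : ℝ) (2 * Real.pi)) := by
    intro j
    refine ⟨?_, hv0 j, hv1 j⟩
    intro k _
    rw [mem_closedBall_zero_iff]
    exact hc j k
  obtain ⟨⟨d, w⟩, hdw, φ, hφ, hlim⟩ := hS.tendsto_subseq hmem
  have hd : ∀ k, Tendsto (fun j => c (φ j) k) atTop (𝓝 (d k)) := by
    have h1 : Tendsto (fun j => c (φ j)) atTop (𝓝 d) :=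
      (continuous_fst.tendsto _).comp hlim
    exact fun k => (tendsto_pi_nhds.mp h1) k
  have hw : Tendsto (fun j => v (φ j)) atTop (𝓝 w) := (continuous_snd.tendsto _).comp hlim
  have hε' : Tendsto (fun j => ε (φ j)) atTop (𝓝 0) := hε.comp hφ.tendsto_atTop
  have hQ1 : Tendsto (fun j => Q + ε (φ j)) atTop (𝓝 Q) := by
    have h1 := hε'.const_add Q
    rwa [add_zero] at h1
  have hQ2 : Tendsto (fun j => Q - ε (φ j)) atTop (𝓝 Q) := by
    have h1 := hε'.const_sub Q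
    rwa [sub_zero] at h1
  refine ⟨d, ?_, ?_, ?_, w, ?_⟩
  · have h1 : Tendsto (fun j => c (φ j) 0) atTop (𝓝 (1 : ℂ)) := by
      have h2 : (fun j => c (φ j) 0) = fun _ => (1 : ℂ) := funext fun j => h0 (φ j)
      rw [h2]
      exact tendsto_const_nhds
    exact tendsto_nhds_unique (hd 0) h1
  · intro k
    have h1 := hdw.1 k (Set.mem_univ k)
    rwa [mem_closedBall_zero_iff] at h1
  · intro ζ hζ
    have h1 := (A2_lim δ hδ (fun j => c (φ j)) d (fun _ => ζ) ζ (fun j k => hc (φ j) k)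
      (fun _ => hζ) hd tendsto_const_nhds).norm
    exact le_of_tendsto_of_tendsto' h1 hQ1 fun j => hup (φ j) ζ hζ
  · have hz : Tendsto (fun j => ((v (φ j) : ℂ)) * Complex.I) atTop (𝓝 ((w : ℂ) * Complex.I)) :=
      ((Complex.continuous_ofReal.tendsto w).comp hw).mul_const Complex.I
    have hre : ∀ j, |(((v (φ j) : ℂ)) * Complex.I).re| ≤ δ := by
      intro j
      have h2 : (((v (φ j) : ℂ)) * Complex.I).re = 0 := by
        simp [Complex.mul_re]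
      rw [h2, abs_zero]
      exact hδ.le
    have h1 := (A2_lim δ hδ (fun j => c (φ j)) d (fun j => ((v (φ j) : ℂ)) * Complex.I)
      ((w : ℂ) * Complex.I) (fun j k => hc (φ j) k) hre hd hz).norm
    exact le_of_tendsto_of_tendsto' hQ2 h1 fun j => hv2 (φ j)

end Pool.Agent.LibIV39
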