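import Pool.Agent.LibIV39.Defs

/-! A3 (MEDIUM, only Mathlib): maximum principle in the strip. PLAN. `g ζ = ∑' k, d k e^{kζ}` is
differentiable on the open convex strip `U = {ζ | |re ζ| < δ}`
(`differentiableOn_tsum_of_summable_norm`, bound `exp (-(δ|k|))`, summable over `ℤ`). `‖g‖ ≤ Q` on `U`
and `‖g (v i)‖ = Q`, so `‖g‖` has its maximum at `v i` in `U` and `g` is constant on `U`
(`Complex.eqOn_of_isPreconnected_of_isMaxOn_norm`). The mean over `[0, 2π]` of `g (y i)` is
`d 0 = 1` (interchange: `intervalIntegral.hasSum_integral_of_summable_norm` or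
`hasSum_integral_of_dominated_convergence`; `∫_0^{2π} e^{k y i} dy = 0` for `k ≠ 0`,
`integral_exp_mul_complex`), so the constant is `1`, of norm `Q > 1`: contradiction. -/

set_option autoImplicit false

namespace Pool.Agent.LibIV39

open Filter Topology

private lemma A3_sum (δ : ℝ) (hδ : 0 < δ) :
    Summable (fun k : ℤ => Real.exp (-(δ * |(k : ℝ)|))) := by
  have h1 : Summable (fun n : ℕ => Real.exp (-(δ * (n : ℝ)))) := by
    have h2 : (fun n : ℕ => Real.exp (-(δ * (n : ℝ)))) = fun n : ℕ => (Real.exp (-δ)) ^ n := by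
      funext n
      rw [← Real.exp_nat_mul]
      congr 1
      ring
    rw [h2]
    refine summable_geometric_of_lt_one (Real.exp_pos _).le ?_
    rw [Real.exp_lt_one_iff]
    linarith
  refine Summable.of_nat_of_neg ?_ ?_
  · refine h1.congr (fun n => ?_)
    simp
  · refine h1.congr (fun n => ?_)
    simp

private lemma A3_bd (δ : ℝ) (d : ℤ → ℂ)
    (hd : ∀ k, ‖d k‖ ≤ Real.exp (-(2 * δ * |(k : ℝ)|))) (k : ℤ) (ζ : ℂ) (hζ : |ζ.re| ≤ δ) :
    ‖d k * Complex.exp (k * ζ)‖ ≤ Real.exp (-(δ * |(k : ℝ)|)) := by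
  have h1 : ((k : ℂ) * ζ).re = (k : ℝ) * ζ.re := by
    simp [Complex.mul_re]
  have h2 : (k : ℝ) * ζ.re ≤ |(k : ℝ)| * δ := by
    calc (k : ℝ) * ζ.re ≤ |(k : ℝ) * ζ.re| := le_abs_self _
      _ = |(k : ℝ)| * |ζ.re| := abs_mul _ _
      _ ≤ |(k : ℝ)| * δ := mul_le_mul_of_nonneg_left hζ (abs_nonneg _)
  rw [norm_mul, Complex.norm_exp, h1]
  calc ‖d k‖ * Real.exp ((k : ℝ) * ζ.re)
      ≤ Real.exp (-(2 * δ * |(k : ℝ)|)) * Real.exp (|(k : ℝ)| * δ) :=
        mul_le_mul (hd k) (Real.exp_le_exp.mpr h2) (Real.exp_pos _).le (Real.exp_pos _).le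
    _ = Real.exp (-(δ * |(k : ℝ)|)) := by
        rw [← Real.exp_add]
        congr 1
        ring

private lemma A3_int (k : ℤ) (hk : k ≠ 0) :
    ∫ y in (0 : ℝ)..(2 * Real.pi), Complex.exp (k * ((y : ℂ) * Complex.I)) = 0 := by
  have h1 : ((k : ℂ) * Complex.I) ≠ 0 := by
    simp [hk, Complex.I_ne_zero]
  have h2 : ∀ y : ℝ, Complex.exp (k * ((y : ℂ) * Complex.I))
      = Complex.exp (((k : ℂ) * Complex.I) * y) := by
    intro y
    congr 1
    ring
  simp only [h2]
  rw [integral_exp_mul_complex h1]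
  have h3 : Complex.exp ((k : ℂ) * Complex.I * ((2 * Real.pi : ℝ) : ℂ)) = 1 := by
    have h4 : (k : ℂ) * Complex.I * ((2 * Real.pi : ℝ) : ℂ)
        = (k : ℂ) * (2 * (Real.pi : ℂ) * Complex.I) := by
      push_cast
      ring
    rw [h4]
    exact Complex.exp_int_mul_two_pi_mul_I k
  rw [h3]
  simp

theorem A3 (δ Q : ℝ) (hδ : 0 < δ) (hQ : 1 < Q) (d : ℤ → ℂ) (h0 : d 0 = 1)
    (hd : ∀ k, ‖d k‖ ≤ Real.exp (-(2 * δ * |(k : ℝ)|)))
    (hup : ∀ ζ : ℂ, |ζ.re| ≤ δ → ‖∑' k : ℤ, d k * Complex.exp (k * ζ)‖ ≤ Q) (v : ℝ)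
    (hlow : Q ≤ ‖∑' k : ℤ, d k * Complex.exp (k * (v * Complex.I))‖) : False := by
  set g : ℂ → ℂ := fun ζ => ∑' k : ℤ, d k * Complex.exp (k * ζ) with hg
  set U : Set ℂ := {ζ : ℂ | |ζ.re| < δ} with hU
  have hus := A3_sum δ hδ
  have hUo : IsOpen U := isOpen_lt (continuous_abs.comp Complex.continuous_re) continuous_const
  have hUc : Convex ℝ U := by
    have h1 : U = Complex.reLm ⁻¹' (Set.Ioo (-δ) δ) := by
      ext ζ
      simp [hU, abs_lt]
    rw [h1]
    exact (convex_Ioo _ _).linear_preimage _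
  have hpre : IsPreconnected U := hUc.isPreconnected
  have hdiff : DifferentiableOn ℂ g U := by
    refine Complex.differentiableOn_tsum_of_summable_norm hus (fun k => ?_) hUo (fun k ζ hζ => ?_)
    · exact (((differentiable_id.const_mul (k : ℂ)).cexp).const_mul (d k)).differentiableOn
    · exact A3_bd δ d hd k ζ (le_of_lt hζ)
  have hmemI : ∀ y : ℝ, ((y : ℂ) * Complex.I) ∈ U := by
    intro y
    simp [hU, hδ]
  have hmax : IsMaxOn (norm ∘ g) U ((v : ℂ) * Complex.I) := by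
    intro ζ hζ
    exact (hup ζ (le_of_lt hζ)).trans hlow
  have heq : Set.EqOn g (Function.const ℂ (g ((v : ℂ) * Complex.I))) U :=
    Complex.eqOn_of_isPreconnected_of_isMaxOn_norm hpre hUo hdiff (hmemI v) hmax
  have hS : HasSum (fun k : ℤ => ∫ y in (0 : ℝ)..(2 * Real.pi),
      d k * Complex.exp (k * ((y : ℂ) * Complex.I)))
      (∫ y in (0 : ℝ)..(2 * Real.pi), g ((y : ℂ) * Complex.I)) := by
    refine intervalIntegral.hasSum_integral_of_dominated_convergence
      (fun k _ => Real.exp (-(δ * |(k : ℝ)|))) (fun k => ?_) (fun k => ?_) ?_ ?_ ?_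
    · refine Continuous.aestronglyMeasurable ?_
      fun_prop
    · refine Filter.Eventually.of_forall (fun y _ => ?_)
      exact A3_bd δ d hd k _ (le_of_lt (hmemI y))
    · exact Filter.Eventually.of_forall (fun y _ => hus)
    · exact intervalIntegrable_const
    · refine Filter.Eventually.of_forall (fun y _ => ?_)
      have h1 : Summable (fun k : ℤ => d k * Complex.exp (k * ((y : ℂ) * Complex.I))) :=
        Summable.of_norm_bounded hus
          (fun k => A3_bd δ d hd k _ (le_of_lt (hmemI y)))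
      exact h1.hasSum
  have hS2 : HasSum (fun k : ℤ => ∫ y in (0 : ℝ)..(2 * Real.pi),
      d k * Complex.exp (k * ((y : ℂ) * Complex.I))) (2 * Real.pi : ℂ) := by
    have h1 : (∫ y in (0 : ℝ)..(2 * Real.pi),
        d 0 * Complex.exp (((0 : ℤ) : ℂ) * ((y : ℂ) * Complex.I))) = (2 * Real.pi : ℂ) := by
      simp [h0]
    rw [← h1]
    refine hasSum_single (0 : ℤ) (fun k hk => ?_)
    rw [intervalIntegral.integral_const_mul, A3_int k hk, mul_zero]
  have h3 := hS.unique hS2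
  have h4 : (∫ y in (0 : ℝ)..(2 * Real.pi), g ((y : ℂ) * Complex.I))
      = (2 * Real.pi : ℂ) * g ((v : ℂ) * Complex.I) := by
    have h5 : (fun y : ℝ => g ((y : ℂ) * Complex.I)) = fun _ : ℝ => g ((v : ℂ) * Complex.I) := by
      funext y
      exact heq (hmemI y)
    rw [h5, intervalIntegral.integral_const]
    simp
  rw [h4] at h3
  have hpi : (2 * Real.pi : ℂ) ≠ 0 := by
    simp [Real.pi_ne_zero]
  have h6 : g ((v : ℂ) * Complex.I) = 1 := by
    have := mul_left_cancel₀ hpi (h3.trans (mul_one _).symm)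
    exact this
  have h7 : Q ≤ ‖g ((v : ℂ) * Complex.I)‖ := hlow
  rw [h6, norm_one] at h7
  linarith

end Pool.Agent.LibIV39
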