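import Pool.Agent.LibIV39.Defs

/-! M0 (SHORT, only Mathlib). PLAN. (i) the sphere is compact (`isCompact_sphere`), `‖f ·‖`
continuous, so the range is bounded above (see `hbdd` in `Pool/Agent/LibCH71/Fin.lean` on main);
`le_ciSup`. (ii) the maximum on the compact nonempty sphere is attained at some `z`
(`IsCompact.exists_isMaxOn`), it equals the `iSup` (`le_antisymm`, `ciSup_le`), and
`z = exp (x + φ i)` with `φ` in `[0, 2π)`: `φ = toIcoMod Real.two_pi_pos 0 (Complex.arg z)`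
(or `arg z` if it is `≥ 0`, `arg z + 2π` otherwise), `z = ‖z‖ exp (i arg z)`
(`Complex.norm_mul_exp_arg_mul_I`). -/

set_option autoImplicit false

namespace Pool.Agent.LibIV39

open Filter Topology

theorem M0 (f : ℂ → ℂ) (hf : Continuous f) (x : ℝ) :
    (∀ z : ℂ, ‖z‖ = Real.exp x → ‖f z‖ ≤ Ms f x) ∧
      (∃ φ : ℝ, 0 ≤ φ ∧ φ ≤ 2 * Real.pi ∧ ‖f (Complex.exp (x + φ * Complex.I))‖ = Ms f x) := by
  have hcomp : IsCompact (Metric.sphere (0 : ℂ) (Real.exp x)) := isCompact_sphere _ _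
  have hcn : ContinuousOn (fun z : ℂ => ‖f z‖) (Metric.sphere (0 : ℂ) (Real.exp x)) :=
    hf.norm.continuousOn
  have hne : (Metric.sphere (0 : ℂ) (Real.exp x)).Nonempty := by
    refine ⟨((Real.exp x : ℝ) : ℂ), ?_⟩
    rw [mem_sphere_zero_iff_norm, Complex.norm_real, Real.norm_eq_abs, abs_of_pos (Real.exp_pos x)]
  obtain ⟨z0, hz0, hmax⟩ := hcomp.exists_isMaxOn hne hcn
  have hb : BddAbove (Set.range (fun z : Metric.sphere (0 : ℂ) (Real.exp x) => ‖f z‖)) := by
    refine ⟨‖f z0‖, ?_⟩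
    rintro _ ⟨z, rfl⟩
    exact hmax z.2
  have hup : ∀ z : ℂ, ‖z‖ = Real.exp x → ‖f z‖ ≤ Ms f x := by
    intro z hz
    exact le_ciSup (f := fun z : Metric.sphere (0 : ℂ) (Real.exp x) => ‖f z‖) hb
      ⟨z, mem_sphere_zero_iff_norm.2 hz⟩
  refine ⟨hup, ?_⟩
  have hz0n : ‖z0‖ = Real.exp x := mem_sphere_zero_iff_norm.1 hz0
  have hMs : Ms f x = ‖f z0‖ := by
    refine le_antisymm ?_ (hup z0 hz0n)
    haveI : Nonempty (Metric.sphere (0 : ℂ) (Real.exp x)) := ⟨⟨z0, hz0⟩⟩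
    exact ciSup_le fun z => hmax z.2
  have hexp : ∀ φ : ℝ, Complex.exp (φ * Complex.I) = Complex.exp (Complex.arg z0 * Complex.I) →
      Complex.exp (x + φ * Complex.I) = z0 := by
    intro φ hφ
    rw [Complex.exp_add, hφ, ← Complex.ofReal_exp, ← hz0n]
    exact Complex.norm_mul_exp_arg_mul_I z0
  rcases le_or_gt 0 (Complex.arg z0) with h | h
  · refine ⟨Complex.arg z0, h, ?_, ?_⟩
    · have := Complex.arg_le_pi z0
      have := Real.pi_pos
      linarith
    · rw [hexp _ rfl, hMs]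
  · refine ⟨Complex.arg z0 + 2 * Real.pi, ?_, ?_, ?_⟩
    · have := Complex.neg_pi_lt_arg z0
      have := Real.pi_pos
      linarith
    · linarith
    · rw [hexp _ ?_, hMs]
      rw [Complex.ofReal_add, add_mul, Complex.exp_add]
      have : ((2 * Real.pi : ℝ) : ℂ) * Complex.I = 2 * Real.pi * Complex.I := by push_cast; ring
      rw [this, Complex.exp_two_pi_mul_I, mul_one]

end Pool.Agent.LibIV39
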