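import Pool.Agent.LibIV39.Defs
import Pool.Agent.LibIV39.M0
import Pool.Agent.LibIV39.A1
import Pool.Agent.LibIV39.A2
import Pool.Agent.LibIV39.A3

/-! A4 (MEDIUM; uses `M0`, `A1`, `A2`, `A3`). PLAN. Suppose `¬ SD ν`; `A1` gives `δ`.
`Q = 1/C > 1`. For `j : ℕ` there is `x_j ≥ 0` with `|Ms f x / mu a ν x - Q| ≤ 1/(j+1)` for
`x ≥ x_j` (`hlim`); `A1` with `x1 = x_j` gives `R_j`, `n_j` (`choose`).
`c j k = if 0 ≤ n_j + k then a (n_j+k).toNat * exp (k R_j) / a n_j else 0`. `a n_j ≠ 0` as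
`T a n_j R_j = mu > 0`. Bound: for `u = 2δ` (`k ≥ 0`) or `u = -2δ` (`k < 0`),
`T (n+k) (R+u) ≤ mu (R+u) = T n (R+u)` gives `‖c k‖ ≤ exp (-k u)`. Sum: for `|re ζ| ≤ δ` (any `ζ`)
`∑' k, c k e^{kζ} = f (e^{R+ζ}) / (a n e^{n(R+ζ)})`: from `hf (exp (R+ζ))`, divide by the constant and
reindex `m = n + k` (`Function.Injective.hasSum_iff` for `m ↦ (m : ℤ) - n`, support `k ≥ -n`);
`(e^{R+ζ})^m = e^{m(R+ζ)}` (`Complex.exp_nat_mul`). Its norm is
`‖f (e^{R+ζ})‖ / T a n (R + re ζ) = ‖f ..‖ / mu (R + re ζ) ≤ Ms f (R+re ζ)/mu (R + re ζ) ≤ Q + ε_j`,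
`ε_j = 1/(j+1)`, by `M0` (i); for `ζ = v i`, `v` from `M0` (ii) at `x = R`, it is `= Ms f R/mu R ≥ Q - ε_j`.
`A2`, `A3` give the contradiction. -/

set_option autoImplicit false

namespace Pool.Agent.LibIV39

open Filter Topology

private theorem A4_norm (a : ℕ → ℂ) (n : ℕ) (R : ℝ) (ζ : ℂ) :
    ‖a n * Complex.exp ((n : ℂ) * ((R : ℂ) + ζ))‖ = T a n (R + ζ.re) := by
  unfold T
  rw [norm_mul, Complex.norm_exp]
  congr 2
  simp [Complex.mul_re]

private theorem A4_bound (a : ℕ → ℂ) (n m : ℕ) (k : ℤ) (R δ : ℝ) (hn : a n ≠ 0)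
    (hm : (m : ℤ) = (n : ℤ) + k)
    (hT : ∀ u : ℝ, |u| ≤ 2 * δ → T a m (R + u) ≤ T a n (R + u)) (hδ : 0 < δ) :
    ‖a m * Complex.exp ((k : ℂ) * (R : ℂ)) / a n‖ ≤ Real.exp (-(2 * δ * |(k : ℝ)|)) := by
  have hn0 : 0 < ‖a n‖ := norm_pos_iff.mpr hn
  have hmr : (m : ℝ) = (n : ℝ) + (k : ℝ) := by exact_mod_cast hm
  have hnorm : ‖Complex.exp ((k : ℂ) * (R : ℂ))‖ = Real.exp ((k : ℝ) * R) := by
    rw [Complex.norm_exp]
    congr 1
    simp [Complex.mul_re]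
  rw [norm_div, norm_mul, hnorm, div_le_iff₀ hn0]
  obtain ⟨u, hu, hku⟩ : ∃ u : ℝ, |u| ≤ 2 * δ ∧ (k : ℝ) * u = 2 * δ * |(k : ℝ)| := by
    rcases le_total 0 (k : ℝ) with hk | hk
    · exact ⟨2 * δ, by rw [abs_of_pos (by positivity)], by rw [abs_of_nonneg hk]; ring⟩
    · exact ⟨-(2 * δ), by rw [abs_neg, abs_of_pos (by positivity)], by rw [abs_of_nonpos hk]; ring⟩
  have h1 := hT u hu
  unfold T at h1
  have h2 : ‖a m‖ * Real.exp ((k : ℝ) * R) =
      (‖a m‖ * Real.exp ((m : ℝ) * (R + u))) * Real.exp (-((n : ℝ) * (R + u)) - (k : ℝ) * u) := by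
    rw [mul_assoc, ← Real.exp_add]
    congr 2
    rw [hmr]
    ring
  have h3 : Real.exp (-(2 * δ * |(k : ℝ)|)) * ‖a n‖ =
      (‖a n‖ * Real.exp ((n : ℝ) * (R + u))) * Real.exp (-((n : ℝ) * (R + u)) - (k : ℝ) * u) := by
    rw [← hku, mul_comm (Real.exp _) ‖a n‖, mul_assoc ‖a n‖, ← Real.exp_add]
    congr 2
    ring
  rw [h2, h3]
  exact mul_le_mul_of_nonneg_right h1 (Real.exp_pos _).le

private noncomputable def A4_c (a : ℕ → ℂ) (n : ℕ) (R : ℝ) (k : ℤ) : ℂ :=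
  if 0 ≤ (n : ℤ) + k then a ((n : ℤ) + k).toNat * Complex.exp ((k : ℂ) * (R : ℂ)) / a n else 0

private theorem A4_sum (a : ℕ → ℂ) (f : ℂ → ℂ) (hf : ∀ z, HasSum (fun n => a n * z ^ n) (f z))
    (n : ℕ) (R : ℝ) (ζ : ℂ) :
    HasSum (fun k : ℤ => A4_c a n R k * Complex.exp ((k : ℂ) * ζ))
      (f (Complex.exp ((R : ℂ) + ζ)) / (a n * Complex.exp ((n : ℂ) * ((R : ℂ) + ζ)))) := by
  have hg : Function.Injective (fun m : ℕ => (m : ℤ) - (n : ℤ)) := by
    intro p q hpq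
    simp only at hpq
    omega
  rw [← Function.Injective.hasSum_iff hg]
  · have h1 := (hf (Complex.exp ((R : ℂ) + ζ))).div_const
      (a n * Complex.exp ((n : ℂ) * ((R : ℂ) + ζ)))
    have h2 : ((fun k : ℤ => A4_c a n R k * Complex.exp ((k : ℂ) * ζ)) ∘
        fun m : ℕ => (m : ℤ) - (n : ℤ)) = fun m : ℕ => a m * Complex.exp ((R : ℂ) + ζ) ^ m /
          (a n * Complex.exp ((n : ℂ) * ((R : ℂ) + ζ))) := by
      funext m
      have h3 : (n : ℤ) + ((m : ℤ) - (n : ℤ)) = (m : ℤ) := by ring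
      simp only [Function.comp_apply, A4_c]
      rw [h3, if_pos (Int.natCast_nonneg m), Int.toNat_natCast, ← Complex.exp_nat_mul]
      have h4 : Complex.exp ((m : ℂ) * ((R : ℂ) + ζ)) =
          Complex.exp ((((m : ℤ) - (n : ℤ) : ℤ) : ℂ) * (R : ℂ)) *
            Complex.exp ((((m : ℤ) - (n : ℤ) : ℤ) : ℂ) * ζ) *
              Complex.exp ((n : ℂ) * ((R : ℂ) + ζ)) := by
        rw [← Complex.exp_add, ← Complex.exp_add]
        congr 1
        push_cast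
        ring
      rw [h4]
      have h5 : Complex.exp ((n : ℂ) * ((R : ℂ) + ζ)) ≠ 0 := Complex.exp_ne_zero _
      rcases eq_or_ne (a n) 0 with h6 | h6
      · rw [h6]
        simp
      · field_simp
    rw [h2]
    exact h1
  · intro k hk
    have : ¬ (0 ≤ (n : ℤ) + k) := by
      intro h0
      apply hk
      refine ⟨((n : ℤ) + k).toNat, ?_⟩
      simp only
      rw [Int.toNat_of_nonneg h0]
      ring
    unfold A4_c
    rw [if_neg this, zero_mul]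

theorem A4 (a : ℕ → ℂ) (f : ℂ → ℂ) (hf : ∀ z, HasSum (fun n => a n * z ^ n) (f z))
    (hfc : Continuous f) (ν : ℝ → ℕ) (X : ℕ → ℝ) (h : NuX a ν X) (C : ℝ) (hC0 : 0 < C) (hC1 : C < 1)
    (hlim : Tendsto (fun x => Ms f x / mu a ν x) atTop (𝓝 (1 / C))) : SD ν := by
  by_contra hn
  obtain ⟨δ, hδ, hA⟩ := A1 a ν X h hn
  have hQ : (1 : ℝ) < 1 / C := by
    rw [lt_div_iff₀ hC0]
    linarith
  have hxj : ∀ j : ℕ, ∃ xj : ℝ, ∀ x, xj ≤ x →
      |Ms f x / mu a ν x - 1 / C| ≤ 1 / ((j : ℝ) + 1) := by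
    intro j
    have hpos : (0 : ℝ) < 1 / ((j : ℝ) + 1) := by positivity
    obtain ⟨N, hN⟩ := (Metric.tendsto_atTop.mp hlim) _ hpos
    refine ⟨N, fun x hx => ?_⟩
    have := hN x hx
    rw [Real.dist_eq] at this
    exact this.le
  choose xj hxj using hxj
  choose R n hRn using fun j => hA (xj j)
  have hpos : ∀ x, 0 < mu a ν x := h.pos
  have ha : ∀ j, a (n j) ≠ 0 := by
    intro j h0
    have h1 := (hRn j).2 0 (by rw [abs_zero]; positivity)
    have h2 := hpos (R j + 0)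
    rw [← h1] at h2
    unfold T at h2
    rw [h0, norm_zero, zero_mul] at h2
    exact lt_irrefl _ h2
  have hε : Tendsto (fun j : ℕ => 1 / ((j : ℝ) + 1)) atTop (𝓝 0) :=
    tendsto_one_div_add_atTop_nhds_zero_nat
  have hsum : ∀ (j : ℕ) (ζ : ℂ), ∑' k : ℤ, A4_c a (n j) (R j) k * Complex.exp ((k : ℂ) * ζ) =
      f (Complex.exp ((R j : ℂ) + ζ)) /
        (a (n j) * Complex.exp ((n j : ℂ) * ((R j : ℂ) + ζ))) :=
    fun j ζ => (A4_sum a f hf (n j) (R j) ζ).tsum_eq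
  have hnorm : ∀ (j : ℕ) (ζ : ℂ), |ζ.re| ≤ 2 * δ →
      ‖∑' k : ℤ, A4_c a (n j) (R j) k * Complex.exp ((k : ℂ) * ζ)‖ =
        ‖f (Complex.exp ((R j : ℂ) + ζ))‖ / mu a ν (R j + ζ.re) := by
    intro j ζ hζ
    rw [hsum, norm_div, A4_norm, (hRn j).2 _ hζ]
  obtain ⟨d, hd0, hd1, hd2, v, hv⟩ := A2 δ (1 / C) hδ (fun j => A4_c a (n j) (R j))
    (fun j => by
      simp only [A4_c]
      rw [if_pos (by simp)]
      simp [ha j])
    (fun j k => by
      simp only [A4_c]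
      split_ifs with h0
      · refine A4_bound a (n j) _ k (R j) δ (ha j) (Int.toNat_of_nonneg h0) ?_ hδ
        intro u hu
        rw [(hRn j).2 u hu]
        exact h.mx _ _
      · rw [norm_zero]
        exact (Real.exp_pos _).le)
    (fun j : ℕ => 1 / ((j : ℝ) + 1)) hε
    (fun j ζ hζ => by
      have h2 : |ζ.re| ≤ 2 * δ := by linarith
      rw [hnorm j ζ h2]
      have h3 : ‖f (Complex.exp ((R j : ℂ) + ζ))‖ ≤ Ms f (R j + ζ.re) := by
        apply (M0 f hfc _).1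
        rw [Complex.norm_exp]
        simp
      have h4 : xj j ≤ R j + ζ.re := by
        have := (hRn j).1
        have := neg_le_of_abs_le h2
        linarith
      have h5 := (abs_le.mp (hxj j _ h4)).2
      have h6 : ‖f (Complex.exp ((R j : ℂ) + ζ))‖ / mu a ν (R j + ζ.re) ≤
          Ms f (R j + ζ.re) / mu a ν (R j + ζ.re) :=
        div_le_div_of_nonneg_right h3 (hpos _).le
      linarith)
    (fun j => by
      obtain ⟨v, hv0, hv1, hv2⟩ := (M0 f hfc (R j)).2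
      refine ⟨v, hv0, hv1, ?_⟩
      have hre : ((v : ℂ) * Complex.I).re = 0 := by simp
      have h2 : |((v : ℂ) * Complex.I).re| ≤ 2 * δ := by
        rw [hre, abs_zero]
        positivity
      rw [hnorm j _ h2, hre, add_zero, hv2]
      have h4 : xj j ≤ R j := by
        have := (hRn j).1
        linarith
      have h5 := (abs_le.mp (hxj j _ h4)).1
      linarith)
  exact A3 δ (1 / C) hδ hQ d hd0 hd1 hd2 v hv

end Pool.Agent.LibIV39
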