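import Pool.Agent.LibIV39.Defs

/-! C1 (MEDIUM/LONG, only Mathlib): the double series. PLAN. Let `g : ℕ × ℕ → ℂ`,
`g (N, n) = a n * kk t (s n) (X n) (N - 3n) * z^N`. For `z = exp (x/3 + iθ)` (any `z ≠ 0` is of this
form) `g (N, n) = DT a X s t x θ (n, N - 3n)` (exponents: `N = 3n + i`, `n x + i x/3 = N x/3`,
`3nθ + iθ = Nθ`). The map `φ (N, n) = (n, (N:ℤ) - 3n)` is injective and `DT` vanishes outside its
range: if `3n + i < 0` then `|i| ≥ 3n+1 ≥ s n`, so `mm (s n) i = 0`. `‖DT p‖ = DN p`, so for `x ≥ x1`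
`DT` is summable, `DT ∘ φ` too (`Function.Injective.hasSum_iff`), and
`HasSum (DT) S ↔ HasSum g S`, then `HasSum.prod_fiberwise` gives `HasSum (fun N => bb N * z^N) S`
(`tsum_mul_right`), so `S = FF z`. For `‖z‖` small: `Summable (‖bb N‖ ‖z‖^N)` by comparison with a larger
radius (for `x = x1 ∨ ..` : `‖bb N z^N‖` is summable for `‖z‖ = exp(x/3)`, `x ≥ x1`, and monotone in
`‖z‖`). -/

set_option autoImplicit false

namespace Pool.Agent.LibIV39

open Filter Topology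

private lemma C1_term (a : ℕ → ℂ) (X s : ℕ → ℝ) (t x θ : ℝ) (N n : ℕ) :
    a n * (kk t (s n) (X n) ((N : ℤ) - 3 * n) : ℂ) *
        (Complex.exp (((x / 3 : ℝ) : ℂ) + θ * Complex.I)) ^ N =
      DT a X s t x θ (n, (N : ℤ) - 3 * n) := by
  have h1 : (Complex.exp (((x / 3 : ℝ) : ℂ) + θ * Complex.I)) ^ N =
      Complex.exp (n * (x + 3 * θ * Complex.I)) *
        Complex.exp (((x * (((N : ℤ) - 3 * n : ℤ) : ℝ) / 3 : ℝ) : ℂ)) *
        Complex.exp ((((N : ℤ) - 3 * n : ℤ) : ℂ) * θ * Complex.I) := by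
    rw [← Complex.exp_nat_mul, ← Complex.exp_add, ← Complex.exp_add]
    congr 1
    push_cast
    ring
  have h2 : Real.exp ((x - X n) * (((N : ℤ) - 3 * n : ℤ) : ℝ) / 3) =
      Real.exp (-(X n * (((N : ℤ) - 3 * n : ℤ) : ℝ) / 3)) *
        Real.exp (x * (((N : ℤ) - 3 * n : ℤ) : ℝ) / 3) := by
    rw [← Real.exp_add]
    congr 1
    ring
  unfold DT kk
  simp only
  rw [h1, h2, ← Complex.ofReal_exp]
  simp only [Complex.ofReal_mul]
  ring

private lemma C1_zero (a : ℕ → ℂ) (X s : ℕ → ℝ) (t x θ : ℝ) (hs1 : ∀ n, 1 ≤ s n)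
    (hs : ∀ n, s n ≤ n + 1) (n : ℕ) (i : ℤ) (h : 3 * (n : ℤ) + i < 0) :
    DT a X s t x θ (n, i) = 0 := by
  have hm : mm (s n) i = 0 := by
    unfold mm
    apply max_eq_left
    have h0 : 0 < s n := lt_of_lt_of_le one_pos (hs1 n)
    have h1 : (s n) ≤ |(i : ℝ)| := by
      have h2 : i ≤ -(3 * (n : ℤ)) - 1 := by omega
      have h3 : (i : ℝ) ≤ -(3 * (n : ℝ)) - 1 := by exact_mod_cast h2
      have h4 : -(i : ℝ) ≤ |(i : ℝ)| := neg_le_abs _
      have h5 := hs n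
      have h6 : (0 : ℝ) ≤ n := Nat.cast_nonneg n
      linarith
    have h7 : 1 ≤ |(i : ℝ)| / s n := by
      rw [le_div_iff₀ h0]
      linarith
    linarith
  unfold DT
  simp [hm]

private lemma C1_mm_nonneg (s : ℝ) (i : ℤ) : 0 ≤ mm s i := le_max_left _ _

private lemma C1_norm (a : ℕ → ℂ) (X s : ℕ → ℝ) (t x θ : ℝ) (p : ℕ × ℤ) :
    ‖DT a X s t x θ p‖ = DN a X s t x p := by
  unfold DT DN T
  rw [norm_mul, norm_mul, norm_mul]
  have h1 : ‖Complex.exp ((p.1 : ℂ) * (x + 3 * θ * Complex.I))‖ = Real.exp (p.1 * x) := by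
    rw [Complex.norm_exp]
    congr 1
    simp
  have h2 : ‖Complex.exp ((p.2 : ℂ) * θ * Complex.I)‖ = 1 := by
    rw [Complex.norm_exp]
    have : ((p.2 : ℂ) * θ * Complex.I).re = 0 := by simp
    rw [this, Real.exp_zero]
  rw [h1, h2, Complex.norm_real, Real.norm_eq_abs, abs_mul, abs_mul, abs_of_nonneg (C1_mm_nonneg _ _),
    abs_of_pos (Real.exp_pos _)]
  ring

private lemma C1_main (a : ℕ → ℂ) (X s : ℕ → ℝ) (t : ℝ) (hs1 : ∀ n, 1 ≤ s n)
    (hs : ∀ n, s n ≤ n + 1) (x θ : ℝ) (hx : Summable (DN a X s t x)) :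
    HasSum (fun N => bb a X s t N * (Complex.exp (((x / 3 : ℝ) : ℂ) + θ * Complex.I)) ^ N)
      (∑' p, DT a X s t x θ p) := by
  have hS : Summable (DT a X s t x θ) := by
    apply Summable.of_norm
    simpa [C1_norm] using hx
  set φ : ℕ × ℕ → ℕ × ℤ := fun q => (q.2, (q.1 : ℤ) - 3 * q.2) with hφ
  have hinj : Function.Injective φ := by
    rintro ⟨N, n⟩ ⟨N', n'⟩ h
    simp only [hφ, Prod.mk.injEq] at h
    obtain ⟨h1, h2⟩ := h
    subst h1
    have h3 : (N : ℤ) = N' := by linarith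
    have h4 : N = N' := by exact_mod_cast h3
    rw [h4]
  have hout : ∀ p, p ∉ Set.range φ → DT a X s t x θ p = 0 := by
    rintro ⟨n, i⟩ hp
    by_cases h : 3 * (n : ℤ) + i < 0
    · exact C1_zero a X s t x θ hs1 hs n i h
    · exfalso
      apply hp
      refine ⟨((3 * (n : ℤ) + i).toNat, n), ?_⟩
      have h' : 0 ≤ 3 * (n : ℤ) + i := not_lt.mp h
      simp only [hφ, Prod.mk.injEq, true_and]
      rw [Int.toNat_of_nonneg h']
      ring
  have h1 : HasSum (DT a X s t x θ ∘ φ) (∑' p, DT a X s t x θ p) :=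
    (hinj.hasSum_iff hout).mpr hS.hasSum
  have h2 : (DT a X s t x θ ∘ φ) = fun q : ℕ × ℕ =>
      a q.2 * (kk t (s q.2) (X q.2) ((q.1 : ℤ) - 3 * q.2) : ℂ) *
        (Complex.exp (((x / 3 : ℝ) : ℂ) + θ * Complex.I)) ^ q.1 := by
    funext q
    rw [C1_term]
    rfl
  rw [h2] at h1
  apply h1.prod_fiberwise
  intro N
  have h3 := (h1.summable.prod_factor N).hasSum
  simp only at h3
  have h4 : bb a X s t N * (Complex.exp (((x / 3 : ℝ) : ℂ) + θ * Complex.I)) ^ N =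
      ∑' n : ℕ, a n * (kk t (s n) (X n) ((N : ℤ) - 3 * n) : ℂ) *
        (Complex.exp (((x / 3 : ℝ) : ℂ) + θ * Complex.I)) ^ N := by
    unfold bb
    rw [tsum_mul_right]
  rw [h4]
  exact h3

theorem C1 (a : ℕ → ℂ) (X s : ℕ → ℝ) (t : ℝ) (hs1 : ∀ n, 1 ≤ s n) (hs : ∀ n, s n ≤ n + 1)
    (x1 : ℝ) (hsum : ∀ x, x1 ≤ x → Summable (DN a X s t x)) :
    (∀ z : ℂ, HasSum (fun N => bb a X s t N * z ^ N) (FF a X s t z)) ∧
      ∀ x, x1 ≤ x → ∀ θ : ℝ,
        HasSum (DT a X s t x θ) (FF a X s t (Complex.exp (((x / 3 : ℝ) : ℂ) + θ * Complex.I))) := by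
  refine ⟨?_, ?_⟩
  · intro z
    have hx : x1 ≤ max x1 (3 * ‖z‖) := le_max_left _ _
    set x := max x1 (3 * ‖z‖) with hxdef
    have h1 := C1_main a X s t hs1 hs x 0 (hsum x hx)
    have h2 := h1.summable.norm
    have hw : ‖Complex.exp (((x / 3 : ℝ) : ℂ) + (0 : ℝ) * Complex.I)‖ = Real.exp (x / 3) := by
      rw [Complex.norm_exp]
      congr 1
      simp
    have hz : ‖z‖ ≤ ‖Complex.exp (((x / 3 : ℝ) : ℂ) + (0 : ℝ) * Complex.I)‖ := by
      rw [hw]
      have h3 : 3 * ‖z‖ ≤ x := le_max_right _ _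
      have h4 := Real.add_one_le_exp (x / 3)
      linarith
    have h5 : Summable (fun N => bb a X s t N * z ^ N) := by
      apply Summable.of_norm_bounded h2
      intro N
      rw [norm_mul, norm_mul, norm_pow, norm_pow]
      exact mul_le_mul_of_nonneg_left (pow_le_pow_left₀ (norm_nonneg _) hz N) (norm_nonneg _)
    exact h5.hasSum
  · intro x hx θ
    have h1 := C1_main a X s t hs1 hs x θ (hsum x hx)
    have hS : Summable (DT a X s t x θ) := by
      apply Summable.of_norm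
      simpa [C1_norm] using (hsum x hx)
    have h2 : FF a X s t (Complex.exp (((x / 3 : ℝ) : ℂ) + θ * Complex.I)) =
        ∑' p, DT a X s t x θ p := by
      unfold FF
      exact h1.tsum_eq
    rw [h2]
    exact hS.hasSum

end Pool.Agent.LibIV39
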