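import Pool.Agent.LibIV39.Defs

set_option autoImplicit false

namespace Pool.Agent.LibIV39

open Filter Topology

theorem C2a (a : ℕ → ℂ) (X s : ℕ → ℝ) (t : ℝ) (m : ℕ) : bb a X s t (3 * m) = a m := by
  unfold bb
  rw [tsum_eq_single m]
  · have e1 : ((3 * m : ℕ) : ℤ) - 3 * (m : ℤ) = 0 := by push_cast; ring
    rw [e1]
    simp [kk, cc, mm]
  · intro n hn
    have e1 : ((3 * m : ℕ) : ℤ) - 3 * (n : ℤ) = 3 * ((m : ℤ) - n) := by push_cast; ring
    have e2 : (3 * ((m : ℤ) - n)) ≠ 0 := by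
      intro h
      apply hn
      omega
    have e3 : cc t (3 * ((m : ℤ) - n)) = 0 := by
      unfold cc
      rw [if_neg e2, if_pos (Dvd.intro _ rfl)]
    rw [e1]
    simp [kk, e3]

private theorem term_norm (a : ℕ → ℂ) (X s : ℕ → ℝ) (t x : ℝ) (N n : ℕ) :
    ‖a n * (kk t (s n) (X n) ((N : ℤ) - 3 * n) : ℂ)‖ * Real.exp (N * (x / 3)) =
      DN a X s t x (n, (N : ℤ) - 3 * n) := by
  unfold DN kk T
  simp only
  have hm : 0 ≤ mm (s n) ((N : ℤ) - 3 * n) := le_max_left _ _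
  rw [norm_mul, Complex.norm_real, Real.norm_eq_abs, abs_mul, abs_mul, abs_of_nonneg hm,
    abs_of_pos (Real.exp_pos _)]
  have e : Real.exp (-(X n * (((N : ℤ) - 3 * n : ℤ) : ℝ) / 3)) * Real.exp (N * (x / 3)) =
      Real.exp (n * x) * Real.exp ((x - X n) * (((N : ℤ) - 3 * n : ℤ) : ℝ) / 3) := by
    rw [← Real.exp_add, ← Real.exp_add]
    congr 1
    push_cast
    ring
  calc ‖a n‖ * (|cc t ((N : ℤ) - 3 * n)| * mm (s n) ((N : ℤ) - 3 * n) *
        Real.exp (-(X n * (((N : ℤ) - 3 * n : ℤ) : ℝ) / 3))) * Real.exp (N * (x / 3))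
      = ‖a n‖ * (|cc t ((N : ℤ) - 3 * n)| * mm (s n) ((N : ℤ) - 3 * n)) *
        (Real.exp (-(X n * (((N : ℤ) - 3 * n : ℤ) : ℝ) / 3)) * Real.exp (N * (x / 3))) := by ring
    _ = _ := by rw [e]; ring

theorem C2b (a : ℕ → ℂ) (X s : ℕ → ℝ) (t x : ℝ) (hsum : Summable (DN a X s t x)) (N : ℕ) :
    ‖bb a X s t N‖ * Real.exp (N * (x / 3)) ≤ ∑' n : ℕ, DN a X s t x (n, (N : ℤ) - 3 * n) := by
  have hinj : Function.Injective (fun n : ℕ => ((n, (N : ℤ) - 3 * n) : ℕ × ℤ)) := by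
    intro n m h
    exact (Prod.mk.inj h).1
  have h1 : Summable fun n : ℕ => DN a X s t x (n, (N : ℤ) - 3 * n) := hsum.comp_injective hinj
  have hE : 0 < Real.exp (N * (x / 3)) := Real.exp_pos _
  have h2 : Summable fun n : ℕ => ‖a n * (kk t (s n) (X n) ((N : ℤ) - 3 * n) : ℂ)‖ := by
    have h3 := h1.mul_right (Real.exp (N * (x / 3)))⁻¹
    refine h3.congr fun n => ?_
    rw [← term_norm a X s t x N n, mul_assoc, mul_inv_cancel₀ hE.ne', mul_one]
  calc ‖bb a X s t N‖ * Real.exp (N * (x / 3))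
      ≤ (∑' n : ℕ, ‖a n * (kk t (s n) (X n) ((N : ℤ) - 3 * n) : ℂ)‖) * Real.exp (N * (x / 3)) := by
        apply mul_le_mul_of_nonneg_right _ hE.le
        exact norm_tsum_le_tsum_norm h2
    _ = ∑' n : ℕ, DN a X s t x (n, (N : ℤ) - 3 * n) := by
        rw [← tsum_mul_right]
        exact tsum_congr fun n => term_norm a X s t x N n

end Pool.Agent.LibIV39
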