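import Pool.Agent.LibIV39.Defs

/-! K1 (MEDIUM, only Mathlib): the absolute sums of the kernel coefficients. PLAN.
`|cc t i| = 27 t/(4π² i²)` for `3 ∤ i`, `cc t 0 = 1`, `0` for the other multiples of `3`.
`∑_{i ≥ 1} 1/i² = π²/6` (`hasSum_zeta_two`), the multiples of `3` give `π²/54`, so
`∑_{i ≥ 1, 3 ∤ i} 1/i² = 4π²/27` and `∑_{i ≠ 0, 3 ∤ i} 27 t/(4π² i²) = 2 t`; total `1 + 2t ≤ 3`. The classes
`i ≡ 1` and `i ≡ 2 mod 3` are exchanged by `i ↦ -i`, so each of them has the sum `t`.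
K1b: `n ↦ (N : ℤ) - 3 n` is injective with values in one of these two classes: the sum is
`≤ ∑_{i ≡ N} |cc t i| = t`. (Suggestion: show `HasSum (fun k : ℤ => |cc t (3k+1)|) t` once:
`∑_{k : ℤ} 1/(3k+1)² = ∑_{i ≥ 1, 3 ∤ i} 1/i² = 4π²/27`, splitting `k ≥ 0` and `k < 0`; and
`i = 3k+2 ↦ -i = 3(-k-1)+1`.) K1c: `27/(4π²) < 1`, `|i| ≥ 1`. -/

set_option autoImplicit false

namespace Pool.Agent.LibIV39

open Filter Topology

private theorem IVK1_abs (t : ℝ) (ht0 : 0 ≤ t) (i : ℤ) (h3 : ¬ (3 : ℤ) ∣ i) :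
    |cc t i| = 27 * t / (4 * Real.pi ^ 2) * (1 / (i : ℝ) ^ 2) := by
  have hi : i ≠ 0 := by
    rintro rfl
    exact h3 (dvd_zero 3)
  have hi' : (i : ℝ) ≠ 0 := by exact_mod_cast hi
  have hpi := Real.pi_pos
  unfold cc
  rw [if_neg hi, if_neg h3, abs_div, abs_neg, abs_of_nonneg (by positivity : (0 : ℝ) ≤ 27 * t),
    abs_of_pos (by positivity : (0 : ℝ) < 4 * Real.pi ^ 2 * (i : ℝ) ^ 2)]
  field_simp

private theorem IVK1_neg (t : ℝ) (i : ℤ) : cc t (-i) = cc t i := by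
  unfold cc
  have h1 : (-i = 0) = (i = 0) := by simp
  have h2 : ((3 : ℤ) ∣ -i) = ((3 : ℤ) ∣ i) := by simp
  have h3 : (((-i : ℤ)) : ℝ) ^ 2 = (i : ℝ) ^ 2 := by push_cast; ring
  rw [h3]
  simp only [h1, h2]

private theorem IVK1_S : (Summable fun m : ℕ => 1 / ((1 + 3 * m : ℕ) : ℝ) ^ 2) ∧
    (Summable fun m : ℕ => 1 / ((2 + 3 * m : ℕ) : ℝ) ^ 2) ∧
    (∑' m : ℕ, 1 / ((1 + 3 * m : ℕ) : ℝ) ^ 2) + (∑' m : ℕ, 1 / ((2 + 3 * m : ℕ) : ℝ) ^ 2)
      = 4 * Real.pi ^ 2 / 27 := by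
  have hz := hasSum_zeta_two
  have hs : Summable fun n : ℕ => 1 / (n : ℝ) ^ 2 := hz.summable
  have h1 : Summable fun m : ℕ => 1 / ((1 + 3 * m : ℕ) : ℝ) ^ 2 :=
    hs.comp_injective (i := fun m : ℕ => 1 + 3 * m) (fun a b h => by
      have h' : 1 + 3 * a = 1 + 3 * b := h
      omega)
  have h2 : Summable fun m : ℕ => 1 / ((2 + 3 * m : ℕ) : ℝ) ^ 2 :=
    hs.comp_injective (i := fun m : ℕ => 2 + 3 * m) (fun a b h => by
      have h' : 2 + 3 * a = 2 + 3 * b := h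
      omega)
  refine ⟨h1, h2, ?_⟩
  have h3 := Nat.sumByResidueClasses hs 3
  rw [hz.tsum_eq] at h3
  have h4 : ∑ j : ZMod 3, ∑' m : ℕ, 1 / ((j.val + 3 * m : ℕ) : ℝ) ^ 2 =
      (∑' m : ℕ, 1 / ((0 + 3 * m : ℕ) : ℝ) ^ 2) + (∑' m : ℕ, 1 / ((1 + 3 * m : ℕ) : ℝ) ^ 2) +
        (∑' m : ℕ, 1 / ((2 + 3 * m : ℕ) : ℝ) ^ 2) := Fin.sum_univ_three _
  rw [h4] at h3
  have h5 : (∑' m : ℕ, 1 / ((0 + 3 * m : ℕ) : ℝ) ^ 2) = 1 / 9 * (Real.pi ^ 2 / 6) := by
    rw [← hz.tsum_eq, ← tsum_mul_left]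
    refine tsum_congr fun m => ?_
    push_cast
    rw [zero_add, mul_pow]
    rw [← one_div_mul_one_div]
    norm_num
  rw [h5] at h3
  linarith

private theorem IVK1_F (t : ℝ) (ht0 : 0 ≤ t) : HasSum (fun k : ℤ => |cc t (3 * k + 1)|) t := by
  obtain ⟨h1, h2, h3⟩ := IVK1_S
  have hpi := Real.pi_pos
  have e : t = 27 * t / (4 * Real.pi ^ 2) * (∑' m : ℕ, 1 / ((1 + 3 * m : ℕ) : ℝ) ^ 2) +
      27 * t / (4 * Real.pi ^ 2) * (∑' m : ℕ, 1 / ((2 + 3 * m : ℕ) : ℝ) ^ 2) := by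
    rw [← mul_add, h3]
    field_simp
  have a1 := h1.hasSum.mul_left (27 * t / (4 * Real.pi ^ 2))
  have a2 := h2.hasSum.mul_left (27 * t / (4 * Real.pi ^ 2))
  have key : HasSum (fun k : ℤ => |cc t (3 * k + 1)|)
      (27 * t / (4 * Real.pi ^ 2) * (∑' m : ℕ, 1 / ((1 + 3 * m : ℕ) : ℝ) ^ 2) +
      27 * t / (4 * Real.pi ^ 2) * (∑' m : ℕ, 1 / ((2 + 3 * m : ℕ) : ℝ) ^ 2)) := by
    refine HasSum.of_nat_of_neg_add_one ?_ ?_
    · refine a1.congr_fun ?_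
      intro m
      rw [IVK1_abs t ht0 _ (by omega)]
      push_cast
      congr 3
      ring
    · refine a2.congr_fun ?_
      intro m
      rw [IVK1_abs t ht0 _ (by omega)]
      push_cast
      have : (3 * -((m : ℝ) + 1) + 1) ^ 2 = (2 + 3 * (m : ℝ)) ^ 2 := by ring
      rw [this]
  rw [← e] at key
  exact key

theorem K1 (t : ℝ) (ht0 : 0 ≤ t) (ht1 : t ≤ 1) :
    (Summable fun i : ℤ => |cc t i|) ∧ ∑' i : ℤ, |cc t i| ≤ 3 := by
  have hF := IVK1_F t ht0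
  have f1 : HasSum (fun i : ℤ => if i % 3 = 1 then |cc t i| else 0) t := by
    have hinj : Function.Injective (fun k : ℤ => 3 * k + 1) := fun a b h => by
      have h' : 3 * a + 1 = 3 * b + 1 := h
      omega
    refine (hinj.hasSum_iff ?_).1 ?_
    · intro x hx
      have : ¬ x % 3 = 1 := fun h => hx ⟨x / 3, by show 3 * (x / 3) + 1 = x; omega⟩
      exact if_neg this
    · refine hF.congr_fun fun k => ?_
      have hk : (3 * k + 1) % 3 = 1 := by omega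
      exact if_pos hk
  have f2 : HasSum (fun i : ℤ => if i % 3 = 2 then |cc t i| else 0) t := by
    have hinj : Function.Injective (fun k : ℤ => -(3 * k + 1)) := fun a b h => by
      have h' : -(3 * a + 1) = -(3 * b + 1) := h
      omega
    refine (hinj.hasSum_iff ?_).1 ?_
    · intro x hx
      have : ¬ x % 3 = 2 := fun h => hx ⟨(-x - 1) / 3, by
        show -(3 * ((-x - 1) / 3) + 1) = x
        omega⟩
      exact if_neg this
    · refine hF.congr_fun fun k => ?_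
      show (if (-(3 * k + 1)) % 3 = 2 then |cc t (-(3 * k + 1))| else 0) = |cc t (3 * k + 1)|
      rw [if_pos (by omega), IVK1_neg]
  have f0 : HasSum (fun i : ℤ => if i % 3 = 0 then |cc t i| else 0) 1 := by
    have h0 := hasSum_ite_eq (0 : ℤ) (1 : ℝ)
    refine h0.congr_fun fun i => ?_
    by_cases hi : i = 0
    · subst hi
      simp [cc]
    · rw [if_neg hi]
      by_cases h3 : i % 3 = 0
      · rw [if_pos h3]
        have h3' : (3 : ℤ) ∣ i := Int.dvd_of_emod_eq_zero h3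
        unfold cc
        rw [if_neg hi, if_pos h3', abs_zero]
      · rw [if_neg h3]
  have f := (f0.add f1).add f2
  have f' : HasSum (fun i : ℤ => |cc t i|) (1 + t + t) := by
    refine f.congr_fun fun i => ?_
    have h3 : i % 3 = 0 ∨ i % 3 = 1 ∨ i % 3 = 2 := by omega
    rcases h3 with h | h | h <;> simp [h]
  exact ⟨f'.summable, by rw [f'.tsum_eq]; linarith⟩

theorem K1b (t : ℝ) (ht0 : 0 ≤ t) (N : ℕ) (hN : ¬ 3 ∣ N) :
    (Summable fun n : ℕ => |cc t ((N : ℤ) - 3 * n)|) ∧ ∑' n : ℕ, |cc t ((N : ℤ) - 3 * n)| ≤ t := by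
  have hF := IVK1_F t ht0
  obtain ⟨i, hi, hE⟩ : ∃ i : ℕ → ℤ, Function.Injective i ∧
      ∀ n : ℕ, |cc t ((N : ℤ) - 3 * n)| = |cc t (3 * (i n) + 1)| := by
    have h3 : N % 3 = 1 ∨ N % 3 = 2 := by omega
    rcases h3 with h | h
    · refine ⟨fun n => ((N / 3 : ℕ) : ℤ) - n, fun a b hab => ?_, fun n => ?_⟩
      · have h' : ((N / 3 : ℕ) : ℤ) - a = ((N / 3 : ℕ) : ℤ) - b := hab
        omega
      · have : (N : ℤ) - 3 * n = 3 * (((N / 3 : ℕ) : ℤ) - n) + 1 := by omega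
        rw [this]
    · refine ⟨fun n => (n : ℤ) - ((N / 3 : ℕ) : ℤ) - 1, fun a b hab => ?_, fun n => ?_⟩
      · have h' : (a : ℤ) - ((N / 3 : ℕ) : ℤ) - 1 = (b : ℤ) - ((N / 3 : ℕ) : ℤ) - 1 := hab
        omega
      · have : (N : ℤ) - 3 * n = -(3 * ((n : ℤ) - ((N / 3 : ℕ) : ℤ) - 1) + 1) := by omega
        rw [this, IVK1_neg]
  have hfun : (fun n : ℕ => |cc t ((N : ℤ) - 3 * n)|) = (fun k : ℤ => |cc t (3 * k + 1)|) ∘ i :=
    funext hE
  rw [hfun]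
  refine ⟨hF.summable.comp_injective hi, ?_⟩
  have h := tsum_comp_le_tsum_of_inj hF.summable (fun k => abs_nonneg _) hi
  rw [hF.tsum_eq] at h
  exact h

theorem K1c (t : ℝ) (ht0 : 0 ≤ t) (ht1 : t ≤ 1) (i : ℤ) : |cc t i| ≤ 1 := by
  by_cases hi : i = 0
  · subst hi
    simp [cc]
  · by_cases h3 : (3 : ℤ) ∣ i
    · unfold cc
      rw [if_neg hi, if_pos h3, abs_zero]
      norm_num
    · rw [IVK1_abs t ht0 i h3]
      have hpi : (3 : ℝ) < Real.pi := Real.pi_gt_three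
      have h1 : (36 : ℝ) ≤ 4 * Real.pi ^ 2 := by nlinarith
      have h2 : (1 : ℝ) ≤ (i : ℝ) ^ 2 := by
        have : (1 : ℤ) ≤ i ^ 2 := by
          have := sq_nonneg i
          have hne : i ^ 2 ≠ 0 := pow_ne_zero 2 hi
          omega
        exact_mod_cast this
      have h4 : 27 * t / (4 * Real.pi ^ 2) ≤ 1 := by
        rw [div_le_one (by linarith)]
        linarith
      have h5 : 1 / (i : ℝ) ^ 2 ≤ 1 := by
        rw [div_le_one (by linarith)]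
        exact h2
      have h6 : 0 ≤ 1 / (i : ℝ) ^ 2 := by positivity
      have h7 : 0 ≤ 27 * t / (4 * Real.pi ^ 2) := by positivity
      calc 27 * t / (4 * Real.pi ^ 2) * (1 / (i : ℝ) ^ 2) ≤ 1 * 1 :=
            mul_le_mul h4 h5 h6 zero_le_one
        _ = 1 := one_mul 1

end Pool.Agent.LibIV39
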