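import Pool.Agent.LibIV39.Defs

/-! K4 (SHORT/MEDIUM, only Mathlib). PLAN. `y = |x - X|`. (i) `|mm s i - mm s' i| ≤ |s - s'| ≤ y`:
for `s ≤ s'` (both `≥ 1`) `0 ≤ mm s' i - mm s i ≤ ` : if `|i| ≥ s'` both are `0`; if `s ≤ |i| < s'`:
`1 - |i|/s' ≤ (s'-s)/s' ≤ s'-s`; if `|i| < s`: `|i| (1/s - 1/s') ≤ (s'-s)/s' ≤ s' - s`.
(ii) `mm s i * |e^u - 1|`, `u = (x-X) i/3`: if `|i| ≥ s` it is `0`, else `|u| ≤ y s/3 ≤ y (s' + y) ≤ s' y (1+y)`
and `|e^u - 1| ≤ |u| e^{|u|}`, so it is `≤ s' y (1+y) e^{s' y (1+y)} ≤ s' y e^{(s'+1) y (1+y)}` as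
`1 + y ≤ e^y ≤ e^{y(1+y)}`. (iii) `y ≤ y e^{(s'+1) y (1+y)}`. Total `≤ (s'+1) W (s'+1) y`. -/

set_option autoImplicit false

namespace Pool.Agent.LibIV39

open Filter Topology

private lemma K4_mm {s s' k : ℝ} (hs : 1 ≤ s) (h : s ≤ s') (hk : 0 ≤ k) :
    |max 0 (1 - k / s) - max 0 (1 - k / s')| ≤ s' - s := by
  have hs0 : 0 < s := by linarith
  have hs0' : 0 < s' := by linarith
  rcases le_or_gt s' k with h1 | h1
  · have h2 : 1 ≤ k / s' := (one_le_div hs0').2 h1
    have h3 : 1 ≤ k / s := (one_le_div hs0).2 (h.trans h1)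
    rw [max_eq_left (by linarith), max_eq_left (by linarith)]
    simpa using sub_nonneg.2 h
  · have h2 : k / s' ≤ 1 := (div_le_one hs0').2 h1.le
    rcases le_or_gt s k with h3 | h3
    · have h4 : 1 ≤ k / s := (one_le_div hs0).2 h3
      rw [max_eq_left (by linarith), max_eq_right (by linarith)]
      have h5 : s / s' ≤ k / s' := by gcongr
      have h6 : (s' - s) / s' ≤ s' - s := div_le_self (by linarith) (by linarith)
      have h7 : (s' - s) / s' = 1 - s / s' := by
        rw [sub_div, div_self hs0'.ne']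
      rw [abs_le]
      constructor <;> linarith
    · have h4 : k / s ≤ 1 := (div_le_one hs0).2 h3.le
      rw [max_eq_right (by linarith), max_eq_right (by linarith)]
      have h5 : k / s' ≤ k / s := by gcongr
      have h6 : k / s - k / s' ≤ s' - s := by
        have h7 : k / s - k / s' = (k / s) * ((s' - s) / s') := by
          field_simp
        rw [h7]
        have h8 : (s' - s) / s' ≤ s' - s := div_le_self (by linarith) (by linarith)
        have h9 : 0 ≤ (s' - s) / s' := div_nonneg (by linarith) hs0'.le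
        have h10 : 0 ≤ k / s := div_nonneg hk hs0.le
        nlinarith
      rw [abs_le]
      constructor <;> linarith

private lemma K4_mm' {s s' k : ℝ} (hs : 1 ≤ s) (hs' : 1 ≤ s') (hk : 0 ≤ k) :
    |max 0 (1 - k / s) - max 0 (1 - k / s')| ≤ |s - s'| := by
  rcases le_total s s' with h | h
  · rw [abs_sub_comm s s', abs_of_nonneg (by linarith : 0 ≤ s' - s)]
    exact K4_mm hs h hk
  · rw [abs_of_nonneg (by linarith : 0 ≤ s - s'), abs_sub_comm]
    exact K4_mm hs' h hk

private lemma K4_exp (u : ℝ) : |Real.exp u - 1| ≤ |u| * Real.exp |u| := by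
  rcases le_total 0 u with h | h
  · have h1 : 1 ≤ Real.exp u := Real.one_le_exp h
    rw [abs_of_nonneg (by linarith), abs_of_nonneg h]
    have h2 := Real.add_one_le_exp (-u)
    have h3 : Real.exp (-u) * Real.exp u = 1 := by rw [← Real.exp_add]; simp
    have h4 : 0 < Real.exp u := Real.exp_pos u
    nlinarith
  · have h1 : Real.exp u ≤ 1 := Real.exp_le_one_iff.2 h
    rw [abs_of_nonpos (by linarith), abs_of_nonpos h]
    have h2 := Real.add_one_le_exp u
    have h3 : 1 ≤ Real.exp (-u) := Real.one_le_exp (by linarith)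
    nlinarith

theorem K4 (s s' x X : ℝ) (hs : 1 ≤ s) (hs' : 1 ≤ s') (hss : |s - s'| ≤ |x - X|) (i : ℤ) :
    |mm s i * Real.exp ((x - X) * i / 3) - mm s' i| ≤ (s' + 1) * W (s' + 1) |x - X| := by
  have hy : 0 ≤ |x - X| := abs_nonneg _
  have hk : 0 ≤ |(i : ℝ)| := abs_nonneg _
  have hm0 : 0 ≤ mm s i := le_max_left _ _
  have hm1 : mm s i ≤ 1 := by
    refine max_le zero_le_one ?_
    have := div_nonneg hk (by linarith : 0 ≤ s)
    linarith
  have hA : |mm s i - mm s' i| ≤ |x - X| := (K4_mm' hs hs' hk).trans hss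
  set y := |x - X| with hydef
  set u := (x - X) * i / 3 with hu
  set E := Real.exp ((s' + 1) * y * (1 + y)) with hE
  have hE1 : 1 ≤ E := Real.one_le_exp (by positivity)
  have hB : mm s i * |Real.exp u - 1| ≤ s' * y * E := by
    rcases le_or_gt s |(i : ℝ)| with h1 | h1
    · have h2 : mm s i = 0 := by
        have h3 : 1 ≤ |(i : ℝ)| / s := (one_le_div (by linarith)).2 h1
        exact max_eq_left (by linarith)
      rw [h2, zero_mul]
      have : 0 ≤ s' := by linarith
      positivity
    · have h2 : |u| = y * |(i : ℝ)| / 3 := by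
        rw [hu, abs_div, abs_mul, abs_of_pos (by norm_num : (0 : ℝ) < 3)]
      have h3 : s ≤ s' + y := by
        have := (abs_le.1 hss).2
        linarith
      have h4 : |u| ≤ s' * y * (1 + y) := by
        rw [h2]
        have h5 : y * |(i : ℝ)| ≤ y * (s' + y) := mul_le_mul_of_nonneg_left (h1.le.trans h3) hy
        have h6 : y * y ≤ s' * y * y := by nlinarith [mul_nonneg hy hy]
        have h7 : 0 ≤ y * |(i : ℝ)| := mul_nonneg hy hk
        nlinarith
      have h5 : |Real.exp u - 1| ≤ (s' * y * (1 + y)) * Real.exp (s' * y * (1 + y)) :=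
        (K4_exp u).trans (mul_le_mul h4 (Real.exp_le_exp.2 h4) (Real.exp_pos _).le
          ((abs_nonneg _).trans h4))
      have h6 : 1 + y ≤ Real.exp (y * (1 + y)) := by
        have h7 := Real.add_one_le_exp (y * (1 + y))
        nlinarith
      have h7 : (s' * y * (1 + y)) * Real.exp (s' * y * (1 + y)) ≤ s' * y * E := by
        have h8 : E = Real.exp (y * (1 + y)) * Real.exp (s' * y * (1 + y)) := by
          rw [hE, ← Real.exp_add]
          congr 1
          ring
        rw [h8]
        have h9 : 0 ≤ s' * y := mul_nonneg (by linarith) hy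
        calc (s' * y * (1 + y)) * Real.exp (s' * y * (1 + y))
            = (s' * y) * ((1 + y) * Real.exp (s' * y * (1 + y))) := by ring
          _ ≤ (s' * y) * (Real.exp (y * (1 + y)) * Real.exp (s' * y * (1 + y))) := by
              gcongr
      calc mm s i * |Real.exp u - 1| ≤ 1 * |Real.exp u - 1| := by gcongr
        _ = |Real.exp u - 1| := one_mul _
        _ ≤ s' * y * E := h5.trans h7
  have hC : mm s i * Real.exp u - mm s' i = mm s i * (Real.exp u - 1) + (mm s i - mm s' i) := by
    ring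
  rw [hC]
  calc |mm s i * (Real.exp u - 1) + (mm s i - mm s' i)|
      ≤ |mm s i * (Real.exp u - 1)| + |mm s i - mm s' i| := abs_add_le _ _
    _ = mm s i * |Real.exp u - 1| + |mm s i - mm s' i| := by rw [abs_mul, abs_of_nonneg hm0]
    _ ≤ s' * y * E + y := add_le_add hB hA
    _ ≤ s' * y * E + y * E := by
        gcongr
        nlinarith
    _ = (s' + 1) * W (s' + 1) y := by
        rw [W, hE]
        ring

end Pool.Agent.LibIV39
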