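import Pool.Agent.LibIV39.Defs
import Pool.Agent.LibIV39.K1
import Pool.Agent.LibIV39.K4

/-! C3 (MEDIUM; uses `K1`, `K4`). `s n = σ (X n)`. PLAN. `w n = W (σ x + 1) |x - X n| ≥ 0`,
`D = σ x`. `hx` (`FB`) says that all finite sums of `3 (D+1) T n x w n` are `≤ ε mu`, so
`n ↦ T n x w n` is summable with `3 (D+1) ∑' T n x w n ≤ ε mu` (`summable_of_sum_le`, `Real.tsum_le_of_sum_le`).
By `K4` (`|σ (X n) - σ x| ≤ |X n - x|`): for all `n`, `i`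
`|mm (s n) i e^{(x-X n) i/3} - mm D i| ≤ (D+1) w n`. (C3a) `DN (n,i) ≤ T n x |cc i| + T n x (D+1) w n |cc i|`
(`0 ≤ mm ≤ 1`), product families are summable (`Summable.mul_of_nonneg`). (C3b) for `3 ∤ N`:
`∑' n, DN (n, N-3n) ≤ ∑' n, T n x |cc (N-3n)| + ∑' n, (D+1) T n x w n |cc (N-3n)| ≤ mu · t + ε mu`
(`T n x ≤ mu`, `K1b`, `K1c`). -/

set_option autoImplicit false

namespace Pool.Agent.LibIV39

open Filter Topology

private lemma C3_T_nonneg (a : ℕ → ℂ) (n : ℕ) (x : ℝ) : 0 ≤ T a n x := by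
  unfold T; positivity

private lemma C3_W_nonneg (D y : ℝ) (hy : 0 ≤ y) : 0 ≤ W D y := by
  unfold W; positivity

private lemma C3_mm_nonneg (s : ℝ) (i : ℤ) : 0 ≤ mm s i := by
  unfold mm; exact le_max_left _ _

private lemma C3_mm_le_one (s : ℝ) (hs : 1 ≤ s) (i : ℤ) : mm s i ≤ 1 := by
  unfold mm
  refine max_le zero_le_one ?_
  have : 0 ≤ |(i : ℝ)| / s := by positivity
  linarith

private lemma C3_sum (a : ℕ → ℂ) (ν : ℝ → ℕ) (X : ℕ → ℝ)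
    (σ : ℝ → ℝ) (hσ1 : ∀ x, 1 ≤ σ x) (x ε : ℝ)
    (hx : FB a ν X (σ x) ε x) :
    (Summable fun n => (σ x + 1) * (T a n x * W (σ x + 1) |x - X n|)) ∧
      ∑' n, (σ x + 1) * (T a n x * W (σ x + 1) |x - X n|) ≤ ε * mu a ν x := by
  have hD : 0 < σ x + 1 := by linarith [hσ1 x]
  have hnn : ∀ n, 0 ≤ (σ x + 1) * (T a n x * W (σ x + 1) |x - X n|) := fun n =>
    mul_nonneg hD.le (mul_nonneg (C3_T_nonneg a n x) (C3_W_nonneg _ _ (abs_nonneg _)))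
  have hb : ∀ S : Finset ℕ, ∑ n ∈ S, (σ x + 1) * (T a n x * W (σ x + 1) |x - X n|) ≤
      ε * mu a ν x := by
    intro S
    have h1 := hx S
    rw [← Finset.mul_sum]
    have h2 : 0 ≤ (σ x + 1) * ∑ n ∈ S, T a n x * W (σ x + 1) |x - X n| := by
      rw [Finset.mul_sum]
      exact Finset.sum_nonneg (fun n _ => hnn n)
    nlinarith [h1, h2]
  have hs := summable_of_sum_le hnn hb
  exact ⟨hs, hs.tsum_le_of_sum_le hb⟩

private lemma C3_pt (a : ℕ → ℂ) (X : ℕ → ℝ) (t : ℝ)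
    (σ : ℝ → ℝ) (hσ1 : ∀ x, 1 ≤ σ x) (hσL : ∀ x y, |σ x - σ y| ≤ |x - y|) (x : ℝ) (n : ℕ) (i : ℤ) :
    DN a X (fun n => σ (X n)) t x (n, i) ≤ T a n x * |cc t i| +
      (σ x + 1) * (T a n x * W (σ x + 1) |x - X n|) * |cc t i| := by
  have hk := K4 (σ (X n)) (σ x) x (X n) (hσ1 _) (hσ1 _)
    (by rw [abs_sub_comm x]; exact hσL _ _) i
  have h1 := (abs_le.mp hk).2
  have h2 := C3_mm_le_one (σ x) (hσ1 x) i
  have h3 : mm (σ (X n)) i * Real.exp ((x - X n) * i / 3) ≤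
      1 + (σ x + 1) * W (σ x + 1) |x - X n| := by linarith
  have hT := C3_T_nonneg a n x
  have hc := abs_nonneg (cc t i)
  have h4 := mul_le_mul_of_nonneg_left h3 (mul_nonneg hT hc)
  show T a n x * (|cc t i| * mm (σ (X n)) i * Real.exp ((x - X n) * i / 3)) ≤ _
  calc T a n x * (|cc t i| * mm (σ (X n)) i * Real.exp ((x - X n) * i / 3))
      = T a n x * |cc t i| * (mm (σ (X n)) i * Real.exp ((x - X n) * i / 3)) := by ring
    _ ≤ T a n x * |cc t i| * (1 + (σ x + 1) * W (σ x + 1) |x - X n|) := h4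
    _ = _ := by ring

private lemma C3_DN_nonneg (a : ℕ → ℂ) (X s : ℕ → ℝ) (t x : ℝ) (p : ℕ × ℤ) :
    0 ≤ DN a X s t x p := by
  unfold DN
  exact mul_nonneg (C3_T_nonneg a _ _) (mul_nonneg (mul_nonneg (abs_nonneg _)
    (C3_mm_nonneg _ _)) (Real.exp_pos _).le)

theorem C3a (a : ℕ → ℂ) (ν : ℝ → ℕ) (X : ℕ → ℝ) (h : NuX a ν X)
    (hT : ∀ x : ℝ, Summable fun n => T a n x) (t : ℝ) (ht0 : 0 ≤ t) (ht1 : t ≤ 1)
    (σ : ℝ → ℝ) (hσ1 : ∀ x, 1 ≤ σ x) (hσL : ∀ x y, |σ x - σ y| ≤ |x - y|) (x ε : ℝ)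
    (hx : FB a ν X (σ x) ε x) : Summable (DN a X (fun n => σ (X n)) t x) := by
  have hs := (C3_sum a ν X σ hσ1 x ε hx).1
  have hK := (K1 t ht0 ht1).1
  have hD : 0 < σ x + 1 := by linarith [hσ1 x]
  have h1 : Summable (fun p : ℕ × ℤ => T a p.1 x * |cc t p.2|) :=
    (hT x).mul_of_nonneg hK (fun n => C3_T_nonneg a n x) (fun i => abs_nonneg _)
  have h2 : Summable (fun p : ℕ × ℤ =>
      (σ x + 1) * (T a p.1 x * W (σ x + 1) |x - X p.1|) * |cc t p.2|) :=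
    hs.mul_of_nonneg hK (fun n => mul_nonneg hD.le (mul_nonneg (C3_T_nonneg a n x)
      (C3_W_nonneg _ _ (abs_nonneg _)))) (fun i => abs_nonneg _)
  refine Summable.of_nonneg_of_le (fun p => C3_DN_nonneg a X _ t x p) ?_ (h1.add h2)
  rintro ⟨n, i⟩
  exact C3_pt a X t σ hσ1 hσL x n i

theorem C3b (a : ℕ → ℂ) (ν : ℝ → ℕ) (X : ℕ → ℝ) (h : NuX a ν X)
    (hT : ∀ x : ℝ, Summable fun n => T a n x) (t : ℝ) (ht0 : 0 ≤ t) (ht1 : t ≤ 1)
    (σ : ℝ → ℝ) (hσ1 : ∀ x, 1 ≤ σ x) (hσL : ∀ x y, |σ x - σ y| ≤ |x - y|) (x ε : ℝ)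
    (hx : FB a ν X (σ x) ε x) (N : ℕ) (hN : ¬ 3 ∣ N) :
    ∑' n : ℕ, DN a X (fun n => σ (X n)) t x (n, (N : ℤ) - 3 * n) ≤ (t + ε) * mu a ν x := by
  obtain ⟨hs, hsb⟩ := C3_sum a ν X σ hσ1 x ε hx
  obtain ⟨hc, hcb⟩ := K1b t ht0 N hN
  have hD : 0 < σ x + 1 := by linarith [hσ1 x]
  have hmu : 0 < mu a ν x := h.pos x
  have hwn : ∀ n, 0 ≤ (σ x + 1) * (T a n x * W (σ x + 1) |x - X n|) := fun n =>
    mul_nonneg hD.le (mul_nonneg (C3_T_nonneg a n x) (C3_W_nonneg _ _ (abs_nonneg _)))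
  have hmain : Summable (fun n : ℕ => mu a ν x * |cc t ((N : ℤ) - 3 * n)| +
      (σ x + 1) * (T a n x * W (σ x + 1) |x - X n|)) := (hc.mul_left _).add hs
  have hle : ∀ n : ℕ, DN a X (fun n => σ (X n)) t x (n, (N : ℤ) - 3 * n) ≤
      mu a ν x * |cc t ((N : ℤ) - 3 * n)| +
      (σ x + 1) * (T a n x * W (σ x + 1) |x - X n|) := by
    intro n
    refine (C3_pt a X t σ hσ1 hσL x n _).trans ?_
    refine add_le_add ?_ ?_
    · exact mul_le_mul_of_nonneg_right (h.mx x n) (abs_nonneg _)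
    · exact mul_le_of_le_one_right (hwn n) (K1c t ht0 ht1 _)
  have hsD : Summable (fun n : ℕ => DN a X (fun n => σ (X n)) t x (n, (N : ℤ) - 3 * n)) :=
    Summable.of_nonneg_of_le (fun n => C3_DN_nonneg a X _ t x _) hle hmain
  calc ∑' n : ℕ, DN a X (fun n => σ (X n)) t x (n, (N : ℤ) - 3 * n)
      ≤ ∑' n : ℕ, (mu a ν x * |cc t ((N : ℤ) - 3 * n)| +
        (σ x + 1) * (T a n x * W (σ x + 1) |x - X n|)) := hsD.tsum_le_tsum hle hmain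
    _ = mu a ν x * ∑' n : ℕ, |cc t ((N : ℤ) - 3 * n)| +
        ∑' n : ℕ, (σ x + 1) * (T a n x * W (σ x + 1) |x - X n|) := by
        rw [(hc.mul_left _).tsum_add hs, tsum_mul_left]
    _ ≤ mu a ν x * t + ε * mu a ν x :=
        add_le_add (mul_le_mul_of_nonneg_left hcb hmu.le) hsb
    _ = (t + ε) * mu a ν x := by ring

end Pool.Agent.LibIV39
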