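import Pool.Agent.LibIV39.Defs
import Pool.Agent.LibIV39.K1
import Pool.Agent.LibIV39.K4
import Pool.Agent.LibIV39.C3

/-! C4 (MEDIUM; uses `K1`, `K4`, `C3a`). `s n = σ (X n)`, `D = σ x`. PLAN.
`f (e^{x+3iθ}) = ∑' a n e^{n(x+3iθ)}` (`hf`, `Complex.exp_nat_mul`) and `PF t D θ` are absolutely
convergent, so their product is the sum over `ℕ × ℤ` of
`a n e^{n(x+3iθ)} · cc i mm D i · e^{i i θ}` (`tsum_mul_tsum_of_summable_norm` / `HasSum.mul`). The
difference of the two families has norm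
`T n x |cc i| |mm (s n) i e^{(x-X n)i/3} - mm D i| ≤ T n x |cc i| (D+1) w n` (`K4`), whose sum over `ℕ × ℤ` is
`≤ 3 (D+1) ∑' T n x w n ≤ ε mu` (`K1`; `tsum_mul_tsum_of_summable_norm` or `Summable.tsum_prod`). -/

set_option autoImplicit false

namespace Pool.Agent.LibIV39

open Filter Topology

private theorem IV39_C4_W0 (D y : ℝ) (hy : 0 ≤ y) : 0 ≤ W D y :=
  mul_nonneg hy (Real.exp_pos _).le

private theorem IV39_C4_mm0 (s : ℝ) (i : ℤ) : 0 ≤ mm s i := le_max_left _ _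

private theorem IV39_C4_mm1 (s : ℝ) (hs : 1 ≤ s) (i : ℤ) : mm s i ≤ 1 := by
  refine max_le zero_le_one ?_
  have : 0 ≤ |(i : ℝ)| / s := by positivity
  linarith

private theorem IV39_C4_normF (a : ℕ → ℂ) (n : ℕ) (x θ : ℝ) :
    ‖a n * Complex.exp (n * (x + 3 * θ * Complex.I))‖ = T a n x := by
  rw [norm_mul, Complex.norm_exp, T]
  congr 2
  simp

private theorem IV39_C4_normE (i : ℤ) (θ : ℝ) : ‖Complex.exp (i * θ * Complex.I)‖ = 1 := by
  have : (i : ℂ) * θ * Complex.I = ((i * θ : ℝ) : ℂ) * Complex.I := by push_cast; ring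
  rw [this, Complex.norm_exp_ofReal_mul_I]

theorem C4 (a : ℕ → ℂ) (f : ℂ → ℂ) (hf : ∀ z, HasSum (fun n => a n * z ^ n) (f z))
    (ν : ℝ → ℕ) (X : ℕ → ℝ) (h : NuX a ν X)
    (hT : ∀ x : ℝ, Summable fun n => T a n x) (t : ℝ) (ht0 : 0 ≤ t) (ht1 : t ≤ 1)
    (σ : ℝ → ℝ) (hσ1 : ∀ x, 1 ≤ σ x) (hσL : ∀ x y, |σ x - σ y| ≤ |x - y|) (x ε : ℝ)
    (hx : FB a ν X (σ x) ε x) (θ : ℝ) :
    ‖(∑' p : ℕ × ℤ, DT a X (fun n => σ (X n)) t x θ p) -
      f (Complex.exp (x + 3 * θ * Complex.I)) * PF t (σ x) θ‖ ≤ ε * mu a ν x := by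
  set D : ℝ := σ x with hD
  set s : ℕ → ℝ := fun n => σ (X n) with hs
  have hT0 : ∀ n, 0 ≤ T a n x := fun n => mul_nonneg (norm_nonneg _) (Real.exp_pos _).le
  have hD1 : 1 ≤ D := hσ1 x
  have hw0 : ∀ n, 0 ≤ W (D + 1) |x - X n| := fun n => IV39_C4_W0 _ _ (abs_nonneg _)
  obtain ⟨hc1, hc3⟩ := K1 t ht0 ht1
  -- the two single families
  let F : ℕ → ℂ := fun n => a n * Complex.exp (n * (x + 3 * θ * Complex.I))
  let G : ℤ → ℂ := fun i => ((cc t i * mm D i : ℝ) : ℂ) * Complex.exp (i * θ * Complex.I)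
  have hFn : ∀ n, ‖F n‖ = T a n x := fun n => IV39_C4_normF a n x θ
  have hFs : Summable fun n => ‖F n‖ := by
    simp only [hFn]
    exact hT x
  have hGn : ∀ i, ‖G i‖ = |cc t i| * mm D i := fun i => by
    simp only [G]
    rw [norm_mul, IV39_C4_normE, mul_one, Complex.norm_real, Real.norm_eq_abs, abs_mul,
      abs_of_nonneg (IV39_C4_mm0 D i)]
  have hGs : Summable fun i => ‖G i‖ := by
    refine Summable.of_nonneg_of_le (fun i => norm_nonneg _) (fun i => ?_) hc1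
    rw [hGn]
    exact mul_le_of_le_one_right (abs_nonneg _) (IV39_C4_mm1 D hD1 i)
  have hFt : ∑' n, F n = f (Complex.exp (x + 3 * θ * Complex.I)) := by
    have h1 := (hf (Complex.exp (x + 3 * θ * Complex.I))).tsum_eq
    rw [← h1]
    refine tsum_congr fun n => ?_
    simp only [F]
    rw [← Complex.exp_nat_mul]
  have hprod : f (Complex.exp (x + 3 * θ * Complex.I)) * PF t (σ x) θ =
      ∑' p : ℕ × ℤ, F p.1 * G p.2 := by
    rw [← hFt]
    exact tsum_mul_tsum_of_summable_norm hFs hGs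
  have hps : Summable fun p : ℕ × ℤ => F p.1 * G p.2 := summable_mul_of_summable_norm hFs hGs
  -- the double family
  have hDTn : ∀ p, ‖DT a X s t x θ p‖ = DN a X s t x p := by
    rintro ⟨n, i⟩
    simp only [DT, DN]
    rw [norm_mul, norm_mul, IV39_C4_normE, mul_one, IV39_C4_normF, Complex.norm_real,
      Real.norm_eq_abs, abs_mul, abs_mul, abs_of_nonneg (IV39_C4_mm0 _ i),
      abs_of_nonneg (Real.exp_pos _).le]
  have hDTs : Summable (DT a X s t x θ) := by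
    refine Summable.of_norm ?_
    simp only [hDTn]
    exact C3a a ν X h hT t ht0 ht1 σ hσ1 hσL x ε hx
  -- the bound
  let B : ℕ → ℝ := fun n => (D + 1) * (T a n x * W (D + 1) |x - X n|)
  have hB0 : ∀ n, 0 ≤ B n := fun n =>
    mul_nonneg (by linarith) (mul_nonneg (hT0 n) (hw0 n))
  have hBf : ∀ S : Finset ℕ, ∑ n ∈ S, B n ≤ ε * mu a ν x / 3 := by
    intro S
    have h1 := hx S
    have h2 : ∑ n ∈ S, B n = (D + 1) * ∑ n ∈ S, T a n x * W (D + 1) |x - X n| := by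
      rw [Finset.mul_sum]
    rw [h2]
    linarith
  have hBs : Summable B := summable_of_sum_le hB0 hBf
  have hBt : ∑' n, B n ≤ ε * mu a ν x / 3 := hBs.tsum_le_of_sum_le hBf
  have hBt0 : 0 ≤ ∑' n, B n := tsum_nonneg hB0
  have hbs : Summable fun p : ℕ × ℤ => B p.1 * |cc t p.2| :=
    hBs.mul_of_nonneg hc1 hB0 (fun i => abs_nonneg _)
  have hbt : ∑' p : ℕ × ℤ, B p.1 * |cc t p.2| = (∑' n, B n) * ∑' i, |cc t i| := by
    refine (tsum_mul_tsum_of_summable_norm (f := B) (g := fun i => |cc t i|) ?_ ?_).symm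
    · simpa only [Real.norm_eq_abs, abs_of_nonneg (hB0 _)] using hBs
    · simpa only [Real.norm_eq_abs, abs_abs] using hc1
  have hle : ∀ p : ℕ × ℤ, ‖DT a X s t x θ p - F p.1 * G p.2‖ ≤ B p.1 * |cc t p.2| := by
    rintro ⟨n, i⟩
    have h1 : DT a X s t x θ (n, i) - F n * G i =
        (a n * Complex.exp (n * (x + 3 * θ * Complex.I))) *
          ((cc t i * (mm (s n) i * Real.exp ((x - X n) * i / 3) - mm D i) : ℝ) : ℂ) *
            Complex.exp (i * θ * Complex.I) := by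
      simp only [DT, F, G]
      push_cast
      ring
    have h2 := K4 (s n) D x (X n) (hσ1 _) hD1
      (by rw [hs, hD, abs_sub_comm x (X n)]; exact hσL (X n) x) i
    show ‖DT a X s t x θ (n, i) - F n * G i‖ ≤ B n * |cc t i|
    rw [h1, norm_mul, norm_mul, IV39_C4_normE, mul_one, IV39_C4_normF, Complex.norm_real,
      Real.norm_eq_abs, abs_mul]
    calc T a n x * (|cc t i| * |mm (s n) i * Real.exp ((x - X n) * i / 3) - mm D i|)
        ≤ T a n x * (|cc t i| * ((D + 1) * W (D + 1) |x - X n|)) :=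
          mul_le_mul_of_nonneg_left (mul_le_mul_of_nonneg_left h2 (abs_nonneg _)) (hT0 n)
      _ = B n * |cc t i| := by simp only [B]; ring
  rw [hprod, ← hDTs.tsum_sub hps]
  have hns : Summable fun p : ℕ × ℤ => ‖DT a X s t x θ p - F p.1 * G p.2‖ :=
    Summable.of_nonneg_of_le (fun _ => norm_nonneg _) hle hbs
  calc ‖∑' p : ℕ × ℤ, (DT a X s t x θ p - F p.1 * G p.2)‖
      ≤ ∑' p : ℕ × ℤ, ‖DT a X s t x θ p - F p.1 * G p.2‖ := norm_tsum_le_tsum_norm hns
    _ ≤ ∑' p : ℕ × ℤ, B p.1 * |cc t p.2| := hns.tsum_le_tsum hle hbs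
    _ = (∑' n, B n) * ∑' i, |cc t i| := hbt
    _ ≤ (∑' n, B n) * 3 := mul_le_mul_of_nonneg_left hc3 hBt0
    _ ≤ ε * mu a ν x := by linarith

end Pool.Agent.LibIV39
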