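import Mathlib

/-! # LibIV39 : the set of limits of (maximum term)/(maximum modulus) is an interval (MP_58b66c_an)

THEOREM (goal). If `C > 0` is the limit of `m(r)/M(r)` for some transcendental entire function, then
every `C'` with `0 < C' ≤ C` is also such a limit.

Variable: `x = log r`. The proof is on the page PAGE_58b66c_interval_helper39.md. -/

set_option autoImplicit false

namespace Pool.Agent.LibIV39

open Filter Topology

/-- `C` is the limit of (maximum term)/(maximum modulus) of a transcendental entire function. -/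
def IsLim (C : ℝ) : Prop :=
  ∃ (a : ℕ → ℂ) (f : ℂ → ℂ), (∀ z, HasSum (fun n => a n * z ^ n) (f z)) ∧
    (∀ P : Polynomial ℂ, ∃ z, f z ≠ P.eval z) ∧
    Tendsto (fun r : ℝ => (⨆ n, ‖a n‖ * r ^ n) / (⨆ z : Metric.sphere (0 : ℂ) r, ‖f z‖))
      atTop (𝓝 C)

/-- the `n`-th term on the circle of radius `exp x` -/
noncomputable def T (a : ℕ → ℂ) (n : ℕ) (x : ℝ) : ℝ := ‖a n‖ * Real.exp (n * x)

/-- the maximum term on the circle of radius `exp x` (`ν` = central index) -/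
noncomputable def mu (a : ℕ → ℂ) (ν : ℝ → ℕ) (x : ℝ) : ℝ := T a (ν x) x

/-- the maximum modulus on the circle of radius `exp x` -/
noncomputable def Ms (f : ℂ → ℂ) (x : ℝ) : ℝ := ⨆ z : Metric.sphere (0 : ℂ) (Real.exp x), ‖f z‖

/-- `ν` is a central index, `X n` is the (logarithmic) radius where it passes `n`, cut at `0`. -/
structure NuX (a : ℕ → ℂ) (ν : ℝ → ℕ) (X : ℕ → ℝ) : Prop where
  mono : Monotone ν
  top : Tendsto ν atTop atTop
  mx : ∀ x n, T a n x ≤ mu a ν x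
  pos : ∀ x, 0 < mu a ν x
  X0 : ∀ n, 0 ≤ X n
  X1 : ∀ n ξ, 0 ≤ ξ → ξ < X n → ν ξ < n
  X2 : ∀ n ξ, X n < ξ → n ≤ ν ξ

/-- the increments of `ν` over every fixed length tend to infinity -/
def SD (ν : ℝ → ℕ) : Prop :=
  ∀ η : ℝ, 0 < η → ∀ L : ℕ, ∃ x0 : ℝ, ∀ x, x0 ≤ x → ν x + L ≤ ν (x + η)

/-- Parseval property -/
def PV (a : ℕ → ℂ) (ν : ℝ → ℕ) (K x0 : ℝ) : Prop :=
  ∀ x, x0 ≤ x → ∀ S : Finset ℕ, ∑ n ∈ S, T a n x ^ 2 ≤ K ^ 2 * mu a ν x ^ 2

/-- weight -/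
noncomputable def W (D y : ℝ) : ℝ := y * Real.exp (D * y * (1 + y))

/-- coefficients of the kernel `P = 1 + t (1 - 3 Λ)` -/
noncomputable def cc (t : ℝ) (i : ℤ) : ℝ :=
  if i = 0 then 1 else if (3 : ℤ) ∣ i then 0 else -(27 * t) / (4 * Real.pi ^ 2 * (i : ℝ) ^ 2)

/-- Fejér multiplier of degree `s` -/
noncomputable def mm (s : ℝ) (i : ℤ) : ℝ := max 0 (1 - |(i : ℝ)| / s)

/-- the kernel -/
noncomputable def PP (t θ : ℝ) : ℂ := ∑' i : ℤ, (cc t i : ℂ) * Complex.exp (i * θ * Complex.I)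

/-- the Fejér means of the kernel -/
noncomputable def PF (t s θ : ℝ) : ℂ :=
  ∑' i : ℤ, ((cc t i * mm s i : ℝ) : ℂ) * Complex.exp (i * θ * Complex.I)

/-- kernel coefficient with the shift `X` : the factor of `a n` in the coefficient number
`3 n + i` -/
noncomputable def kk (t s X : ℝ) (i : ℤ) : ℝ := cc t i * mm s i * Real.exp (-(X * i / 3))

/-- coefficients of the new function -/
noncomputable def bb (a : ℕ → ℂ) (X s : ℕ → ℝ) (t : ℝ) (N : ℕ) : ℂ :=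
  ∑' n : ℕ, a n * (kk t (s n) (X n) ((N : ℤ) - 3 * n) : ℂ)

/-- the new function -/
noncomputable def FF (a : ℕ → ℂ) (X s : ℕ → ℝ) (t : ℝ) (z : ℂ) : ℂ :=
  ∑' N : ℕ, bb a X s t N * z ^ N

/-- the double family of the new function at the point `exp (x/3 + iθ)` -/
noncomputable def DT (a : ℕ → ℂ) (X s : ℕ → ℝ) (t x θ : ℝ) (p : ℕ × ℤ) : ℂ :=
  a p.1 * Complex.exp (p.1 * (x + 3 * θ * Complex.I)) *
    ((cc t p.2 * mm (s p.1) p.2 * Real.exp ((x - X p.1) * p.2 / 3) : ℝ) : ℂ) *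
    Complex.exp (p.2 * θ * Complex.I)

/-- its norm -/
noncomputable def DN (a : ℕ → ℂ) (X s : ℕ → ℝ) (t x : ℝ) (p : ℕ × ℤ) : ℝ :=
  T a p.1 x * (|cc t p.2| * mm (s p.1) p.2 * Real.exp ((x - X p.1) * p.2 / 3))

/-- the fade bound at `x` with degree `D` : the total error is at most `ε` times the maximum term -/
def FB (a : ℕ → ℂ) (ν : ℝ → ℕ) (X : ℕ → ℝ) (D ε x : ℝ) : Prop :=
  ∀ S : Finset ℕ, 3 * (D + 1) * ∑ n ∈ S, T a n x * W (D + 1) |x - X n| ≤ ε * mu a ν x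

end Pool.Agent.LibIV39
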