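import Pool.Agent.LibIV39.Defs

/-! F1 (MEDIUM, only Mathlib): right tail. PLAN. `ρ = x + y/2`. For `n ∈ S`: `ν (x+y) < n`
(`X1`, `ξ = x+y ≥ 0`) and `T n x = T n ρ · e^{-(n y/2)}`. Cauchy-Schwarz
(`Finset.sum_mul_sq_le_sq_mul_sq`, or `Finset.inner_mul_le_norm_mul_norm`), `PV` at `ρ`:
`(∑ T n x)² ≤ K² mu(ρ)² ∑_{n∈S} e^{-n y}`. Geometric: `∑_{n∈S} e^{-ny} ≤ e^{-ν(x+y) y} (1+y)/y` because
`n ≥ ν(x+y)+1` and `∑_{k≥1} e^{-ky} = 1/(e^y-1) ≤ 1/y ≤ (1+y)/y` (bound the finite sum by a `tsum` /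
`geom_sum`; e.g. map `n ↦ n - (ν(x+y)+1)` into a range). Finally
`mu ρ = T (ν ρ) ρ = T (ν ρ) x · e^{ν(ρ) y/2} ≤ mu x · e^{ν(ρ) y/2}`. Take the square root
(`Real.le_sqrt`, or `abs_le_of_sq_le_sq'`). -/

set_option autoImplicit false

namespace Pool.Agent.LibIV39

open Filter Topology

private theorem F1_geom (y : ℝ) (hy : 0 < y) (m : ℕ) (S : Finset ℕ) (hS : ∀ n ∈ S, m < n) :
    ∑ n ∈ S, Real.exp (-(n * y)) ≤ Real.exp (-(m * y)) * ((1 + y) / y) := by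
  set r : ℝ := Real.exp (-y) with hr
  have hr0 : 0 < r := Real.exp_pos _
  have hr1 : r < 1 := by
    rw [hr]
    exact Real.exp_lt_one_iff.mpr (by linarith)
  have hpow : ∀ n : ℕ, Real.exp (-(n * y)) = r ^ n := by
    intro n
    rw [hr, ← Real.exp_nat_mul]
    congr 1
    ring
  have h1 : ∑ n ∈ S, Real.exp (-(n * y)) ≤ ∑ n ∈ Finset.Ico (m + 1) (S.sup id + 1), r ^ n := by
    have h2 : ∑ n ∈ S, Real.exp (-(n * y)) = ∑ n ∈ S, r ^ n :=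
      Finset.sum_congr rfl (fun n _ => hpow n)
    rw [h2]
    refine Finset.sum_le_sum_of_subset_of_nonneg ?_ ?_
    · intro n hn
      rw [Finset.mem_Ico]
      exact ⟨hS n hn, Nat.lt_succ_of_le (Finset.le_sup (f := id) hn)⟩
    · intro n _ _
      positivity
  have h3 : ∑ n ∈ Finset.Ico (m + 1) (S.sup id + 1), r ^ n ≤ r ^ (m + 1) / (1 - r) :=
    geom_sum_Ico_le_of_lt_one hr0.le hr1
  have h4 : r ^ (m + 1) / (1 - r) ≤ Real.exp (-(m * y)) * ((1 + y) / y) := by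
    rw [hpow m, pow_succ, mul_div_assoc]
    refine mul_le_mul_of_nonneg_left ?_ (by positivity)
    have h5 : (0 : ℝ) < 1 - r := by linarith
    rw [div_le_div_iff₀ h5 hy]
    have h6 : r * Real.exp y = 1 := by
      rw [hr, ← Real.exp_add]
      simp
    have h7 : y + 1 ≤ Real.exp y := Real.add_one_le_exp y
    have h8 : r * (y + 1) ≤ 1 := by
      calc r * (y + 1) ≤ r * Real.exp y := mul_le_mul_of_nonneg_left h7 hr0.le
        _ = 1 := h6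
    nlinarith
  linarith

theorem F1 (a : ℕ → ℂ) (ν : ℝ → ℕ) (X : ℕ → ℝ) (h : NuX a ν X) (K x0 : ℝ) (hK : 0 ≤ K)
    (hP : PV a ν K x0) (x y : ℝ) (hx0 : x0 ≤ x) (hx : 0 ≤ x) (hy : 0 < y) (S : Finset ℕ)
    (hS : ∀ n ∈ S, x + y < X n) :
    ∑ n ∈ S, T a n x ≤ K * mu a ν x * (Real.sqrt ((1 + y) / y) *
      Real.exp (-(y / 2 * ((ν (x + y) : ℝ) - ν (x + y / 2))))) := by
  set ρ : ℝ := x + y / 2 with hρ
  have hS' : ∀ n ∈ S, ν (x + y) < n := fun n hn => h.X1 n (x + y) (by linarith) (hS n hn)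
  have hT : ∀ n : ℕ, T a n x = T a n ρ * Real.exp (-(n * (y / 2))) := by
    intro n
    unfold T
    rw [mul_assoc, ← Real.exp_add, hρ]
    congr 2
    ring
  have hmu0 : 0 < mu a ν x := h.pos x
  have hmuρ0 : 0 < mu a ν ρ := h.pos ρ
  -- bound of `mu ρ`
  have hmuρ : mu a ν ρ ≤ mu a ν x * Real.exp (ν ρ * (y / 2)) := by
    have h1 : mu a ν ρ = T a (ν ρ) x * Real.exp (ν ρ * (y / 2)) := by
      unfold mu
      rw [hT (ν ρ), mul_assoc, ← Real.exp_add]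
      simp
    rw [h1]
    exact mul_le_mul_of_nonneg_right (h.mx x (ν ρ)) (Real.exp_pos _).le
  -- Cauchy-Schwarz
  have hCS : (∑ n ∈ S, T a n x) ^ 2 ≤
      (∑ n ∈ S, T a n ρ ^ 2) * ∑ n ∈ S, Real.exp (-(n * (y / 2))) ^ 2 := by
    have h2 : ∑ n ∈ S, T a n x = ∑ n ∈ S, T a n ρ * Real.exp (-(n * (y / 2))) :=
      Finset.sum_congr rfl (fun n _ => hT n)
    rw [h2]
    exact Finset.sum_mul_sq_le_sq_mul_sq S _ _
  have hsq : ∑ n ∈ S, Real.exp (-(n * (y / 2))) ^ 2 = ∑ n ∈ S, Real.exp (-(n * y)) := by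
    refine Finset.sum_congr rfl (fun n _ => ?_)
    rw [sq, ← Real.exp_add]
    congr 1
    ring
  have hgeo := F1_geom y hy (ν (x + y)) S hS'
  have hPV := hP ρ (by linarith) S
  have hnn : 0 ≤ ∑ n ∈ S, Real.exp (-((n : ℝ) * y)) :=
    Finset.sum_nonneg (fun n _ => (Real.exp_pos _).le)
  set E : ℝ := Real.exp (-(y / 2 * ((ν (x + y) : ℝ) - ν ρ))) with hE
  have hB0 : 0 ≤ K * mu a ν x * (Real.sqrt ((1 + y) / y) * E) := by positivity
  have hmain : (∑ n ∈ S, T a n x) ^ 2 ≤ (K * mu a ν x * (Real.sqrt ((1 + y) / y) * E)) ^ 2 := by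
    have h3 : (K * mu a ν x * (Real.sqrt ((1 + y) / y) * E)) ^ 2 =
        K ^ 2 * mu a ν x ^ 2 * (((1 + y) / y) * E ^ 2) := by
      rw [mul_pow, mul_pow, mul_pow, Real.sq_sqrt (by positivity)]
    rw [h3]
    have h4 : mu a ν ρ ^ 2 ≤ (mu a ν x * Real.exp (ν ρ * (y / 2))) ^ 2 :=
      pow_le_pow_left₀ hmuρ0.le hmuρ 2
    have h5 : Real.exp (ν ρ * (y / 2)) ^ 2 * Real.exp (-((ν (x + y) : ℝ) * y)) = E ^ 2 := by
      rw [hE, sq, sq, ← Real.exp_add, ← Real.exp_add, ← Real.exp_add]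
      congr 1
      ring
    calc (∑ n ∈ S, T a n x) ^ 2
        ≤ (∑ n ∈ S, T a n ρ ^ 2) * ∑ n ∈ S, Real.exp (-(n * (y / 2))) ^ 2 := hCS
      _ = (∑ n ∈ S, T a n ρ ^ 2) * ∑ n ∈ S, Real.exp (-(n * y)) := by rw [hsq]
      _ ≤ (K ^ 2 * mu a ν ρ ^ 2) * (Real.exp (-((ν (x + y) : ℝ) * y)) * ((1 + y) / y)) :=
          mul_le_mul hPV hgeo hnn (by positivity)
      _ ≤ (K ^ 2 * (mu a ν x * Real.exp (ν ρ * (y / 2))) ^ 2) *
          (Real.exp (-((ν (x + y) : ℝ) * y)) * ((1 + y) / y)) :=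
          mul_le_mul_of_nonneg_right (mul_le_mul_of_nonneg_left h4 (by positivity)) (by positivity)
      _ = K ^ 2 * mu a ν x ^ 2 * (((1 + y) / y) *
          (Real.exp (ν ρ * (y / 2)) ^ 2 * Real.exp (-((ν (x + y) : ℝ) * y)))) := by ring
      _ = K ^ 2 * mu a ν x ^ 2 * (((1 + y) / y) * E ^ 2) := by rw [h5]
  exact le_trans (le_abs_self _) (abs_le_of_sq_le_sq hmain hB0)

end Pool.Agent.LibIV39
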