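import Pool.Agent.LibIV39.Defs

/-! F2 (MEDIUM, only Mathlib): left tail. PLAN. `ρ = x - y/2 ≥ x/2 ≥ x0`. For `n ∈ S`: `n ≤ ν (x-y)`
(`X2`, `ξ = x-y`) and `T n x = T n ρ · e^{n y/2}`. Cauchy-Schwarz and `PV` at `ρ`:
`(∑ T n x)² ≤ K² mu(ρ)² ∑_{n∈S} e^{n y}`. Geometric: `∑_{n ≤ ν(x-y)} e^{ny} ≤ e^{ν(x-y) y}/(1-e^{-y})
≤ e^{ν(x-y) y} (1+y)/y` (as `e^{-y} ≤ 1/(1+y)`). `mu ρ = T (ν ρ) ρ = T (ν ρ) x · e^{-ν(ρ) y/2}
≤ mu x · e^{-ν(ρ) y/2}`. Take the square root. -/

set_option autoImplicit false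

namespace Pool.Agent.LibIV39

open Filter Topology

private theorem F2_geom (y : ℝ) (hy : 0 < y) (M : ℕ) :
    ∑ n ∈ Finset.range (M + 1), Real.exp (n * y) ≤ Real.exp (M * y) * ((1 + y) / y) := by
  induction M with
  | zero =>
    simp only [zero_add, Finset.sum_range_one, Nat.cast_zero, zero_mul, Real.exp_zero, one_mul]
    rw [le_div_iff₀ hy]
    linarith
  | succ M ih =>
    rw [Finset.sum_range_succ]
    have h1 : Real.exp (((M + 1 : ℕ) : ℝ) * y) = Real.exp (M * y) * Real.exp y := by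
      rw [← Real.exp_add]
      congr 1
      push_cast
      ring
    have h2 : y + 1 ≤ Real.exp y := Real.add_one_le_exp y
    have h3 : 0 < Real.exp ((M : ℝ) * y) := Real.exp_pos _
    rw [h1]
    have h4 : Real.exp (M * y) * ((1 + y) / y) ≤
        Real.exp (M * y) * Real.exp y * ((1 + y) / y) - Real.exp (M * y) * Real.exp y := by
      have : Real.exp (M * y) * Real.exp y * ((1 + y) / y) - Real.exp (M * y) * Real.exp y
          = Real.exp (M * y) * (Real.exp y / y) := by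
        field_simp
        ring
      rw [this]
      apply mul_le_mul_of_nonneg_left _ h3.le
      apply div_le_div_of_nonneg_right _ hy.le
      linarith
    linarith

theorem F2 (a : ℕ → ℂ) (ν : ℝ → ℕ) (X : ℕ → ℝ) (h : NuX a ν X) (K x0 : ℝ) (hK : 0 ≤ K)
    (hP : PV a ν K x0) (x y : ℝ) (hx0 : 2 * x0 ≤ x) (hy : 0 < y) (hyx : y ≤ x) (S : Finset ℕ)
    (hS : ∀ n ∈ S, X n < x - y) :
    ∑ n ∈ S, T a n x ≤ K * mu a ν x * (Real.sqrt ((1 + y) / y) *
      Real.exp (-(y / 2 * ((ν (x - y / 2) : ℝ) - ν (x - y))))) := by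
  have hρ : x0 ≤ x - y / 2 := by linarith
  have hV := hP (x - y / 2) hρ S
  have hTx : ∀ n : ℕ, T a n x = T a n (x - y / 2) * Real.exp (n * (y / 2)) := by
    intro n
    unfold T
    rw [mul_assoc, ← Real.exp_add]
    congr 2
    ring
  have hmu0 : 0 < mu a ν x := h.pos x
  have hA : 0 ≤ ∑ n ∈ S, T a n x := by
    apply Finset.sum_nonneg
    intro n _
    unfold T
    positivity
  have hB : 0 ≤ K * mu a ν x * (Real.sqrt ((1 + y) / y) *
      Real.exp (-(y / 2 * ((ν (x - y / 2) : ℝ) - ν (x - y))))) := by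
    have := hmu0.le
    positivity
  apply (pow_le_pow_iff_left₀ hA hB two_ne_zero).1
  have hCS : (∑ n ∈ S, T a n x) ^ 2 ≤
      (∑ n ∈ S, T a n (x - y / 2) ^ 2) * ∑ n ∈ S, Real.exp (n * (y / 2)) ^ 2 := by
    have h1 : ∑ n ∈ S, T a n x = ∑ n ∈ S, T a n (x - y / 2) * Real.exp (n * (y / 2)) :=
      Finset.sum_congr rfl fun n _ => hTx n
    rw [h1]
    exact Finset.sum_mul_sq_le_sq_mul_sq S _ _
  have hexp : ∑ n ∈ S, Real.exp (n * (y / 2)) ^ 2 ≤
      Real.exp (ν (x - y) * y) * ((1 + y) / y) := by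
    have h1 : ∑ n ∈ S, Real.exp (n * (y / 2)) ^ 2 = ∑ n ∈ S, Real.exp (n * y) := by
      refine Finset.sum_congr rfl fun n _ => ?_
      rw [← Real.exp_nat_mul]
      congr 1
      push_cast
      ring
    rw [h1]
    refine le_trans ?_ (F2_geom y hy (ν (x - y)))
    apply Finset.sum_le_sum_of_subset_of_nonneg
    · intro n hn
      rw [Finset.mem_range]
      exact Nat.lt_succ_of_le (h.X2 n _ (hS n hn))
    · intro n _ _
      exact (Real.exp_pos _).le
  have hmuρ : mu a ν (x - y / 2) ≤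
      mu a ν x * Real.exp (-(ν (x - y / 2) * (y / 2))) := by
    have h1 : mu a ν (x - y / 2) =
        T a (ν (x - y / 2)) x * Real.exp (-(ν (x - y / 2) * (y / 2))) := by
      unfold mu
      rw [hTx (ν (x - y / 2)), mul_assoc, ← Real.exp_add, add_neg_cancel, Real.exp_zero, mul_one]
    rw [h1]
    exact mul_le_mul_of_nonneg_right (h.mx x _) (Real.exp_pos _).le
  have hmuρ0 : 0 ≤ mu a ν (x - y / 2) := (h.pos _).le
  have hsqρ : mu a ν (x - y / 2) ^ 2 ≤
      (mu a ν x * Real.exp (-(ν (x - y / 2) * (y / 2)))) ^ 2 :=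
    pow_le_pow_left₀ hmuρ0 hmuρ 2
  have hg0 : 0 ≤ Real.exp (ν (x - y) * y) * ((1 + y) / y) := by positivity
  calc (∑ n ∈ S, T a n x) ^ 2
      ≤ (∑ n ∈ S, T a n (x - y / 2) ^ 2) * ∑ n ∈ S, Real.exp (n * (y / 2)) ^ 2 := hCS
    _ ≤ (K ^ 2 * mu a ν (x - y / 2) ^ 2) * (Real.exp (ν (x - y) * y) * ((1 + y) / y)) := by
        apply mul_le_mul hV hexp
        · exact Finset.sum_nonneg fun n _ => by positivity
        · positivity
    _ ≤ (K ^ 2 * (mu a ν x * Real.exp (-(ν (x - y / 2) * (y / 2)))) ^ 2) *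
          (Real.exp (ν (x - y) * y) * ((1 + y) / y)) := by
        apply mul_le_mul_of_nonneg_right _ hg0
        exact mul_le_mul_of_nonneg_left hsqρ (by positivity)
    _ = (K * mu a ν x * (Real.sqrt ((1 + y) / y) *
          Real.exp (-(y / 2 * ((ν (x - y / 2) : ℝ) - ν (x - y)))))) ^ 2 := by
        have hs : Real.sqrt ((1 + y) / y) ^ 2 = (1 + y) / y := Real.sq_sqrt (by positivity)
        have he : Real.exp (-(ν (x - y / 2) * (y / 2))) ^ 2 * Real.exp (ν (x - y) * y) =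
            Real.exp (-(y / 2 * ((ν (x - y / 2) : ℝ) - ν (x - y)))) ^ 2 := by
          rw [← Real.exp_nat_mul, ← Real.exp_nat_mul, ← Real.exp_add]
          congr 1
          push_cast
          ring
        simp only [mul_pow]
        rw [hs, ← he]
        ring

end Pool.Agent.LibIV39
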