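import Pool.Agent.LibIV39.Defs

/-! F3 (MEDIUM, only Mathlib): growth of the increments. PLAN. `SD` with `η = 1/4` and
`L' = ⌈L⌉₊` gives `ξ` (take `ξ ≥ 0`). Iterating: for `p ≥ ξ`, `k : ℕ`: `ν (p + k/4) ≥ ν p + k L'`, so
for `ξ ≤ p ≤ q`: `ν q - ν p ≥ L' ⌊4(q-p)⌋ ≥ L'(4(q-p) - 1)`. Right: `p = x+y/2`, `q = x+y`:
`≥ L'(2y-1) ≥ L(y-1)` (if `y < 1` the left side is `≤ 0` and the right side `≥ 0` by monotonicity,
else `L' ≥ L ≥ 0`). Left (`y ≤ x`), `xL = 4ξ + 4`: if `x-y ≥ ξ` the same with `p = x-y`,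
`q = x-y/2`; otherwise `ν (x-y) ≤ ν ξ` and `p = ξ`, `q = x-y/2`:
`4(q-p)-1 = 4x-2y-4ξ-1 ≥ y - 1` because `3y ≤ 3x` and `x ≥ 4ξ`. -/

set_option autoImplicit false

namespace Pool.Agent.LibIV39

open Filter Topology

theorem F3 (ν : ℝ → ℕ) (hm : Monotone ν) (hSD : SD ν) (L : ℝ) (hL : 0 ≤ L) :
    ∃ xL : ℝ, ∀ x, xL ≤ x → ∀ y, 0 < y →
      L * (y - 1) ≤ (ν (x + y) : ℝ) - ν (x + y / 2) ∧
      (y ≤ x → L * (y - 1) ≤ (ν (x - y / 2) : ℝ) - ν (x - y)) := by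
  obtain ⟨x0, h0⟩ := hSD (1 / 4) (by norm_num) ⌈L⌉₊
  set M : ℕ := ⌈L⌉₊ with hMdef
  have hLM : L ≤ (M : ℝ) := Nat.le_ceil L
  have hM0 : (0 : ℝ) ≤ (M : ℝ) := Nat.cast_nonneg M
  set ξ : ℝ := max x0 0 with hξdef
  have hξ0 : 0 ≤ ξ := le_max_right _ _
  have hξx : x0 ≤ ξ := le_max_left _ _
  have iter : ∀ k : ℕ, ∀ p : ℝ, ξ ≤ p → ν p + k * M ≤ ν (p + k / 4) := by
    intro k
    induction k with
    | zero =>
      intro p hp
      simp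
    | succ k ih =>
      intro p hp
      have h1 := ih p hp
      have hk0 : (0 : ℝ) ≤ (k : ℝ) / 4 := by positivity
      have h2 := h0 (p + k / 4) (by linarith)
      have h3 : p + ((k + 1 : ℕ) : ℝ) / 4 = p + (k : ℝ) / 4 + 1 / 4 := by
        push_cast
        ring
      rw [h3]
      calc ν p + (k + 1) * M = (ν p + k * M) + M := by ring
        _ ≤ ν (p + k / 4) + M := Nat.add_le_add_right h1 M
        _ ≤ ν (p + k / 4 + 1 / 4) := h2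
  have key : ∀ p q : ℝ, ξ ≤ p → p ≤ q → (M : ℝ) * (4 * (q - p) - 1) ≤ (ν q : ℝ) - ν p := by
    intro p q hp hpq
    have h4 : 0 ≤ 4 * (q - p) := by linarith
    have hf1 : ((⌊4 * (q - p)⌋₊ : ℕ) : ℝ) ≤ 4 * (q - p) := Nat.floor_le h4
    have hf2 : 4 * (q - p) < ((⌊4 * (q - p)⌋₊ : ℕ) : ℝ) + 1 := Nat.lt_floor_add_one _
    have h5 := iter ⌊4 * (q - p)⌋₊ p hp
    have h6 : ν (p + ((⌊4 * (q - p)⌋₊ : ℕ) : ℝ) / 4) ≤ ν q := hm (by linarith)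
    have h7 : ν p + ⌊4 * (q - p)⌋₊ * M ≤ ν q := le_trans h5 h6
    have h8 : (ν p : ℝ) + ((⌊4 * (q - p)⌋₊ : ℕ) : ℝ) * (M : ℝ) ≤ (ν q : ℝ) := by
      exact_mod_cast h7
    have h9 : (M : ℝ) * (4 * (q - p) - 1) ≤ (M : ℝ) * ((⌊4 * (q - p)⌋₊ : ℕ) : ℝ) :=
      mul_le_mul_of_nonneg_left (by linarith) hM0
    linarith
  have fin : ∀ p q y : ℝ, ξ ≤ p → p ≤ q → y - 1 ≤ 4 * (q - p) - 1 →
      L * (y - 1) ≤ (ν q : ℝ) - ν p := by
    intro p q y hp hpq hy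
    rcases le_or_gt 1 y with h1 | h1
    · have h2 : L * (y - 1) ≤ (M : ℝ) * (y - 1) :=
        mul_le_mul_of_nonneg_right hLM (by linarith)
      have h3 : (M : ℝ) * (y - 1) ≤ (M : ℝ) * (4 * (q - p) - 1) :=
        mul_le_mul_of_nonneg_left hy hM0
      have h4 := key p q hp hpq
      linarith
    · have h2 : L * (y - 1) ≤ 0 := mul_nonpos_of_nonneg_of_nonpos hL (by linarith)
      have h3 : (ν p : ℝ) ≤ (ν q : ℝ) := by exact_mod_cast hm hpq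
      linarith
  refine ⟨4 * ξ + 4, ?_⟩
  intro x hx y hy
  refine ⟨fin _ _ _ (by linarith) (by linarith) (by linarith), ?_⟩
  intro hyx
  rcases le_or_gt ξ (x - y) with h1 | h1
  · exact fin _ _ _ h1 (by linarith) (by linarith)
  · have h2 := fin ξ (x - y / 2) y le_rfl (by linarith) (by linarith)
    have h3 : (ν (x - y) : ℝ) ≤ (ν ξ : ℝ) := by exact_mod_cast hm h1.le
    linarith

end Pool.Agent.LibIV39
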