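import Pool.Agent.LibIV39.Defs

/-! F4 (SHORT/MEDIUM, only Mathlib): dyadic decomposition. PLAN. For `n ∈ S` there is `l n : ℤ` with
`2^(l n) < y n ≤ 2^(l n + 1)` (`exists_mem_Ioc_zpow`, `1 < 2`). So
`∑_{n∈S} t n w(y n) ≤ ∑_{n∈S} t n w(2^(l n+1)) = ∑_{l ∈ S.image l} w(2^(l+1)) ∑_{n∈S, l n = l} t n
≤ ∑_{l ∈ S.image l} w(2^(l+1)) B l ≤ ∑' l` (`Finset.sum_fiberwise_of_maps_to`,
`Summable.sum_le_tsum`, the terms are `≥ 0`: `B l ≥ 0` by `hB` with `S' = ∅`). -/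

set_option autoImplicit false

namespace Pool.Agent.LibIV39

open Filter Topology

theorem F4 (S : Finset ℕ) (t y : ℕ → ℝ) (ht : ∀ n, 0 ≤ t n) (hy : ∀ n ∈ S, 0 < y n)
    (w : ℝ → ℝ) (hw : ∀ u v : ℝ, 0 < u → u ≤ v → w u ≤ w v) (hw0 : ∀ u : ℝ, 0 < u → 0 ≤ w u)
    (B : ℤ → ℝ)
    (hB : ∀ (l : ℤ) (S' : Finset ℕ), S' ⊆ S → (∀ n ∈ S', (2 : ℝ) ^ l < y n) → ∑ n ∈ S', t n ≤ B l)
    (hsum : Summable fun l : ℤ => w ((2 : ℝ) ^ (l + 1)) * B l) :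
    ∑ n ∈ S, t n * w (y n) ≤ ∑' l : ℤ, w ((2 : ℝ) ^ (l + 1)) * B l := by
  classical
  have hB0 : ∀ l, 0 ≤ B l := fun l => by
    have h := hB l ∅ (Finset.empty_subset S) (fun n hn => absurd hn (Finset.notMem_empty n))
    rwa [Finset.sum_empty] at h
  have hterm : ∀ l : ℤ, 0 ≤ w ((2 : ℝ) ^ (l + 1)) * B l := fun l =>
    mul_nonneg (hw0 _ (zpow_pos (by norm_num) _)) (hB0 l)
  have hex : ∀ n, ∃ l : ℤ, n ∈ S → (2 : ℝ) ^ l < y n ∧ y n ≤ (2 : ℝ) ^ (l + 1) := by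
    intro n
    by_cases hn : n ∈ S
    · obtain ⟨l, hl⟩ := exists_mem_Ioc_zpow (hy n hn) (by norm_num : (1 : ℝ) < 2)
      exact ⟨l, fun _ => ⟨hl.1, hl.2⟩⟩
    · exact ⟨0, fun h => absurd h hn⟩
  choose l hl using hex
  have h1 : ∑ n ∈ S, t n * w (y n) ≤ ∑ n ∈ S, t n * w ((2 : ℝ) ^ (l n + 1)) := by
    refine Finset.sum_le_sum fun n hn => mul_le_mul_of_nonneg_left ?_ (ht n)
    exact hw _ _ (hy n hn) (hl n hn).2
  have h2 : ∑ n ∈ S, t n * w ((2 : ℝ) ^ (l n + 1))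
      = ∑ j ∈ S.image l, ∑ n ∈ S.filter (fun n => l n = j), t n * w ((2 : ℝ) ^ (l n + 1)) :=
    (Finset.sum_fiberwise_of_maps_to (fun n hn => Finset.mem_image_of_mem l hn) _).symm
  have h3 : ∀ j ∈ S.image l, ∑ n ∈ S.filter (fun n => l n = j), t n * w ((2 : ℝ) ^ (l n + 1))
      ≤ w ((2 : ℝ) ^ (j + 1)) * B j := by
    intro j _
    have e : ∑ n ∈ S.filter (fun n => l n = j), t n * w ((2 : ℝ) ^ (l n + 1))
        = w ((2 : ℝ) ^ (j + 1)) * ∑ n ∈ S.filter (fun n => l n = j), t n := by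
      rw [Finset.mul_sum]
      refine Finset.sum_congr rfl fun n hn => ?_
      rw [(Finset.mem_filter.1 hn).2, mul_comm]
    rw [e]
    refine mul_le_mul_of_nonneg_left (hB j _ (Finset.filter_subset _ _) ?_)
      (hw0 _ (zpow_pos (by norm_num) _))
    intro n hn
    have h := (hl n (Finset.mem_filter.1 hn).1).1
    rwa [(Finset.mem_filter.1 hn).2] at h
  calc ∑ n ∈ S, t n * w (y n) ≤ ∑ n ∈ S, t n * w ((2 : ℝ) ^ (l n + 1)) := h1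
    _ = ∑ j ∈ S.image l, ∑ n ∈ S.filter (fun n => l n = j), t n * w ((2 : ℝ) ^ (l n + 1)) := h2
    _ ≤ ∑ j ∈ S.image l, w ((2 : ℝ) ^ (j + 1)) * B j := Finset.sum_le_sum h3
    _ ≤ ∑' l : ℤ, w ((2 : ℝ) ^ (l + 1)) * B l :=
        hsum.sum_le_tsum _ (fun j _ => hterm j)

end Pool.Agent.LibIV39
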