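import Pool.Agent.LibIV39.Defs

/-! F5 (MEDIUM, only Mathlib): dominated convergence over the dyadic scales. PLAN. Put
`g x l = W D (2^(l+1)) * (√((1+2^l)/2^l) * exp (-(2^l/2 · Δ x (2^l))))`, `W D y = y e^{D y (1+y)}`.
With `L = 8 D + 16` (or larger) and `x ≥ xL`: `Δ x (2^l) ≥ L (2^l - 1)`, so
`g x l ≤ G l := W D (2^(l+1)) √((1+2^l)/2^l) exp (-(2^l/2 · L(2^l-1)))`, independent of `x`. `G` is
summable over `ℤ`: for `l = -j ≤ 0` (`u = 2^l ≤ 1`): `G ≤ C_D · u · u^{-1/2} = C_D (2^{-1/2})^j`; for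
`l = j ≥ 1` (`u = 2^j ≥ 2`): `W = 2u e^{2Du + 4Du²}`, `√.. ≤ 2`,
`exp (-(L/2)(u²-u)) ≤ exp (-(L/4) u²)`, total `≤ 4 u exp ((5D) u² - (2D+4) u² ..)`: take `L` large
enough, for example `L = 32 D + 32`; then `≤ 4 u e^{-4u²} ≤ e^{-u} ≤ 2^{-j}`-type bound.
(`Summable.of_nat_of_neg` or `summable_int_iff_summable_nat_and_neg`, geometric series.)
For each fixed `l`: `g x l → 0` as `x → ∞` by `hinf`. `tendsto_tsum_of_dominated_convergence`. -/

set_option autoImplicit false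

namespace Pool.Agent.LibIV39

open Filter Topology

private lemma F5_W_nonneg (D y : ℝ) (hy : 0 ≤ y) : 0 ≤ W D y := by
  unfold W
  exact mul_nonneg hy (Real.exp_nonneg _)

/-- bound for `u ≥ 1` -/
private lemma F5_big (D : ℝ) (hD : 0 ≤ D) (u : ℝ) (hu : 1 ≤ u) :
    W D (2 * u) * (Real.sqrt ((1 + u) / u) *
      Real.exp (-(u / 2 * ((24 * D + 8) * (u - 1))))) ≤
      4 * Real.exp ((24 * D + 8) / 4) * (1 / u) := by
  have hu0 : 0 < u := by linarith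
  have h1 : Real.sqrt ((1 + u) / u) ≤ 2 := by
    rw [Real.sqrt_le_left (by norm_num)]
    rw [div_le_iff₀ hu0]
    nlinarith
  have h2 : W D (2 * u) ≤ 2 * u * Real.exp (6 * D * u ^ 2) := by
    unfold W
    apply mul_le_mul_of_nonneg_left _ (by linarith)
    apply Real.exp_le_exp.2
    have : 0 ≤ D * (u * (u - 1)) := mul_nonneg hD (mul_nonneg hu0.le (by linarith))
    nlinarith
  have h3 : Real.exp (-(u / 2 * ((24 * D + 8) * (u - 1)))) ≤
      Real.exp ((24 * D + 8) / 4 - (24 * D + 8) / 4 * u ^ 2) := by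
    apply Real.exp_le_exp.2
    have : 0 ≤ (24 * D + 8) * (u - 1) ^ 2 := mul_nonneg (by linarith) (sq_nonneg _)
    nlinarith
  have h4 : u ≤ Real.exp u := by
    have := Real.add_one_le_exp u
    linarith
  have h5 : Real.exp (-u) ≤ 1 / u := by
    rw [Real.exp_neg, ← one_div]
    exact one_div_le_one_div_of_le hu0 h4
  calc W D (2 * u) * (Real.sqrt ((1 + u) / u) *
      Real.exp (-(u / 2 * ((24 * D + 8) * (u - 1)))))
      ≤ (2 * u * Real.exp (6 * D * u ^ 2)) * (2 *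
        Real.exp ((24 * D + 8) / 4 - (24 * D + 8) / 4 * u ^ 2)) := by
        apply mul_le_mul h2 _ (mul_nonneg (Real.sqrt_nonneg _) (Real.exp_nonneg _))
          (mul_nonneg (by linarith) (Real.exp_nonneg _))
        exact mul_le_mul h1 h3 (Real.exp_nonneg _) (by norm_num)
    _ = 4 * Real.exp ((24 * D + 8) / 4) * (u * Real.exp (-(2 * u ^ 2))) := by
        have e1 : Real.exp (6 * D * u ^ 2) *
            Real.exp ((24 * D + 8) / 4 - (24 * D + 8) / 4 * u ^ 2) =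
            Real.exp ((24 * D + 8) / 4) * Real.exp (-(2 * u ^ 2)) := by
          rw [← Real.exp_add, ← Real.exp_add]
          congr 1
          ring
        calc (2 * u * Real.exp (6 * D * u ^ 2)) * (2 *
            Real.exp ((24 * D + 8) / 4 - (24 * D + 8) / 4 * u ^ 2))
            = 4 * u * (Real.exp (6 * D * u ^ 2) *
              Real.exp ((24 * D + 8) / 4 - (24 * D + 8) / 4 * u ^ 2)) := by ring
          _ = 4 * u * (Real.exp ((24 * D + 8) / 4) * Real.exp (-(2 * u ^ 2))) := by rw [e1]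
          _ = _ := by ring
    _ ≤ 4 * Real.exp ((24 * D + 8) / 4) * (1 / u) := by
        apply mul_le_mul_of_nonneg_left _ (by positivity)
        calc u * Real.exp (-(2 * u ^ 2)) ≤ Real.exp u * Real.exp (-(2 * u ^ 2)) :=
              mul_le_mul_of_nonneg_right h4 (Real.exp_nonneg _)
          _ = Real.exp (u - 2 * u ^ 2) := by
              rw [← Real.exp_add]
              congr 1
          _ ≤ Real.exp (-u) := by
              apply Real.exp_le_exp.2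
              nlinarith
          _ ≤ 1 / u := h5

/-- bound for `u = r ^ 2 ≤ 1` -/
private lemma F5_small (D : ℝ) (hD : 0 ≤ D) (r : ℝ) (hr : 0 < r) (hr1 : r ≤ 1) :
    W D (2 * r ^ 2) * (Real.sqrt ((1 + r ^ 2) / r ^ 2) *
      Real.exp (-(r ^ 2 / 2 * ((24 * D + 8) * (r ^ 2 - 1))))) ≤
      4 * Real.exp (6 * D) * Real.exp (24 * D + 8) * r := by
  have hr2 : 0 < r ^ 2 := by positivity
  have hr3 : r ^ 2 ≤ 1 := by nlinarith
  have h1 : Real.sqrt ((1 + r ^ 2) / r ^ 2) ≤ 2 / r := by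
    rw [Real.sqrt_le_left (by positivity)]
    rw [div_pow, div_le_div_iff_of_pos_right hr2]
    nlinarith
  have h2 : W D (2 * r ^ 2) ≤ 2 * r ^ 2 * Real.exp (6 * D) := by
    unfold W
    apply mul_le_mul_of_nonneg_left _ (by positivity)
    apply Real.exp_le_exp.2
    have h : r ^ 2 * (1 + 2 * r ^ 2) ≤ 3 := by nlinarith
    have := mul_le_mul_of_nonneg_left h hD
    nlinarith
  have h3 : Real.exp (-(r ^ 2 / 2 * ((24 * D + 8) * (r ^ 2 - 1)))) ≤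
      Real.exp (24 * D + 8) := by
    apply Real.exp_le_exp.2
    have h : r ^ 2 * (1 - r ^ 2) ≤ 1 := by nlinarith
    have h' : 0 ≤ 24 * D + 8 := by linarith
    have := mul_le_mul_of_nonneg_left h h'
    nlinarith
  calc W D (2 * r ^ 2) * (Real.sqrt ((1 + r ^ 2) / r ^ 2) *
      Real.exp (-(r ^ 2 / 2 * ((24 * D + 8) * (r ^ 2 - 1)))))
      ≤ (2 * r ^ 2 * Real.exp (6 * D)) * ((2 / r) * Real.exp (24 * D + 8)) := by
        apply mul_le_mul h2 _ (mul_nonneg (Real.sqrt_nonneg _) (Real.exp_nonneg _))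
          (mul_nonneg (by positivity) (Real.exp_nonneg _))
        exact mul_le_mul h1 h3 (Real.exp_nonneg _) (by positivity)
    _ = 4 * Real.exp (6 * D) * Real.exp (24 * D + 8) * r := by
        field_simp
        ring

private lemma F5_sum (D : ℝ) (hD : 0 ≤ D) :
    Summable fun l : ℤ => W D ((2 : ℝ) ^ (l + 1)) * (Real.sqrt ((1 + (2 : ℝ) ^ l) / (2 : ℝ) ^ l) *
        Real.exp (-((2 : ℝ) ^ l / 2 * ((24 * D + 8) * ((2 : ℝ) ^ l - 1))))) := by
  have hnn : ∀ l : ℤ, 0 ≤ W D ((2 : ℝ) ^ (l + 1)) *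
      (Real.sqrt ((1 + (2 : ℝ) ^ l) / (2 : ℝ) ^ l) *
        Real.exp (-((2 : ℝ) ^ l / 2 * ((24 * D + 8) * ((2 : ℝ) ^ l - 1))))) := fun l =>
    mul_nonneg (F5_W_nonneg D _ (by positivity))
      (mul_nonneg (Real.sqrt_nonneg _) (Real.exp_nonneg _))
  have hpow : ∀ l : ℤ, (2 : ℝ) ^ (l + 1) = 2 * (2 : ℝ) ^ l := fun l => by
    rw [zpow_add_one₀ (by norm_num : (2 : ℝ) ≠ 0)]
    ring
  apply Summable.of_nat_of_neg
  · apply Summable.of_nonneg_of_le (fun n => hnn n) (g := fun n : ℕ =>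
      W D ((2 : ℝ) ^ ((n : ℤ) + 1)) * (Real.sqrt ((1 + (2 : ℝ) ^ (n : ℤ)) / (2 : ℝ) ^ (n : ℤ)) *
        Real.exp (-((2 : ℝ) ^ (n : ℤ) / 2 * ((24 * D + 8) * ((2 : ℝ) ^ (n : ℤ) - 1))))))
      (f := fun n : ℕ => 4 * Real.exp ((24 * D + 8) / 4) * (1 / 2 : ℝ) ^ n)
    · intro n
      rw [hpow, zpow_natCast]
      have h := F5_big D hD ((2 : ℝ) ^ n) (one_le_pow₀ (by norm_num))
      have e : (1 / 2 : ℝ) ^ n = 1 / (2 : ℝ) ^ n := by
        rw [div_pow, one_pow]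
      rw [e]
      exact h
    · exact (summable_geometric_of_lt_one (by norm_num) (by norm_num)).mul_left _
  · have hs : 0 < Real.sqrt (1 / 2) := Real.sqrt_pos.2 (by norm_num)
    have hs2 : Real.sqrt (1 / 2) ^ 2 = 1 / 2 := Real.sq_sqrt (by norm_num)
    have hs1 : Real.sqrt (1 / 2) < 1 := by nlinarith
    apply Summable.of_nonneg_of_le (fun n => hnn (-(n : ℤ))) (g := fun n : ℕ =>
      W D ((2 : ℝ) ^ (-(n : ℤ) + 1)) *
        (Real.sqrt ((1 + (2 : ℝ) ^ (-(n : ℤ))) / (2 : ℝ) ^ (-(n : ℤ))) *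
        Real.exp (-((2 : ℝ) ^ (-(n : ℤ)) / 2 * ((24 * D + 8) * ((2 : ℝ) ^ (-(n : ℤ)) - 1))))))
      (f := fun n : ℕ => 4 * Real.exp (6 * D) * Real.exp (24 * D + 8) * Real.sqrt (1 / 2) ^ n)
    · intro n
      have e : (2 : ℝ) ^ (-(n : ℤ)) = (Real.sqrt (1 / 2) ^ n) ^ 2 := by
        rw [zpow_neg, zpow_natCast, ← pow_mul, mul_comm n 2, pow_mul, hs2, ← inv_pow]
        norm_num
      rw [hpow, e]
      exact F5_small D hD _ (pow_pos hs n) (pow_le_one₀ hs.le hs1.le)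
    · exact (summable_geometric_of_lt_one hs.le hs1).mul_left _

theorem F5 (D : ℝ) (hD : 0 ≤ D) (Δ : ℝ → ℝ → ℝ)
    (hinf : ∀ y : ℝ, 0 < y → Tendsto (fun x => Δ x y) atTop atTop)
    (hL : ∀ L : ℝ, 0 ≤ L → ∃ xL : ℝ, ∀ x, xL ≤ x → ∀ y, 0 < y → L * (y - 1) ≤ Δ x y)
    (ε : ℝ) (hε : 0 < ε) :
    ∃ x1 : ℝ, ∀ x, x1 ≤ x →
      (Summable fun l : ℤ => W D ((2 : ℝ) ^ (l + 1)) * (Real.sqrt ((1 + (2 : ℝ) ^ l) / (2 : ℝ) ^ l) *
        Real.exp (-((2 : ℝ) ^ l / 2 * Δ x ((2 : ℝ) ^ l))))) ∧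
      ∑' l : ℤ, W D ((2 : ℝ) ^ (l + 1)) * (Real.sqrt ((1 + (2 : ℝ) ^ l) / (2 : ℝ) ^ l) *
        Real.exp (-((2 : ℝ) ^ l / 2 * Δ x ((2 : ℝ) ^ l)))) ≤ ε := by
  obtain ⟨xL, hxL⟩ := hL (24 * D + 8) (by linarith)
  have hG := F5_sum D hD
  have hnn : ∀ (x : ℝ) (l : ℤ), 0 ≤ W D ((2 : ℝ) ^ (l + 1)) *
      (Real.sqrt ((1 + (2 : ℝ) ^ l) / (2 : ℝ) ^ l) *
        Real.exp (-((2 : ℝ) ^ l / 2 * Δ x ((2 : ℝ) ^ l)))) := fun x l =>
    mul_nonneg (F5_W_nonneg D _ (by positivity))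
      (mul_nonneg (Real.sqrt_nonneg _) (Real.exp_nonneg _))
  have hle : ∀ x, xL ≤ x → ∀ l : ℤ, W D ((2 : ℝ) ^ (l + 1)) *
      (Real.sqrt ((1 + (2 : ℝ) ^ l) / (2 : ℝ) ^ l) *
        Real.exp (-((2 : ℝ) ^ l / 2 * Δ x ((2 : ℝ) ^ l)))) ≤
      W D ((2 : ℝ) ^ (l + 1)) * (Real.sqrt ((1 + (2 : ℝ) ^ l) / (2 : ℝ) ^ l) *
        Real.exp (-((2 : ℝ) ^ l / 2 * ((24 * D + 8) * ((2 : ℝ) ^ l - 1))))) := by
    intro x hx l
    have hu : 0 < (2 : ℝ) ^ l := by positivity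
    apply mul_le_mul_of_nonneg_left _ (F5_W_nonneg D _ (by positivity))
    apply mul_le_mul_of_nonneg_left _ (Real.sqrt_nonneg _)
    apply Real.exp_le_exp.2
    have h := hxL x hx _ hu
    have := mul_le_mul_of_nonneg_left h (by positivity : 0 ≤ (2 : ℝ) ^ l / 2)
    linarith
  have hT : Tendsto (fun x => ∑' l : ℤ, W D ((2 : ℝ) ^ (l + 1)) *
      (Real.sqrt ((1 + (2 : ℝ) ^ l) / (2 : ℝ) ^ l) *
        Real.exp (-((2 : ℝ) ^ l / 2 * Δ x ((2 : ℝ) ^ l))))) atTop (𝓝 (∑' _ : ℤ, (0 : ℝ))) := by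
    apply tendsto_tsum_of_dominated_convergence hG
    · intro l
      have hu : 0 < (2 : ℝ) ^ l := by positivity
      have h1 : Tendsto (fun x => -((2 : ℝ) ^ l / 2 * Δ x ((2 : ℝ) ^ l))) atTop atBot := by
        apply tendsto_neg_atTop_atBot.comp
        exact (hinf _ hu).const_mul_atTop (by positivity)
      have h2 := (Real.tendsto_exp_atBot.comp h1).const_mul
        (Real.sqrt ((1 + (2 : ℝ) ^ l) / (2 : ℝ) ^ l))
      have h3 := h2.const_mul (W D ((2 : ℝ) ^ (l + 1)))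
      simpa using h3
    · filter_upwards [eventually_ge_atTop xL] with x hx l
      rw [Real.norm_eq_abs, abs_of_nonneg (hnn x l)]
      exact hle x hx l
  rw [tsum_zero] at hT
  obtain ⟨x2, hx2⟩ := (eventually_atTop.1 (hT.eventually (gt_mem_nhds hε)))
  refine ⟨max xL x2, fun x hx => ⟨?_, ?_⟩⟩
  · exact Summable.of_nonneg_of_le (hnn x) (hle x (le_trans (le_max_left _ _) hx)) hG
  · exact (hx2 x (le_trans (le_max_right _ _) hx)).le

end Pool.Agent.LibIV39
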