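import Pool.Agent.LibIV39.Defs
import Pool.Agent.LibIV39.F1
import Pool.Agent.LibIV39.F3
import Pool.Agent.LibIV39.F4
import Pool.Agent.LibIV39.F5

/-! F6 (MEDIUM; uses `F1`, `F3`, `F4`, `F5`): fade on the right. PLAN. `F5` with
`Δ x y = ν (x+y) - ν (x+y/2)` (real): `hinf` from `SD` (with `η = y/2`, and `x ↦ x + y/2`), `hL` from
`F3`; `ε' = ε/(K+1)`. For large `x` apply `F4` to `t n = T a n x`, `y n = X n - x`, `w = W D`,
`B l = K * mu a ν x * (√((1+2^l)/2^l) * exp (-(2^l/2 Δ x (2^l))))` (`hB` from `F1` with `y = 2^l`);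
`W D` is monotone and `≥ 0` on `u > 0`. Then `∑ ≤ K mu ε' ≤ ε mu`. -/

set_option autoImplicit false

namespace Pool.Agent.LibIV39

open Filter Topology

private theorem F6_W_nonneg (D u : ℝ) (hu : 0 < u) : 0 ≤ W D u :=
  mul_nonneg hu.le (Real.exp_pos _).le

private theorem F6_W_mono (D : ℝ) (hD : 0 ≤ D) (u v : ℝ) (hu : 0 < u) (huv : u ≤ v) :
    W D u ≤ W D v := by
  unfold W
  refine mul_le_mul huv (Real.exp_le_exp.2 ?_) (Real.exp_pos _).le (hu.le.trans huv)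
  have h1 : D * u ≤ D * v := mul_le_mul_of_nonneg_left huv hD
  have h2 : 0 ≤ D * u := mul_nonneg hD hu.le
  exact mul_le_mul h1 (by linarith) (by linarith) (h2.trans h1)

theorem F6 (a : ℕ → ℂ) (ν : ℝ → ℕ) (X : ℕ → ℝ) (h : NuX a ν X) (hSD : SD ν) (K x0 : ℝ)
    (hK : 0 ≤ K) (hP : PV a ν K x0) (D : ℝ) (hD : 0 ≤ D) (ε : ℝ) (hε : 0 < ε) :
    ∃ x1 : ℝ, ∀ x, x1 ≤ x → ∀ S : Finset ℕ, (∀ n ∈ S, x < X n) →
      ∑ n ∈ S, T a n x * W D (X n - x) ≤ ε * mu a ν x := by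
  have hinf : ∀ y : ℝ, 0 < y →
      Tendsto (fun x => (fun x y : ℝ => (ν (x + y) : ℝ) - ν (x + y / 2)) x y) atTop atTop := by
    intro y hy
    rw [tendsto_atTop]
    intro b
    obtain ⟨x2, hx2⟩ := hSD (y / 2) (by linarith) ⌈b⌉₊
    filter_upwards [eventually_ge_atTop x2] with x hx
    have h1 := hx2 (x + y / 2) (by linarith)
    have h2 : x + y / 2 + y / 2 = x + y := by ring
    rw [h2] at h1
    have h3 : (ν (x + y / 2) : ℝ) + (⌈b⌉₊ : ℝ) ≤ ν (x + y) := by exact_mod_cast h1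
    have h4 : b ≤ (⌈b⌉₊ : ℝ) := Nat.le_ceil b
    show b ≤ (ν (x + y) : ℝ) - ν (x + y / 2)
    linarith
  have hL : ∀ L : ℝ, 0 ≤ L → ∃ xL : ℝ, ∀ x, xL ≤ x → ∀ y, 0 < y →
      L * (y - 1) ≤ (fun x y : ℝ => (ν (x + y) : ℝ) - ν (x + y / 2)) x y := by
    intro L hL0
    obtain ⟨xL, hxL⟩ := F3 ν h.mono hSD L hL0
    exact ⟨xL, fun x hx y hy => (hxL x hx y hy).1⟩
  obtain ⟨x1, hx1⟩ := F5 D hD (fun x y : ℝ => (ν (x + y) : ℝ) - ν (x + y / 2)) hinf hL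
    (ε / (K + 1)) (div_pos hε (by linarith))
  refine ⟨max (max x1 x0) 0, fun x hx S hS => ?_⟩
  have hxa : x1 ≤ x := (le_max_left _ _).trans ((le_max_left _ _).trans hx)
  have hxb : x0 ≤ x := (le_max_right _ _).trans ((le_max_left _ _).trans hx)
  have hxc : 0 ≤ x := (le_max_right _ _).trans hx
  obtain ⟨hs, hle⟩ := hx1 x hxa
  have hmu : 0 < mu a ν x := h.pos x
  have hcongr : (fun l : ℤ => W D ((2 : ℝ) ^ (l + 1)) * (K * mu a ν x *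
      (Real.sqrt ((1 + (2 : ℝ) ^ l) / (2 : ℝ) ^ l) *
        Real.exp (-((2 : ℝ) ^ l / 2 * ((ν (x + (2 : ℝ) ^ l) : ℝ) - ν (x + (2 : ℝ) ^ l / 2))))))) =
      fun l : ℤ => (K * mu a ν x) * (W D ((2 : ℝ) ^ (l + 1)) *
      (Real.sqrt ((1 + (2 : ℝ) ^ l) / (2 : ℝ) ^ l) *
        Real.exp (-((2 : ℝ) ^ l / 2 * ((ν (x + (2 : ℝ) ^ l) : ℝ) - ν (x + (2 : ℝ) ^ l / 2)))))) := by
    funext l
    ring
  have hsum : Summable (fun l : ℤ => W D ((2 : ℝ) ^ (l + 1)) * (K * mu a ν x *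
      (Real.sqrt ((1 + (2 : ℝ) ^ l) / (2 : ℝ) ^ l) *
        Real.exp (-((2 : ℝ) ^ l / 2 * ((ν (x + (2 : ℝ) ^ l) : ℝ) - ν (x + (2 : ℝ) ^ l / 2))))))) := by
    rw [hcongr]
    exact hs.mul_left _
  have h4 := F4 S (fun n => T a n x) (fun n => X n - x)
    (fun n => mul_nonneg (norm_nonneg _) (Real.exp_pos _).le)
    (fun n hn => sub_pos.2 (hS n hn)) (W D) (F6_W_mono D hD) (F6_W_nonneg D)
    (fun l : ℤ => K * mu a ν x *
      (Real.sqrt ((1 + (2 : ℝ) ^ l) / (2 : ℝ) ^ l) *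
        Real.exp (-((2 : ℝ) ^ l / 2 * ((ν (x + (2 : ℝ) ^ l) : ℝ) - ν (x + (2 : ℝ) ^ l / 2))))))
    (fun l S' _ hn => F1 a ν X h K x0 hK hP x ((2 : ℝ) ^ l) hxb hxc (zpow_pos (by norm_num) l) S'
      (fun n hn' => by
        have := hn n hn'
        linarith)) hsum
  refine h4.trans ?_
  rw [hcongr, tsum_mul_left]
  have h5 : K * mu a ν x * ∑' l : ℤ, W D ((2 : ℝ) ^ (l + 1)) *
      (Real.sqrt ((1 + (2 : ℝ) ^ l) / (2 : ℝ) ^ l) *
        Real.exp (-((2 : ℝ) ^ l / 2 * ((ν (x + (2 : ℝ) ^ l) : ℝ) - ν (x + (2 : ℝ) ^ l / 2))))) ≤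
      K * mu a ν x * (ε / (K + 1)) :=
    mul_le_mul_of_nonneg_left hle (mul_nonneg hK hmu.le)
  refine h5.trans ?_
  have h6 : K * mu a ν x * (ε / (K + 1)) = (K / (K + 1)) * (ε * mu a ν x) := by ring
  rw [h6]
  have h7 : K / (K + 1) ≤ 1 := by
    rw [div_le_one (by linarith)]
    linarith
  exact mul_le_of_le_one_left (mul_pos hε hmu).le h7

end Pool.Agent.LibIV39
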