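import Pool.Agent.LibIV39.Defs
import Pool.Agent.LibIV39.F2
import Pool.Agent.LibIV39.F3
import Pool.Agent.LibIV39.F4
import Pool.Agent.LibIV39.F5

/-! F7 (MEDIUM; uses `F2`, `F3`, `F4`, `F5`): fade on the left. PLAN. `F5` with
`Δ x y = if y ≤ x then ν (x-y/2) - ν (x-y) else x * y` (real): `hinf` from `SD` (with `η = y/2`, and
`x ↦ x - y`; eventually `y ≤ x`), `hL` from `F3` (for `y > x ≥ L`: `L (y-1) ≤ L y ≤ x y`);
`ε' = ε/(K+1)`. For large `x` (`≥ 2 x0`, `≥ 0`) apply `F4` to `t n = T a n x`, `y n = x - X n`,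
`w = W D`, `B l = K * mu a ν x * (√((1+2^l)/2^l) * exp (-(2^l/2 Δ x (2^l))))`: `hB` from `F2` with
`y = 2^l` if `2^l ≤ x`; if `2^l > x` then `S' = ∅` because `x - X n > 2^l > x` contradicts `X n ≥ 0`,
and `B l ≥ 0`. Then `∑ ≤ K mu ε' ≤ ε mu`. -/

set_option autoImplicit false

namespace Pool.Agent.LibIV39

open Filter Topology

private lemma F7_hinf (ν : ℝ → ℕ) (hSD : SD ν) (y : ℝ) (hy : 0 < y) :
    Tendsto (fun x : ℝ => if y ≤ x then (ν (x - y / 2) : ℝ) - ν (x - y) else x * y)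
      atTop atTop := by
  rw [tendsto_atTop]
  intro b
  obtain ⟨ξ, hξ⟩ := hSD (y / 2) (by linarith) ⌈b⌉₊
  filter_upwards [eventually_ge_atTop (ξ + y), eventually_ge_atTop y] with x hx1 hx2
  rw [if_pos hx2]
  have h1 := hξ (x - y) (by linarith)
  have h2 : x - y + y / 2 = x - y / 2 := by ring
  rw [h2] at h1
  have h3 : ((ν (x - y) + ⌈b⌉₊ : ℕ) : ℝ) ≤ (ν (x - y / 2) : ℝ) := by exact_mod_cast h1
  push_cast at h3
  have h4 : b ≤ (⌈b⌉₊ : ℝ) := Nat.le_ceil b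
  linarith

private lemma F7_hL (ν : ℝ → ℕ) (hm : Monotone ν) (hSD : SD ν) (L : ℝ) (hL : 0 ≤ L) :
    ∃ xL : ℝ, ∀ x, xL ≤ x → ∀ y, 0 < y →
      L * (y - 1) ≤ if y ≤ x then (ν (x - y / 2) : ℝ) - ν (x - y) else x * y := by
  obtain ⟨xL, h⟩ := F3 ν hm hSD L hL
  refine ⟨max xL L, fun x hx y hy => ?_⟩
  have hx1 : xL ≤ x := le_trans (le_max_left _ _) hx
  have hx2 : L ≤ x := le_trans (le_max_right _ _) hx
  by_cases hyx : y ≤ x
  · rw [if_pos hyx]
    exact (h x hx1 y hy).2 hyx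
  · rw [if_neg hyx]
    have h1 : L * y ≤ x * y := mul_le_mul_of_nonneg_right hx2 hy.le
    nlinarith

private lemma F7_W_mono (D : ℝ) (hD : 0 ≤ D) (u v : ℝ) (hu : 0 < u) (huv : u ≤ v) :
    W D u ≤ W D v := by
  unfold W
  have hv : 0 < v := lt_of_lt_of_le hu huv
  apply mul_le_mul huv _ (Real.exp_pos _).le hv.le
  apply Real.exp_le_exp.mpr
  have h1 : D * u ≤ D * v := mul_le_mul_of_nonneg_left huv hD
  have h2 : 0 ≤ D * u := mul_nonneg hD hu.le
  exact mul_le_mul h1 (by linarith) (by linarith) (by linarith)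

theorem F7 (a : ℕ → ℂ) (ν : ℝ → ℕ) (X : ℕ → ℝ) (h : NuX a ν X) (hSD : SD ν) (K x0 : ℝ)
    (hK : 0 ≤ K) (hP : PV a ν K x0) (D : ℝ) (hD : 0 ≤ D) (ε : ℝ) (hε : 0 < ε) :
    ∃ x1 : ℝ, ∀ x, x1 ≤ x → ∀ S : Finset ℕ, (∀ n ∈ S, X n < x) →
      ∑ n ∈ S, T a n x * W D (x - X n) ≤ ε * mu a ν x := by
  have hK1 : 0 < K + 1 := by linarith
  obtain ⟨x1, hx1⟩ := F5 D hD
    (fun x y => if y ≤ x then (ν (x - y / 2) : ℝ) - ν (x - y) else x * y)
    (fun y hy => F7_hinf ν hSD y hy) (fun L hL => F7_hL ν h.mono hSD L hL)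
    (ε / (K + 1)) (div_pos hε hK1)
  refine ⟨max x1 (2 * x0), fun x hx S hS => ?_⟩
  have hxa : x1 ≤ x := le_trans (le_max_left _ _) hx
  have hxb : 2 * x0 ≤ x := le_trans (le_max_right _ _) hx
  obtain ⟨hsum, hle⟩ := hx1 x hxa
  have hmu : 0 < mu a ν x := h.pos x
  set g : ℤ → ℝ := fun l : ℤ => Real.sqrt ((1 + (2 : ℝ) ^ l) / (2 : ℝ) ^ l) *
        Real.exp (-((2 : ℝ) ^ l / 2 * (if (2 : ℝ) ^ l ≤ x then
          (ν (x - (2 : ℝ) ^ l / 2) : ℝ) - ν (x - (2 : ℝ) ^ l) else x * (2 : ℝ) ^ l))) with hg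
  have hg0 : ∀ l, 0 ≤ g l := fun l => mul_nonneg (Real.sqrt_nonneg _) (Real.exp_pos _).le
  have hsum' : Summable fun l : ℤ => W D ((2 : ℝ) ^ (l + 1)) * g l := hsum
  have hle' : ∑' l : ℤ, W D ((2 : ℝ) ^ (l + 1)) * g l ≤ ε / (K + 1) := hle
  have hre : ∀ l : ℤ, W D ((2 : ℝ) ^ (l + 1)) * (K * mu a ν x * g l) =
      (K * mu a ν x) * (W D ((2 : ℝ) ^ (l + 1)) * g l) := fun l => by ring
  have hF4 := F4 S (fun n => T a n x) (fun n => x - X n)
    (fun n => mul_nonneg (norm_nonneg _) (Real.exp_pos _).le)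
    (fun n hn => by have := hS n hn; simpa using this) (W D) (F7_W_mono D hD)
    (fun u hu => mul_nonneg hu.le (Real.exp_pos _).le)
    (fun l => K * mu a ν x * g l)
    (by
      intro l S' hS' hl
      have h2 : (0 : ℝ) < (2 : ℝ) ^ l := zpow_pos (by norm_num) l
      by_cases hlx : (2 : ℝ) ^ l ≤ x
      · have h3 := F2 a ν X h K x0 hK hP x ((2 : ℝ) ^ l) hxb h2 hlx S'
          (fun n hn => by have := hl n hn; linarith)
        have h4 : g l = Real.sqrt ((1 + (2 : ℝ) ^ l) / (2 : ℝ) ^ l) *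
            Real.exp (-((2 : ℝ) ^ l / 2 *
              ((ν (x - (2 : ℝ) ^ l / 2) : ℝ) - ν (x - (2 : ℝ) ^ l)))) := by
          simp only [hg]
          rw [if_pos hlx]
        rw [h4]
        exact h3
      · have h5 : S' = ∅ := by
          rw [Finset.eq_empty_iff_forall_notMem]
          intro n hn
          have h6 := hl n hn
          have h7 := h.X0 n
          push Not at hlx
          linarith
        rw [h5, Finset.sum_empty]
        exact mul_nonneg (mul_nonneg hK hmu.le) (hg0 l))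
    (by
      simp_rw [hre]
      exact hsum'.mul_left _)
  calc ∑ n ∈ S, T a n x * W D (x - X n)
      ≤ ∑' l : ℤ, W D ((2 : ℝ) ^ (l + 1)) * (K * mu a ν x * g l) := hF4
    _ = (K * mu a ν x) * ∑' l : ℤ, W D ((2 : ℝ) ^ (l + 1)) * g l := by
        simp_rw [hre]
        exact tsum_mul_left
    _ ≤ (K * mu a ν x) * (ε / (K + 1)) :=
        mul_le_mul_of_nonneg_left hle' (mul_nonneg hK hmu.le)
    _ ≤ ε * mu a ν x := by
        rw [mul_div_assoc', div_le_iff₀ hK1]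
        nlinarith [mul_pos hε hmu, mul_nonneg hK (mul_pos hε hmu).le]

end Pool.Agent.LibIV39
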