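import Pool.Agent.LibIV39.Defs
import Pool.Agent.LibIV39.F6
import Pool.Agent.LibIV39.F7

/-! F8 (SHORT; uses `F6`, `F7`). PLAN. `F6`, `F7` with `D+1` and
`ε/(6(D+1))`; split `S` into `x < X n`, `X n < x`, `X n = x` (there `W (D+1) 0 = 0`);
`|x - X n|` is `X n - x` resp. `x - X n`. -/

set_option autoImplicit false

namespace Pool.Agent.LibIV39

open Filter Topology

private theorem F8_T_nonneg (a : ℕ → ℂ) (n : ℕ) (x : ℝ) : 0 ≤ T a n x :=
  mul_nonneg (norm_nonneg _) (Real.exp_pos _).le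

private theorem F8_W_nonneg (D y : ℝ) (hy : 0 ≤ y) : 0 ≤ W D y :=
  mul_nonneg hy (Real.exp_pos _).le

private theorem F8_W_mono (D D' y : ℝ) (hy : 0 ≤ y) (h : D ≤ D') : W D y ≤ W D' y := by
  unfold W
  refine mul_le_mul_of_nonneg_left (Real.exp_le_exp.2 ?_) hy
  have h1 : D * y ≤ D' * y := mul_le_mul_of_nonneg_right h hy
  exact mul_le_mul_of_nonneg_right h1 (by linarith)

theorem F8 (a : ℕ → ℂ) (ν : ℝ → ℕ) (X : ℕ → ℝ) (h : NuX a ν X) (hSD : SD ν) (K x0 : ℝ)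
    (hK : 0 ≤ K) (hP : PV a ν K x0) (D : ℝ) (hD : 0 ≤ D) (ε : ℝ) (hε : 0 < ε) :
    ∃ x1 : ℝ, ∀ x, x1 ≤ x → FB a ν X D ε x := by
  have hD1 : 0 < D + 1 := by linarith
  have he : 0 < ε / (6 * (D + 1)) := by positivity
  obtain ⟨x1, h1⟩ := F6 a ν X h hSD K x0 hK hP (D + 1) hD1.le _ he
  obtain ⟨x2, h2⟩ := F7 a ν X h hSD K x0 hK hP (D + 1) hD1.le _ he
  refine ⟨max x1 x2, fun x hx S => ?_⟩
  have h3 := h1 x ((le_max_left _ _).trans hx) (S.filter fun n => x < X n)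
    (fun n hn => (Finset.mem_filter.1 hn).2)
  have h4 := h2 x ((le_max_right _ _).trans hx) (S.filter fun n => X n < x)
    (fun n hn => (Finset.mem_filter.1 hn).2)
  have h5 : ∑ n ∈ S, T a n x * W (D + 1) |x - X n| =
      ∑ n ∈ S.filter (fun n => x < X n), T a n x * W (D + 1) (X n - x) +
        ∑ n ∈ S.filter (fun n => X n < x), T a n x * W (D + 1) (x - X n) := by
    rw [Finset.sum_filter, Finset.sum_filter, ← Finset.sum_add_distrib]
    refine Finset.sum_congr rfl fun n _ => ?_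
    rcases lt_trichotomy x (X n) with h6 | h6 | h6
    · rw [if_pos h6, if_neg h6.not_gt, add_zero, abs_sub_comm, abs_of_pos (sub_pos.2 h6)]
    · rw [if_neg (by rw [← h6]; exact lt_irrefl x), if_neg (by rw [← h6]; exact lt_irrefl x),
        ← h6, sub_self, abs_zero]
      unfold W
      ring
    · rw [if_neg h6.not_gt, if_pos h6, zero_add, abs_of_pos (sub_pos.2 h6)]
  rw [h5]
  have h6 : 3 * (D + 1) * (ε / (6 * (D + 1)) * mu a ν x + ε / (6 * (D + 1)) * mu a ν x) =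
      ε * mu a ν x := by
    field_simp
    ring
  rw [← h6]
  exact mul_le_mul_of_nonneg_left (add_le_add h3 h4) (by linarith)

theorem F8b (a : ℕ → ℂ) (ν : ℝ → ℕ) (X : ℕ → ℝ) (h : NuX a ν X) (D D' ε x : ℝ) (hD : 0 ≤ D)
    (hDD : D ≤ D') (hF : FB a ν X D' ε x) : FB a ν X D ε x := by
  intro S
  refine le_trans ?_ (hF S)
  refine mul_le_mul (by linarith) ?_ ?_ (by linarith)
  · refine Finset.sum_le_sum fun n _ => ?_
    exact mul_le_mul_of_nonneg_left (F8_W_mono _ _ _ (abs_nonneg _) (by linarith))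
      (F8_T_nonneg a n x)
  · exact Finset.sum_nonneg fun n _ =>
      mul_nonneg (F8_T_nonneg a n x) (F8_W_nonneg _ _ (abs_nonneg _))

end Pool.Agent.LibIV39
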