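import Pool.Agent.LibIV39.Defs

/-! K2 (MEDIUM, only Mathlib): the values of the kernel. PLAN. `i` and `-i` together:
`PP t θ = 1 - (27t/(2π²)) S(θ)`, `S θ = ∑_{i ≥ 1, 3 ∤ i} cos(iθ)/i²` (sum over `ℤ` split into `0`,
positive, negative; `HasSum.of_nat_of_neg_add_one` or `tsum_of_nat_of_neg_add_one`, `Complex.exp` of
`± i θ I` gives `2 cos`). `θ = 2π x`; by periodicity (`S` is `2π`-periodic and even) it is enough to take
`x ∈ [0, 1/2]` (for the second statement directly `x ∈ [1/3, 2/3]`). `hasSum_one_div_nat_pow_mul_cos`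
with `k = 1`: `∑ cos(2π n x)/n² = π² (x² - x + 1/6)` on `[0,1]` (`Polynomial.bernoulli 2`). Multiples of `3`:
`∑_{3∣n} cos(2π n x)/n² = (1/9) ∑_m cos(2π m (3x))/m²` `= (π²/9) B(3x)` for `x ∈ [0,1/3]`,
`(π²/9) B(3x-1)` for `x ∈ [1/3,2/3]`, `B y = y²-y+1/6`. Hence `S = π² (4/27 - 2x/3)` on `[0,1/3]` and
`S = -2π²/27` on `[1/3,2/3]`. So `PP = 1 + t` on `[2π/3, 4π/3]` and on `[0,1/3]`
`PP = 1 - 2t + 9 t x ∈ [1-2t, 1+t]`, of absolute value `≤ 1+t`; on `[2/3,1]` by evenness
(`x ↦ 1-x`). -/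

set_option autoImplicit false

namespace Pool.Agent.LibIV39

open Filter Topology

private theorem hB (x : ℝ) (h0 : 0 ≤ x) (h1 : x ≤ 1) :
    HasSum (fun n : ℕ => 1 / (n : ℝ) ^ 2 * Real.cos (2 * Real.pi * n * x))
      (Real.pi ^ 2 * (x ^ 2 - x + 1 / 6)) := by
  have h := hasSum_one_div_nat_pow_mul_cos (k := 1) one_ne_zero (x := x) ⟨h0, h1⟩
  have h2 : (Polynomial.map (algebraMap ℚ ℝ) (Polynomial.bernoulli (2 * 1))).eval x =
      x ^ 2 - x + 1 / 6 := by
    simp_rw [Polynomial.bernoulli, Finset.sum_range_succ, Polynomial.map_add,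
      Polynomial.eval_add, Polynomial.map_monomial, Polynomial.eval_monomial]
    rw [Finset.sum_range_zero, Polynomial.map_zero, Polynomial.eval_zero, zero_add]
    simp only [mul_one]
    rw [bernoulli_one, bernoulli_eq_bernoulli'_of_ne_one zero_ne_one, bernoulli'_zero,
      bernoulli_eq_bernoulli'_of_ne_one (by decide : 2 ≠ 1), bernoulli'_two]
    norm_num [Nat.choose]
    ring
  rw [h2] at h
  have h3 : (-1 : ℝ) ^ (1 + 1) * (2 * Real.pi) ^ (2 * 1) / 2 / ((2 * 1).factorial : ℝ) =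
      Real.pi ^ 2 := by
    norm_num [Nat.factorial]
    ring
  rw [h3] at h
  simpa using h

private noncomputable def ff (θ : ℝ) (n : ℕ) : ℝ :=
  if 3 ∣ n then 0 else 1 / (n : ℝ) ^ 2 * Real.cos (n * θ)

private theorem hS (x y θ : ℝ) (h0 : 0 ≤ x) (h1 : x ≤ 1) (h2 : 0 ≤ y) (h3 : y ≤ 1)
    (hc : ∀ n : ℕ, Real.cos (n * θ) = Real.cos (2 * Real.pi * n * x))
    (hy : ∀ n : ℕ, Real.cos (2 * Real.pi * ((3 * n : ℕ) : ℝ) * x) = Real.cos (2 * Real.pi * n * y)) :
    HasSum (ff θ) (Real.pi ^ 2 * ((x ^ 2 - x + 1 / 6) - (y ^ 2 - y + 1 / 6) / 9)) := by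
  have hx := hB x h0 h1
  have hyy := (hB y h2 h3).mul_left (1 / 9 : ℝ)
  have hmul : HasSum (fun n : ℕ => if 3 ∣ n then 1 / (n : ℝ) ^ 2 *
      Real.cos (2 * Real.pi * n * x) else 0) ((1 / 9 : ℝ) * (Real.pi ^ 2 * (y ^ 2 - y + 1 / 6))) := by
    have hinj : Function.Injective (fun m : ℕ => 3 * m) := fun a b h => by
      simp only at h
      omega
    rw [← hinj.hasSum_iff]
    · have e : ((fun n : ℕ => if 3 ∣ n then 1 / (n : ℝ) ^ 2 *
          Real.cos (2 * Real.pi * n * x) else 0) ∘ fun m : ℕ => 3 * m) =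
          fun i : ℕ => 1 / 9 * (1 / (i : ℝ) ^ 2 * Real.cos (2 * Real.pi * i * y)) := by
        funext m
        simp only [Function.comp, dvd_mul_right, if_true]
        rw [hy m]
        push_cast
        by_cases hm : (m : ℝ) = 0
        · rw [hm]; simp
        · field_simp
          ring
      rw [e]
      exact hyy
    · intro n hn
      rw [if_neg]
      rintro ⟨k, hk⟩
      exact hn ⟨k, hk.symm⟩
  have hd := hx.sub hmul
  have e1 : ff θ = fun b : ℕ => 1 / (b : ℝ) ^ 2 * Real.cos (2 * Real.pi * b * x) -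
      if 3 ∣ b then 1 / (b : ℝ) ^ 2 * Real.cos (2 * Real.pi * b * x) else 0 := by
    funext n
    unfold ff
    rw [hc n]
    by_cases h : 3 ∣ n
    · simp [h]
    · simp [h]
  have e2 : Real.pi ^ 2 * ((x ^ 2 - x + 1 / 6) - (y ^ 2 - y + 1 / 6) / 9) =
      Real.pi ^ 2 * (x ^ 2 - x + 1 / 6) - 1 / 9 * (Real.pi ^ 2 * (y ^ 2 - y + 1 / 6)) := by ring
  rw [e1, e2]
  exact hd

private theorem cc_neg (t : ℝ) (i : ℤ) : cc t (-i) = cc t i := by
  unfold cc
  by_cases h : i = 0
  · simp [h]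
  · simp only [neg_eq_zero, h, if_false, dvd_neg]
    push_cast
    rw [neg_sq]

private theorem cc_bound (t : ℝ) (n : ℕ) : |cc t (n : ℤ)| ≤
    (if n = 0 then 1 else 0) + 27 * |t| / (4 * Real.pi ^ 2) * (1 / (n : ℝ) ^ 2) := by
  unfold cc
  by_cases h : n = 0
  · subst h; simp
  · have h' : ((n : ℤ)) ≠ 0 := by exact_mod_cast h
    simp only [h, h', if_false, zero_add]
    have hpos : 0 ≤ 27 * |t| / (4 * Real.pi ^ 2) * (1 / (n : ℝ) ^ 2) := by positivity
    split_ifs with h3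
    · simpa using hpos
    · rw [abs_div, abs_neg, abs_mul]
      have : |4 * Real.pi ^ 2 * (((n : ℤ)) : ℝ) ^ 2| = 4 * Real.pi ^ 2 * (n : ℝ) ^ 2 := by
        rw [abs_of_nonneg (by positivity)]
        push_cast; rfl
      rw [this, abs_of_pos (by norm_num : (0 : ℝ) < 27)]
      apply le_of_eq
      have hn : (n : ℝ) ≠ 0 := by exact_mod_cast h
      field_simp

private theorem summ (t θ : ℝ) :
    Summable (fun i : ℤ => (cc t i : ℂ) * Complex.exp (i * θ * Complex.I)) := by
  have hnorm : ∀ i : ℤ, ‖(cc t i : ℂ) * Complex.exp (i * θ * Complex.I)‖ = |cc t i| := by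
    intro i
    rw [norm_mul, Complex.norm_real]
    have : Complex.exp (i * θ * Complex.I) = Complex.exp (((i * θ : ℝ) : ℂ) * Complex.I) := by
      push_cast; rfl
    rw [this, Complex.norm_exp_ofReal_mul_I, mul_one]
    rfl
  have hs : Summable (fun n : ℕ => (if n = 0 then (1 : ℝ) else 0) +
      27 * |t| / (4 * Real.pi ^ 2) * (1 / (n : ℝ) ^ 2)) := by
    apply Summable.add
    · exact summable_of_hasFiniteSupport ((Set.finite_singleton 0).subset (by
        intro n hn
        by_contra h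
        apply hn
        have : n ≠ 0 := h
        simp [this]))
    · exact (Real.summable_one_div_nat_pow.2 (by norm_num)).mul_left _
  apply Summable.of_nat_of_neg
  · refine Summable.of_norm_bounded hs ?_
    intro n
    rw [hnorm]
    exact cc_bound t n
  · refine Summable.of_norm_bounded hs ?_
    intro n
    rw [hnorm, cc_neg]
    exact cc_bound t n

private theorem val (t θ S : ℝ) (h : HasSum (ff θ) S) :
    PP t θ = ((1 - 27 * t / (2 * Real.pi ^ 2) * S : ℝ) : ℂ) := by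
  have h1 := (summ t θ).hasSum.nat_add_neg
  have h2 : HasSum (fun n : ℕ => (if n = 0 then (2 : ℝ) else 0) -
      27 * t / (2 * Real.pi ^ 2) * ff θ n) (2 - 27 * t / (2 * Real.pi ^ 2) * S) := by
    apply HasSum.sub
    · convert hasSum_ite_eq (0 : ℕ) (2 : ℝ) using 1
    · exact h.mul_left _
  have h3 := Complex.hasSum_ofReal.2 h2
  have h4 : (fun n : ℕ => (cc t ((n : ℤ)) : ℂ) * Complex.exp (((n : ℤ) : ℂ) * θ * Complex.I) +
      (cc t (-(n : ℤ)) : ℂ) * Complex.exp (((-(n : ℤ) : ℤ) : ℂ) * θ * Complex.I)) =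
      (fun n : ℕ => (((if n = 0 then (2 : ℝ) else 0) -
      27 * t / (2 * Real.pi ^ 2) * ff θ n : ℝ) : ℂ)) := by
    ext n
    rw [cc_neg, ← mul_add]
    have he : Complex.exp (((n : ℤ) : ℂ) * θ * Complex.I) +
        Complex.exp (((-(n : ℤ) : ℤ) : ℂ) * θ * Complex.I) = ((2 * Real.cos (n * θ) : ℝ) : ℂ) := by
      push_cast
      rw [Complex.two_cos]
      congr 2
      ring
    rw [he, ← Complex.ofReal_mul]
    congr 1
    unfold cc ff
    by_cases hn : n = 0
    · subst hn; simp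
    · have h' : ((n : ℤ)) ≠ 0 := by exact_mod_cast hn
      simp only [hn, h', if_false]
      by_cases h3 : 3 ∣ n
      · have h3' : (3 : ℤ) ∣ (n : ℤ) := by exact_mod_cast h3
        simp [h3, h3']
      · have h3' : ¬ (3 : ℤ) ∣ (n : ℤ) := by
          intro hh
          apply h3
          exact_mod_cast hh
        simp only [h3, h3', if_false]
        have hn' : (n : ℝ) ≠ 0 := by exact_mod_cast hn
        have hpi : Real.pi ≠ 0 := Real.pi_ne_zero
        push_cast
        field_simp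
        ring
  have h5 : (cc t 0 : ℂ) * Complex.exp (((0 : ℤ) : ℂ) * θ * Complex.I) = 1 := by
    simp [cc]
  rw [h4] at h1
  have h6 := h1.unique h3
  rw [h5] at h6
  have h7 : PP t θ = ((2 - 27 * t / (2 * Real.pi ^ 2) * S : ℝ) : ℂ) - 1 := by
    rw [← h6]
    unfold PP
    ring
  rw [h7]
  push_cast
  ring

private theorem cos_aux (n : ℕ) (k : ℤ) (x : ℝ) :
    Real.cos (2 * Real.pi * n * (x + k)) = Real.cos (2 * Real.pi * n * x) := by
  have : 2 * Real.pi * n * (x + k) = 2 * Real.pi * n * x + ((n * k : ℤ) : ℝ) * (2 * Real.pi) := by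
    push_cast; ring
  rw [this, Real.cos_add_int_mul_two_pi]

/-- the values of the kernel on `[0, 1/3]` -/
private theorem v1 (t θ x : ℝ) (h0 : 0 ≤ x) (h1 : x ≤ 1 / 3)
    (hc : ∀ n : ℕ, Real.cos (n * θ) = Real.cos (2 * Real.pi * n * x)) :
    PP t θ = ((1 - 2 * t + 9 * t * x : ℝ) : ℂ) := by
  have h := hS x (3 * x) θ h0 (by linarith) (by linarith) (by linarith) hc (by
    intro n
    congr 1
    push_cast
    ring)
  rw [val t θ _ h]
  congr 1
  have hpi : Real.pi ≠ 0 := Real.pi_ne_zero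
  field_simp
  ring

/-- the values of the kernel on `[1/3, 2/3]` -/
private theorem v2 (t θ x : ℝ) (h0 : 1 / 3 ≤ x) (h1 : x ≤ 2 / 3)
    (hc : ∀ n : ℕ, Real.cos (n * θ) = Real.cos (2 * Real.pi * n * x)) :
    PP t θ = ((1 + t : ℝ) : ℂ) := by
  have h := hS x (3 * x - 1) θ (by linarith) (by linarith) (by linarith) (by linarith) hc (by
    intro n
    rw [← cos_aux n 1 (3 * x - 1)]
    congr 1
    push_cast
    ring)
  rw [val t θ _ h]
  congr 1
  have hpi : Real.pi ≠ 0 := Real.pi_ne_zero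
  field_simp
  ring

theorem K2 (t : ℝ) (ht0 : 0 ≤ t) (ht1 : t ≤ 1) :
    (∀ θ : ℝ, ‖PP t θ‖ ≤ 1 + t) ∧
      (∀ θ : ℝ, 2 * Real.pi / 3 ≤ θ → θ ≤ 4 * Real.pi / 3 → PP t θ = ((1 + t : ℝ) : ℂ)) := by
  have hpi : 0 < Real.pi := Real.pi_pos
  have key : ∀ θ x : ℝ, 0 ≤ x → x ≤ 1 / 3 →
      (∀ n : ℕ, Real.cos (n * θ) = Real.cos (2 * Real.pi * n * x)) → ‖PP t θ‖ ≤ 1 + t := by
    intro θ x h0 h1 hc
    rw [v1 t θ x h0 h1 hc, Complex.norm_real, Real.norm_eq_abs, abs_le]
    have h2 : 0 ≤ t * x := mul_nonneg ht0 h0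
    have h3 : t * x ≤ t * (1 / 3) := mul_le_mul_of_nonneg_left h1 ht0
    constructor <;> nlinarith
  constructor
  · intro θ
    have hx : ∀ n : ℕ, Real.cos (n * θ) =
        Real.cos (2 * Real.pi * n * Int.fract (θ / (2 * Real.pi))) := by
      intro n
      rw [← cos_aux n ⌊θ / (2 * Real.pi)⌋ (Int.fract (θ / (2 * Real.pi))), Int.fract_add_floor]
      congr 1
      field_simp
    set x := Int.fract (θ / (2 * Real.pi)) with hxd
    have h0 : 0 ≤ x := Int.fract_nonneg _
    have h1 : x < 1 := Int.fract_lt_one _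
    rcases le_total x (1 / 3) with h | h
    · exact key θ x h0 h hx
    · rcases le_total x (2 / 3) with h' | h'
      · rw [v2 t θ x h h' hx, Complex.norm_real, Real.norm_eq_abs, abs_of_nonneg (by linarith)]
      · apply key θ (1 - x) (by linarith) (by linarith)
        intro n
        rw [hx n]
        have h2 : Real.cos (2 * Real.pi * n * (1 - x)) = Real.cos (2 * Real.pi * n * (-x)) := by
          rw [← cos_aux n 1 (-x)]
          congr 1
          push_cast
          ring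
        rw [h2, ← Real.cos_neg]
        congr 1
        ring
  · intro θ h1 h2
    apply v2 t θ (θ / (2 * Real.pi))
    · rw [le_div_iff₀ (by positivity)]
      linarith
    · rw [div_le_iff₀ (by positivity)]
      linarith
    · intro n
      congr 1
      field_simp

end Pool.Agent.LibIV39
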