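import Pool.Agent.LibIV39.Defs
import Pool.Agent.LibIV39.K1

/-! K3 (SHORT; uses `K1`). PLAN. `‖PF t s θ - PP t θ‖ ≤ ∑' i, |cc t i| (1 - mm s i)`
(`0 ≤ mm ≤ 1`), which tends to `0` as `s → ∞` by dominated convergence
(`tendsto_tsum_of_dominated_convergence`, bound `|cc t i|`, `mm s i → 1`). -/

set_option autoImplicit false

namespace Pool.Agent.LibIV39

open Filter Topology

private lemma k3_mm_nonneg (s : ℝ) (i : ℤ) : 0 ≤ mm s i := le_max_left _ _

private lemma k3_mm_le_one (s : ℝ) (hs : 0 < s) (i : ℤ) : mm s i ≤ 1 := by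
  unfold mm
  apply max_le zero_le_one
  have : 0 ≤ |(i : ℝ)| / s := div_nonneg (abs_nonneg _) hs.le
  linarith

private lemma k3_mm_tendsto (i : ℤ) : Tendsto (fun s : ℝ => mm s i) atTop (𝓝 1) := by
  have h1 : Tendsto (fun s : ℝ => |(i : ℝ)| / s) atTop (𝓝 0) :=
    tendsto_const_nhds.div_atTop tendsto_id
  have h2 : Tendsto (fun s : ℝ => max (0 : ℝ) (1 - |(i : ℝ)| / s)) atTop (𝓝 (max 0 (1 - 0))) :=
    tendsto_const_nhds.max (tendsto_const_nhds.sub h1)
  have h3 : max (0 : ℝ) (1 - 0) = 1 := by norm_num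
  rw [h3] at h2
  exact h2

private lemma k3_norm_exp (i : ℤ) (θ : ℝ) : ‖Complex.exp (i * θ * Complex.I)‖ = 1 := by
  have h : ((i : ℂ) * (θ : ℂ) * Complex.I) = (((i : ℝ) * θ : ℝ) : ℂ) * Complex.I := by
    push_cast
    ring
  rw [h, Complex.norm_exp_ofReal_mul_I]

theorem K3 (t : ℝ) (ht0 : 0 ≤ t) (ht1 : t ≤ 1) (ε : ℝ) (hε : 0 < ε) :
    ∃ s0 : ℝ, ∀ s, s0 ≤ s → ∀ θ : ℝ, ‖PF t s θ - PP t θ‖ ≤ ε := by
  have hsum := (K1 t ht0 ht1).1
  -- the dominating sums tend to zero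
  have hlim : Tendsto (fun s : ℝ => ∑' i : ℤ, |cc t i| * (1 - mm s i)) atTop
      (𝓝 (∑' i : ℤ, |cc t i| * (1 - 1))) := by
    refine tendsto_tsum_of_dominated_convergence (bound := fun i : ℤ => |cc t i|) hsum ?_ ?_
    · intro i
      exact tendsto_const_nhds.mul (tendsto_const_nhds.sub (k3_mm_tendsto i))
    · filter_upwards [eventually_gt_atTop (0 : ℝ)] with s hs i
      have h0 := k3_mm_nonneg s i
      have h1 := k3_mm_le_one s hs i
      rw [Real.norm_eq_abs, abs_mul, abs_abs, abs_of_nonneg (by linarith : (0 : ℝ) ≤ 1 - mm s i)]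
      nlinarith [abs_nonneg (cc t i)]
  have hz : (∑' i : ℤ, |cc t i| * ((1 : ℝ) - 1)) = 0 := by simp
  rw [hz] at hlim
  have hev : ∀ᶠ s : ℝ in atTop, (∑' i : ℤ, |cc t i| * (1 - mm s i)) < ε :=
    hlim.eventually (gt_mem_nhds hε)
  obtain ⟨s1, hs1⟩ := eventually_atTop.1 (hev.and (eventually_gt_atTop (0 : ℝ)))
  refine ⟨s1, fun s hs θ => ?_⟩
  obtain ⟨hlt, hpos⟩ := hs1 s hs
  have hS1 : Summable fun i : ℤ =>
      (((cc t i * mm s i : ℝ) : ℂ) * Complex.exp (i * θ * Complex.I)) := by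
    refine Summable.of_norm_bounded (g := fun i : ℤ => |cc t i|) hsum ?_
    intro i
    rw [norm_mul, k3_norm_exp, mul_one, Complex.norm_real, Real.norm_eq_abs, abs_mul,
      abs_of_nonneg (k3_mm_nonneg s i)]
    have h1 := k3_mm_le_one s hpos i
    nlinarith [abs_nonneg (cc t i)]
  have hS2 : Summable fun i : ℤ => ((cc t i : ℂ) * Complex.exp (i * θ * Complex.I)) := by
    refine Summable.of_norm_bounded (g := fun i : ℤ => |cc t i|) hsum ?_
    intro i
    rw [norm_mul, k3_norm_exp, mul_one, Complex.norm_real, Real.norm_eq_abs]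
  have hS3 : Summable fun i : ℤ => |cc t i| * (1 - mm s i) := by
    refine Summable.of_nonneg_of_le (fun i => ?_) (fun i => ?_) hsum
    · exact mul_nonneg (abs_nonneg _) (by linarith [k3_mm_le_one s hpos i])
    · nlinarith [abs_nonneg (cc t i), k3_mm_nonneg s i]
  have heq : PF t s θ - PP t θ = ∑' i : ℤ,
      ((((cc t i * mm s i : ℝ) : ℂ) * Complex.exp (i * θ * Complex.I)) -
        ((cc t i : ℂ) * Complex.exp (i * θ * Complex.I))) := by
    unfold PF PP
    rw [hS1.tsum_sub hS2]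
  rw [heq]
  have hb : ∀ i : ℤ, ‖((((cc t i * mm s i : ℝ) : ℂ) * Complex.exp (i * θ * Complex.I)) -
        ((cc t i : ℂ) * Complex.exp (i * θ * Complex.I)))‖ ≤ |cc t i| * (1 - mm s i) := by
    intro i
    have h : ((((cc t i * mm s i : ℝ) : ℂ) * Complex.exp (i * θ * Complex.I)) -
        ((cc t i : ℂ) * Complex.exp (i * θ * Complex.I))) =
        ((cc t i * (mm s i - 1) : ℝ) : ℂ) * Complex.exp (i * θ * Complex.I) := by
      push_cast
      ring
    rw [h, norm_mul, k3_norm_exp, mul_one, Complex.norm_real, Real.norm_eq_abs, abs_mul]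
    have h1 := k3_mm_le_one s hpos i
    rw [abs_of_nonpos (by linarith : mm s i - 1 ≤ 0)]
    exact le_of_eq (by ring)
  exact (tsum_of_norm_bounded hS3.hasSum hb).trans hlt.le

end Pool.Agent.LibIV39
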