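import Pool.Agent.LibIV39.Defs

/-! L1 (SHORT, only Mathlib). PLAN. `(⨆ n, ‖a n‖ (exp x)^n) = mu a ν x` (`le_antisymm`, `ciSup_le`,
`le_ciSup` with the bound `h.mx`; `(exp x)^n = exp (n x)`, `Real.exp_nat_mul`). Compose `hlim` with
`Real.tendsto_exp_atTop`, take the inverse (`Tendsto.inv₀`, `C ≠ 0`, `inv_div`). -/

set_option autoImplicit false

namespace Pool.Agent.LibIV39

open Filter Topology

theorem L1a (a : ℕ → ℂ) (ν : ℝ → ℕ) (X : ℕ → ℝ) (h : NuX a ν X) (x : ℝ) :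
    (⨆ n, ‖a n‖ * Real.exp x ^ n) = mu a ν x := by
  have key : ∀ n : ℕ, ‖a n‖ * Real.exp x ^ n = T a n x := by
    intro n
    unfold T
    rw [Real.exp_nat_mul]
  have hb : BddAbove (Set.range fun n : ℕ => ‖a n‖ * Real.exp x ^ n) := by
    refine ⟨mu a ν x, ?_⟩
    rintro _ ⟨n, rfl⟩
    show ‖a n‖ * Real.exp x ^ n ≤ mu a ν x
    rw [key n]
    exact h.mx x n
  apply le_antisymm
  · apply ciSup_le
    intro n
    rw [key n]
    exact h.mx x n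
  · have h1 := le_ciSup hb (ν x)
    have h2 : ‖a (ν x)‖ * Real.exp x ^ (ν x) = mu a ν x := by
      rw [key (ν x)]
      rfl
    rw [← h2]
    exact h1

theorem L1 (a : ℕ → ℂ) (f : ℂ → ℂ) (ν : ℝ → ℕ) (X : ℕ → ℝ) (h : NuX a ν X) (C : ℝ) (hC : 0 < C)
    (hlim : Tendsto (fun r : ℝ => (⨆ n, ‖a n‖ * r ^ n) / (⨆ z : Metric.sphere (0 : ℂ) r, ‖f z‖))
      atTop (𝓝 C)) :
    Tendsto (fun x => Ms f x / mu a ν x) atTop (𝓝 (1 / C)) := by
  have h1 := (hlim.comp Real.tendsto_exp_atTop).inv₀ hC.ne'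
  rw [one_div]
  refine h1.congr ?_
  intro x
  show ((⨆ n, ‖a n‖ * Real.exp x ^ n) /
    (⨆ z : Metric.sphere (0 : ℂ) (Real.exp x), ‖f z‖))⁻¹ = Ms f x / mu a ν x
  rw [L1a a ν X h x, inv_div]
  rfl

end Pool.Agent.LibIV39
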