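import Pool.Agent.LibIV39.Defs
import Pool.Agent.LibIV39.M0
import Pool.Agent.LibIV39.L1
import Pool.Agent.LibIV39.C2
import Pool.Agent.LibIV39.C3

/-! L2 (SHORT/MEDIUM; uses `C2a`, `C2b`, `C3a`, `C3b`): the maximum term of the new
function. PLAN. `b = bb a X (σ ∘ X) t`. `⨆ N, ‖b N‖ (exp (x/3))^N = mu a ν x` as soon as `ε ≤ 1 - t`: for
`N = 3m`: `‖a m‖ e^{m x} ≤ mu` (`C2a`), with equality for `m = ν x`; for `3 ∤ N`: `≤ (t+ε) mu ≤ mu`. -/

set_option autoImplicit false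

namespace Pool.Agent.LibIV39

open Filter Topology

theorem L2 (a : ℕ → ℂ) (ν : ℝ → ℕ) (X : ℕ → ℝ) (h : NuX a ν X)
    (hT : ∀ x : ℝ, Summable fun n => T a n x) (t : ℝ) (ht0 : 0 ≤ t) (ht1 : t ≤ 1)
    (σ : ℝ → ℝ) (hσ1 : ∀ x, 1 ≤ σ x) (hσL : ∀ x y, |σ x - σ y| ≤ |x - y|) (x ε : ℝ)
    (hε : t + ε ≤ 1) (hx : FB a ν X (σ x) ε x) :
    (⨆ N, ‖bb a X (fun n => σ (X n)) t N‖ * Real.exp (x / 3) ^ N) = mu a ν x := by
  have hmu : 0 < mu a ν x := h.pos x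
  have h3 : ∀ m : ℕ, ‖bb a X (fun n => σ (X n)) t (3 * m)‖ * Real.exp (x / 3) ^ (3 * m)
      = T a m x := by
    intro m
    rw [C2a, ← Real.exp_nat_mul]
    unfold T
    congr 2
    push_cast
    ring
  have key : ∀ N : ℕ, ‖bb a X (fun n => σ (X n)) t N‖ * Real.exp (x / 3) ^ N ≤ mu a ν x := by
    intro N
    by_cases hN : 3 ∣ N
    · obtain ⟨m, rfl⟩ := hN
      rw [h3 m]
      exact h.mx x m
    · have hs := C3a a ν X h hT t ht0 ht1 σ hσ1 hσL x ε hx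
      have h1 := C2b a X (fun n => σ (X n)) t x hs N
      have h2 := C3b a ν X h hT t ht0 ht1 σ hσ1 hσL x ε hx N hN
      rw [← Real.exp_nat_mul]
      refine h1.trans (h2.trans ?_)
      calc (t + ε) * mu a ν x ≤ 1 * mu a ν x := by
            exact mul_le_mul_of_nonneg_right hε hmu.le
        _ = mu a ν x := one_mul _
  apply le_antisymm
  · exact ciSup_le key
  · have hb : BddAbove (Set.range fun N : ℕ =>
        ‖bb a X (fun n => σ (X n)) t N‖ * Real.exp (x / 3) ^ N) :=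
      ⟨mu a ν x, by rintro y ⟨N, rfl⟩; exact key N⟩
    have h4 : ‖bb a X (fun n => σ (X n)) t (3 * ν x)‖ * Real.exp (x / 3) ^ (3 * ν x) ≤
        ⨆ N, ‖bb a X (fun n => σ (X n)) t N‖ * Real.exp (x / 3) ^ N := le_ciSup hb (3 * ν x)
    rw [h3 (ν x)] at h4
    exact h4

end Pool.Agent.LibIV39
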