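import Pool.Agent.LibIV39.Defs
import Pool.Agent.LibIV39.M0

/-! M1 (MEDIUM; uses `M0`). PLAN. Upper bound: let `F` attain `Ms F (x/3)` at
`exp (x/3 + φ i)` (`M0`), `θ = φ`: `‖F ..‖ ≤ ‖f (e^{x+3φ i})‖ ‖PF‖ + ε μ ≤ Ms f x (1+t+ε') + ε μ`
(`‖e^{x+3φi}‖ = e^x`, `M0` (i)). Lower bound: let `f` attain `Ms f x` at `exp (x + φ i)`,
`φ ∈ [0, 2π]`; `θ = (φ + 2π)/3 ∈ [2π/3, 4π/3]`, `exp (x + 3 θ i) = exp (x + φ i)` (period `2π i`),
`PP t θ = 1+t`, so `Ms F (x/3) ≥ ‖F ..‖ ≥ Ms f x (1 + t - ε') - ε μ`. `Ms f x ≥ 0`. -/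

set_option autoImplicit false

namespace Pool.Agent.LibIV39

open Filter Topology

theorem M1 (f F : ℂ → ℂ) (hf : Continuous f) (hF : Continuous F) (x t s ε ε' μ : ℝ) (ht0 : 0 ≤ t)
    (h1 : ∀ θ : ℝ, ‖PP t θ‖ ≤ 1 + t)
    (h2 : ∀ θ : ℝ, 2 * Real.pi / 3 ≤ θ → θ ≤ 4 * Real.pi / 3 → PP t θ = ((1 + t : ℝ) : ℂ))
    (h3 : ∀ θ : ℝ, ‖PF t s θ - PP t θ‖ ≤ ε')
    (h4 : ∀ θ : ℝ, ‖F (Complex.exp (((x / 3 : ℝ) : ℂ) + θ * Complex.I)) -
      f (Complex.exp (x + 3 * θ * Complex.I)) * PF t s θ‖ ≤ ε * μ) :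
    |Ms F (x / 3) - (1 + t) * Ms f x| ≤ ε' * Ms f x + ε * μ := by
  obtain ⟨hf1, φ, hφ0, hφ1, hφ⟩ := M0 f hf x
  obtain ⟨hF1, ψ, hψ0, hψ1, hψ⟩ := M0 F hF (x / 3)
  have hMs : 0 ≤ Ms f x := hφ ▸ norm_nonneg _
  have hnf : ∀ θ : ℝ, ‖Complex.exp (x + 3 * θ * Complex.I)‖ = Real.exp x := by
    intro θ
    rw [Complex.norm_exp]
    congr 1
    simp
  have hnF : ∀ θ : ℝ, ‖Complex.exp (((x / 3 : ℝ) : ℂ) + θ * Complex.I)‖ = Real.exp (x / 3) := by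
    intro θ
    rw [Complex.norm_exp]
    congr 1
    simp
  rw [abs_le]
  constructor
  · -- lower bound
    have hθ1 : 2 * Real.pi / 3 ≤ (φ + 2 * Real.pi) / 3 := by linarith
    have hθ2 : (φ + 2 * Real.pi) / 3 ≤ 4 * Real.pi / 3 := by linarith
    have hP := h2 _ hθ1 hθ2
    have h3' := h3 ((φ + 2 * Real.pi) / 3)
    have h4' := h4 ((φ + 2 * Real.pi) / 3)
    have hper : Complex.exp (x + 3 * (((φ + 2 * Real.pi) / 3 : ℝ) : ℂ) * Complex.I) =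
        Complex.exp (x + φ * Complex.I) := by
      rw [Complex.exp_eq_exp_iff_exists_int]
      refine ⟨1, ?_⟩
      push_cast
      ring
    rw [hper] at h4'
    rw [hP] at h3'
    have hF2 := hF1 _ (hnF ((φ + 2 * Real.pi) / 3))
    set w := F (Complex.exp (((x / 3 : ℝ) : ℂ) + (((φ + 2 * Real.pi) / 3 : ℝ) : ℂ) * Complex.I))
      with hw
    set p := PF t s ((φ + 2 * Real.pi) / 3) with hp
    set v := f (Complex.exp (x + φ * Complex.I)) with hv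
    have e1 : ‖v * p‖ ≤ ‖w‖ + ε * μ := by
      have : v * p = w - (w - v * p) := by ring
      rw [this]
      exact (norm_sub_le _ _).trans (by linarith)
    have e2 : 1 + t ≤ ‖p‖ + ε' := by
      have e3 : ‖((1 + t : ℝ) : ℂ)‖ = 1 + t := by
        rw [Complex.norm_real, Real.norm_of_nonneg (by linarith)]
      have e4 : ((1 + t : ℝ) : ℂ) = p - (p - ((1 + t : ℝ) : ℂ)) := by ring
      have e5 : ‖((1 + t : ℝ) : ℂ)‖ ≤ ‖p‖ + ‖p - ((1 + t : ℝ) : ℂ)‖ := by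
        conv_lhs => rw [e4]
        exact norm_sub_le _ _
      rw [e3] at e5
      linarith
    rw [norm_mul, hφ] at e1
    have e6 : Ms f x * (1 + t) ≤ Ms f x * (‖p‖ + ε') := mul_le_mul_of_nonneg_left e2 hMs
    nlinarith
  · -- upper bound
    have h4' := h4 ψ
    have h3' := h3 ψ
    have h1' := h1 ψ
    have hf2 := hf1 _ (hnf ψ)
    set w := F (Complex.exp (((x / 3 : ℝ) : ℂ) + (ψ : ℂ) * Complex.I)) with hw
    set p := PF t s ψ with hp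
    set v := f (Complex.exp (x + 3 * ψ * Complex.I)) with hv
    have e1 : ‖w‖ ≤ ‖v * p‖ + ε * μ := by
      have : w = v * p + (w - v * p) := by ring
      conv_lhs => rw [this]
      exact (norm_add_le _ _).trans (by linarith)
    have e2 : ‖p‖ ≤ 1 + t + ε' := by
      have e4 : p = PP t ψ + (p - PP t ψ) := by ring
      have e5 : ‖p‖ ≤ ‖PP t ψ‖ + ‖p - PP t ψ‖ := by
        conv_lhs => rw [e4]
        exact norm_add_le _ _
      linarith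
    rw [norm_mul] at e1
    have e6 : ‖v‖ * ‖p‖ ≤ Ms f x * (1 + t + ε') :=
      mul_le_mul hf2 e2 (norm_nonneg _) hMs
    rw [hψ] at e1
    nlinarith

end Pool.Agent.LibIV39
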