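import Pool.Agent.LibIV39.Defs

/-! N2 (SHORT, only Mathlib). PLAN. `SD` with `η = 1`, `L = 1` gives `x0`; let `ξ1 = max x0 0`.
Induction: `n ≤ ν (ξ1 + n)`. If `X n > ξ1 + n` then `X1` (with `ξ = ξ1 + n ≥ 0`) gives
`ν (ξ1 + n) < n`, contradiction. -/

set_option autoImplicit false

namespace Pool.Agent.LibIV39

open Filter Topology

theorem N2 (a : ℕ → ℂ) (ν : ℝ → ℕ) (X : ℕ → ℝ) (h : NuX a ν X) (hSD : SD ν) :
    ∃ ξ1 : ℝ, ∀ n : ℕ, X n ≤ n + ξ1 := by
  obtain ⟨x0, hx0⟩ := hSD 1 one_pos 1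
  refine ⟨max x0 0, ?_⟩
  have h1 : x0 ≤ max x0 0 := le_max_left _ _
  have h0 : (0 : ℝ) ≤ max x0 0 := le_max_right _ _
  have key : ∀ n : ℕ, n ≤ ν (max x0 0 + n) := by
    intro n
    induction n with
    | zero => exact Nat.zero_le _
    | succ n ih =>
      have hn : (0 : ℝ) ≤ (n : ℝ) := Nat.cast_nonneg n
      have h2 := hx0 (max x0 0 + n) (by linarith)
      have h3 : max x0 0 + (n : ℝ) + 1 = max x0 0 + ((n + 1 : ℕ) : ℝ) := by
        push_cast
        ring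
      rw [h3] at h2
      omega
  intro n
  by_contra hlt
  push Not at hlt
  have hn : (0 : ℝ) ≤ (n : ℝ) := Nat.cast_nonneg n
  have h4 := h.X1 n (max x0 0 + n) (by linarith) (by linarith)
  have h5 := key n
  omega

end Pool.Agent.LibIV39
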