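import Pool.Agent.LibIV39.Defs
import Pool.Agent.LibIV39.M0
import Pool.Agent.LibCH71.P1
import Pool.Agent.LibCH71.P2

/-! P1 (SHORT/MEDIUM; uses `Pool.Agent.LibCH71.P1`, `Pool.Agent.LibCH71.bessel`,
`Pool.Agent.LibCH71.entire_continuous`, on main, and `M0`): Parseval.
PLAN. `r = exp x`. `LibCH71.P1 a f hf r hr m` : the `m`-th Fourier coefficient of
`y ↦ f (r ee y)` is `a m r^m` for `m ≥ 0`. `LibCH71.bessel` with `F y = f (r ee y)` and
`J = S.image (fun n => (n : ℤ))` (or `S.map`): `∑_{n∈S} ‖a n r^n‖² ≤ ∫ ‖F‖² ≤ (Ms f x)²`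
(`intervalIntegral.integral_mono_on`, `‖r ee y‖ = r`, `M0`), and `Ms f x ≤ K mu`, both
nonnegative. `‖a n * r^n‖ = T a n x` as `(exp x)^n = exp (n x)` (`Real.exp_nat_mul`). -/

set_option autoImplicit false

namespace Pool.Agent.LibIV39

open Filter Topology

theorem P1 (a : ℕ → ℂ) (f : ℂ → ℂ) (hf : ∀ z, HasSum (fun n => a n * z ^ n) (f z))
    (ν : ℝ → ℕ) (X : ℕ → ℝ) (h : NuX a ν X) (K x0 : ℝ) (hK : 0 ≤ K)
    (hM : ∀ x, x0 ≤ x → Ms f x ≤ K * mu a ν x) : PV a ν K x0 := by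
  intro x hx S
  have hcont : Continuous f := Pool.Agent.LibCH71.entire_continuous a f hf
  obtain ⟨hM0, _⟩ := M0 f hcont x
  have hr : 0 < Real.exp x := Real.exp_pos x
  have heec : Continuous fun y : ℝ => Pool.Agent.LibCH71.ee y := by
    unfold Pool.Agent.LibCH71.ee
    fun_prop
  have hFc : Continuous fun y : ℝ => f (((Real.exp x : ℝ) : ℂ) * Pool.Agent.LibCH71.ee y) :=
    hcont.comp (continuous_const.mul heec)
  have hnorm : ∀ y : ℝ, ‖((Real.exp x : ℝ) : ℂ) * Pool.Agent.LibCH71.ee y‖ = Real.exp x := by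
    intro y
    rw [norm_mul, Pool.Agent.LibCH71.norm_ee, mul_one, Complex.norm_real, Real.norm_eq_abs,
      abs_of_pos hr]
  have hFle : ∀ y : ℝ, ‖f (((Real.exp x : ℝ) : ℂ) * Pool.Agent.LibCH71.ee y)‖ ≤ Ms f x :=
    fun y => hM0 _ (hnorm y)
  have hMs0 : 0 ≤ Ms f x := le_trans (norm_nonneg _) (hFle 0)
  have hb := Pool.Agent.LibCH71.bessel
    (fun y : ℝ => f (((Real.exp x : ℝ) : ℂ) * Pool.Agent.LibCH71.ee y)) hFc
    (S.map Nat.castEmbedding)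
  rw [Finset.sum_map] at hb
  have hterm : ∀ n ∈ S, ‖∫ y in (0:ℝ)..1, f (((Real.exp x : ℝ) : ℂ) * Pool.Agent.LibCH71.ee y) *
      Pool.Agent.LibCH71.ee (-(((Nat.castEmbedding n : ℤ) : ℝ) * y))‖ ^ 2 = T a n x ^ 2 := by
    intro n _
    have h1 := Pool.Agent.LibCH71.P1 a f hf (Real.exp x) hr (Nat.castEmbedding n : ℤ)
    rw [h1]
    have h2 : (0 : ℤ) ≤ (Nat.castEmbedding n : ℤ) := by simp
    rw [if_pos h2]
    have h3 : (Nat.castEmbedding n : ℤ).toNat = n := by simp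
    rw [h3, norm_mul, norm_pow, Complex.norm_real, Real.norm_eq_abs, abs_of_pos hr, T,
      Real.exp_nat_mul]
  rw [Finset.sum_congr rfl hterm] at hb
  have hint : ∫ y in (0:ℝ)..1, ‖f (((Real.exp x : ℝ) : ℂ) * Pool.Agent.LibCH71.ee y)‖ ^ 2 ≤
      Ms f x ^ 2 := by
    have h4 : ∫ y in (0:ℝ)..1, ‖f (((Real.exp x : ℝ) : ℂ) * Pool.Agent.LibCH71.ee y)‖ ^ 2 ≤
        ∫ _y in (0:ℝ)..1, Ms f x ^ 2 := by
      refine intervalIntegral.integral_mono_on zero_le_one ?_ ?_ ?_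
      · exact (hFc.norm.pow 2).intervalIntegrable _ _
      · exact continuous_const.intervalIntegrable _ _
      · intro y _
        exact pow_le_pow_left₀ (norm_nonneg _) (hFle y) 2
    simpa using h4
  calc ∑ n ∈ S, T a n x ^ 2 ≤ Ms f x ^ 2 := le_trans hb hint
    _ ≤ (K * mu a ν x) ^ 2 := pow_le_pow_left₀ hMs0 (hM x hx) 2
    _ = K ^ 2 * mu a ν x ^ 2 := by ring

end Pool.Agent.LibIV39
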