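import Pool.Agent.LibIV39.Defs

/-! S1 (MEDIUM, only Mathlib): a slowly increasing Lipschitz function. PLAN. For `J : ℕ` choose
`y J` (increasing, `y J ≥ J`, `y 0 ≥ ξ1`, `y 0 ≥ 0`) such that `G (J+1) (1/(J+1)) x` for all `x ≥ y J`. Let
`g x = 1 + #{J ≥ 1 : y J ≤ x}` (a natural number; or `g x = 1 + sSup {J | y J ≤ x}` ..): `g ≥ 1`,
`g` monotone, `g = 1` for `x < y 1` (so for `x ≤ ξ1`), `g → ∞`, and for `J = g x - 1 ≥ 1`: `y J ≤ x`,
so `G (g x) (1/(J+1)) x`. Let `σ x = ⨅ v, (g v + |x - v|)` (`ciInf`, bounded below by `1`): `1 ≤ σ ≤ g`,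
`σ` is 1-Lipschitz, `σ = 1` for `x ≤ ξ1`, `σ → ∞`: for given `A` there is `v0` with `g v ≥ A` for
`v ≥ v0`; for `x ≥ v0 + A` every `g v + |x-v| ≥ A`. Monotonicity `hmono` from `g x` to `σ x`, and
`1/(J+1) ≤ ε` eventually (`hε`: monotone in `ε`). -/

set_option autoImplicit false

namespace Pool.Agent.LibIV39

open Filter Topology

theorem S1 (G : ℝ → ℝ → ℝ → Prop)
    (hmono : ∀ D D' ε x, 1 ≤ D → D ≤ D' → G D' ε x → G D ε x)
    (heps : ∀ D ε ε' x, ε ≤ ε' → G D ε x → G D ε' x)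
    (hG : ∀ D, 1 ≤ D → ∀ ε : ℝ, 0 < ε → ∃ x1 : ℝ, ∀ x, x1 ≤ x → G D ε x) (ξ1 : ℝ) :
    ∃ σ : ℝ → ℝ, (∀ x, 1 ≤ σ x) ∧ (∀ x y, |σ x - σ y| ≤ |x - y|) ∧ (∀ x, x ≤ ξ1 → σ x = 1) ∧
      Tendsto σ atTop atTop ∧ ∀ ε : ℝ, 0 < ε → ∃ x1 : ℝ, ∀ x, x1 ≤ x → G (σ x) ε x := by
  have h1 : ∀ J : ℕ, ∃ x1 : ℝ, ∀ x, x1 ≤ x → G ((J : ℝ) + 1) (1 / ((J : ℝ) + 1)) x := fun J =>
    hG _ (by linarith [Nat.cast_nonneg (α := ℝ) J]) _ (by positivity)
  choose u hu using h1
  obtain ⟨y, hy⟩ : ∃ y : ℕ → ℝ, ∀ J, y J = |ξ1| + ∑ i ∈ Finset.range (J + 1), (|u i| + 1) :=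
    ⟨_, fun _ => rfl⟩
  have ymono : Monotone y := monotone_nat_of_le_succ (fun J => by
    rw [hy, hy, Finset.sum_range_succ _ (J + 1)]
    have := abs_nonneg (u (J + 1))
    linarith)
  have yu : ∀ J, u J ≤ y J := by
    intro J
    rw [hy]
    have h2 : |u J| + 1 ≤ ∑ i ∈ Finset.range (J + 1), (|u i| + 1) :=
      Finset.single_le_sum (f := fun i => |u i| + 1) (fun i _ => by positivity)
        (Finset.mem_range.mpr (Nat.lt_succ_self J))
    have h3 := le_abs_self (u J)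
    have h4 := abs_nonneg ξ1
    linarith
  have yJ : ∀ J : ℕ, (J : ℝ) ≤ y J := by
    intro J
    rw [hy]
    have h2 : ∑ i ∈ Finset.range (J + 1), (1 : ℝ) ≤ ∑ i ∈ Finset.range (J + 1), (|u i| + 1) :=
      Finset.sum_le_sum (fun i _ => by linarith [abs_nonneg (u i)])
    simp only [Finset.sum_const, Finset.card_range, nsmul_eq_mul, mul_one, Nat.cast_add,
      Nat.cast_one] at h2
    have h4 := abs_nonneg ξ1
    linarith
  have yxi : ∀ J, ξ1 ≤ y J := by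
    intro J
    rw [hy]
    have h2 : 0 ≤ ∑ i ∈ Finset.range (J + 1), (|u i| + 1) :=
      Finset.sum_nonneg (fun i _ => by positivity)
    have h3 := le_abs_self ξ1
    linarith
  have hy0 : 0 ≤ y 0 := by simpa using yJ 0
  obtain ⟨σ, hσ⟩ : ∃ σ : ℝ → ℝ, ∀ x, σ x = ⨅ J : ℕ, ((J : ℝ) + 1 + max 0 (x - y (J + 1))) :=
    ⟨_, fun _ => rfl⟩
  have bdd : ∀ x, BddBelow (Set.range (fun J : ℕ => (J : ℝ) + 1 + max 0 (x - y (J + 1)))) := by
    intro x
    refine ⟨1, ?_⟩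
    rintro _ ⟨J, rfl⟩
    have h2 : (0 : ℝ) ≤ J := Nat.cast_nonneg J
    have h3 : 0 ≤ max 0 (x - y (J + 1)) := le_max_left _ _
    simp only
    linarith
  have le : ∀ x (J : ℕ), σ x ≤ (J : ℝ) + 1 + max 0 (x - y (J + 1)) := by
    intro x J
    rw [hσ]
    exact ciInf_le (bdd x) J
  have ge : ∀ x B, (∀ J : ℕ, B ≤ (J : ℝ) + 1 + max 0 (x - y (J + 1))) → B ≤ σ x := by
    intro x B h
    rw [hσ]
    exact le_ciInf h
  have lb : ∀ x, 1 ≤ σ x := by
    intro x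
    refine ge x 1 (fun J => ?_)
    have h2 : (0 : ℝ) ≤ J := Nat.cast_nonneg J
    have h3 : 0 ≤ max 0 (x - y (J + 1)) := le_max_left _ _
    linarith
  have ub : ∀ x (J : ℕ), x ≤ y (J + 1) → σ x ≤ (J : ℝ) + 1 := by
    intro x J hx
    have h2 := le x J
    rw [max_eq_left (by linarith)] at h2
    linarith
  have lip : ∀ x z, σ x - |x - z| ≤ σ z := by
    intro x z
    refine ge z _ (fun J => ?_)
    have h2 := le x J
    have h3 : max 0 (x - y (J + 1)) ≤ max 0 (z - y (J + 1)) + |x - z| := by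
      have h4 := le_abs_self (x - z)
      have h5 := abs_nonneg (x - z)
      refine max_le ?_ ?_
      · have : 0 ≤ max 0 (z - y (J + 1)) := le_max_left _ _
        linarith
      · have : z - y (J + 1) ≤ max 0 (z - y (J + 1)) := le_max_right _ _
        linarith
    linarith
  refine ⟨σ, lb, ?_, ?_, ?_, ?_⟩
  · intro x z
    have h2 := lip x z
    have h3 := lip z x
    rw [abs_sub_comm z x] at h3
    rw [abs_le]
    constructor <;> linarith
  · intro x hx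
    refine le_antisymm ?_ (lb x)
    have h2 := ub x 0 (hx.trans (yxi _))
    simpa using h2
  · rw [tendsto_atTop]
    intro A
    filter_upwards [eventually_ge_atTop (y (⌈A⌉₊ + 1) + |A|)] with x hx
    refine ge x A (fun J => ?_)
    rcases le_total A ((J : ℝ) + 1) with h | h
    · have h3 : 0 ≤ max 0 (x - y (J + 1)) := le_max_left _ _
      linarith
    · have h4 : (J : ℝ) + 1 ≤ (⌈A⌉₊ : ℝ) := h.trans (Nat.le_ceil A)
      have h5 : J + 1 ≤ ⌈A⌉₊ + 1 := by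
        have : J + 1 ≤ ⌈A⌉₊ := by exact_mod_cast h4
        omega
      have h6 := ymono h5
      have h7 : x - y (J + 1) ≤ max 0 (x - y (J + 1)) := le_max_right _ _
      have h8 := le_abs_self A
      have h9 : (0 : ℝ) ≤ J := Nat.cast_nonneg J
      linarith
  · intro ε hε
    obtain ⟨J0, hJ0⟩ := exists_nat_one_div_lt hε
    refine ⟨y J0, fun x hx => ?_⟩
    have hex : ∃ J : ℕ, x < y (J + 1) := by
      obtain ⟨m, hm⟩ := exists_nat_gt x
      refine ⟨m, ?_⟩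
      have h2 := yJ (m + 1)
      push_cast at h2
      linarith
    classical
    obtain ⟨J, hJ, hmin⟩ : ∃ J : ℕ, x < y (J + 1) ∧ ∀ i, i < J → ¬ x < y (i + 1) :=
      ⟨Nat.find hex, Nat.find_spec hex, fun i hi => Nat.find_min hex hi⟩
    have hJJ : J0 ≤ J := by
      by_contra hlt
      have h3 : J + 1 ≤ J0 := by omega
      have h4 := ymono h3
      linarith
    have hyx : y J ≤ x := by
      rcases Nat.eq_zero_or_pos J with h0 | h0
      · have : J0 = 0 := by omega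
        rw [h0, ← this]
        exact hx
      · have h3 := hmin (J - 1) (by omega)
        rw [Nat.sub_add_cancel h0] at h3
        linarith
    have h5 := hu J x ((yu J).trans hyx)
    have h6 := hmono (σ x) ((J : ℝ) + 1) (1 / ((J : ℝ) + 1)) x (lb x) (ub x J hJ.le) h5
    refine heps _ _ _ _ ?_ h6
    have h7 : (J0 : ℝ) ≤ J := by exact_mod_cast hJJ
    have h8 : 1 / ((J : ℝ) + 1) ≤ 1 / ((J0 : ℝ) + 1) :=
      one_div_le_one_div_of_le (by positivity) (by linarith)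
    linarith

end Pool.Agent.LibIV39
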