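import Pool.Agent.LibIV39.Defs
import Pool.Agent.MaxTermRatio.Final

/-! T1 (SHORT; uses `Pool.Agent.MaxTermRatio.coeff_unique`, on main). PLAN. If `F z = P.eval z` for all
`z` then `∑ (b N - P.coeff N) z^N = 0` for all `z` (`P.eval z = ∑ N ∈ range (natDegree+1), coeff N z^N`,
`hasSum_sum_of_ne_finset_zero`), so `b N = P.coeff N = 0` for `N > natDegree P`, contradiction.
T1b: `‖a n‖ (exp x)^n = ‖a n (exp x)^n‖` is summable (`(hf (exp x)).summable.norm`). -/

set_option autoImplicit false

namespace Pool.Agent.LibIV39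

open Filter Topology

theorem T1 (b : ℕ → ℂ) (F : ℂ → ℂ) (hF : ∀ z, HasSum (fun n => b n * z ^ n) (F z))
    (hnz : ∀ N : ℕ, ∃ n, N ≤ n ∧ b n ≠ 0) : ∀ P : Polynomial ℂ, ∃ z, F z ≠ P.eval z := by
  intro P
  by_contra hcon
  push Not at hcon
  obtain ⟨n, hn, hbn⟩ := hnz (P.natDegree + 1)
  apply hbn
  have hP : ∀ z : ℂ, HasSum (fun n => P.coeff n * z ^ n) (P.eval z) := by
    intro z
    rw [Polynomial.eval_eq_sum_range]
    apply hasSum_sum_of_ne_finset_zero
    intro k hk
    have : P.natDegree < k := by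
      by_contra h
      exact hk (Finset.mem_range.mpr (by omega))
    rw [Polynomial.coeff_eq_zero_of_natDegree_lt this, zero_mul]
  have h0 : ∀ z : ℂ, HasSum (fun n => (b n - P.coeff n) * z ^ n) 0 := by
    intro z
    have h1 := hF z
    rw [hcon z] at h1
    have h2 := h1.sub (hP z)
    rw [sub_self] at h2
    have e : (fun n => (b n - P.coeff n) * z ^ n)
        = fun n => b n * z ^ n - P.coeff n * z ^ n := by
      funext k
      ring
    rw [e]
    exact h2
  have h3 := Pool.Agent.MaxTermRatio.coeff_unique (fun n => b n - P.coeff n) h0 n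
  have h4 : P.coeff n = 0 := Polynomial.coeff_eq_zero_of_natDegree_lt (by omega)
  simpa [h4] using h3

theorem T1b (a : ℕ → ℂ) (f : ℂ → ℂ) (hf : ∀ z, HasSum (fun n => a n * z ^ n) (f z)) (x : ℝ) :
    Summable fun n => T a n x := by
  have h := (hf ((Real.exp x : ℝ) : ℂ)).summable.norm
  refine h.congr (fun n => ?_)
  simp only [T, norm_mul, norm_pow]
  rw [Complex.norm_real, Real.norm_eq_abs, abs_of_pos (Real.exp_pos x), ← Real.exp_nat_mul]

end Pool.Agent.LibIV39
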