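import Pool.Agent.LibIV39.N1
import Pool.Agent.LibIV39.N2
import Pool.Agent.LibIV39.P1
import Pool.Agent.LibIV39.L1
import Pool.Agent.LibIV39.A4
import Pool.Agent.LibIV39.F8
import Pool.Agent.LibIV39.S1
import Pool.Agent.LibIV39.K2
import Pool.Agent.LibIV39.K3
import Pool.Agent.LibIV39.C1
import Pool.Agent.LibIV39.C4
import Pool.Agent.LibIV39.M1
import Pool.Agent.LibIV39.T1
import Pool.Agent.LibIV39.L2
import Pool.Agent.LibCH71.P1
import Pool.Agent.LibCH71.V0

set_option autoImplicit false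

namespace Pool.Agent.LibIV39

open Filter Topology

private theorem Ms_nonneg (f : ℂ → ℂ) (x : ℝ) : 0 ≤ Ms f x :=
  Real.iSup_nonneg fun z => norm_nonneg _

theorem step (C : ℝ) (hC0 : 0 < C) (hC1 : C < 1) (h : IsLim C) (t : ℝ) (ht0 : 0 ≤ t) (ht1 : t < 1) :
    IsLim (C / (1 + t)) := by
  obtain ⟨a, f, hf, hp, hlim⟩ := h
  have hfc : Continuous f := Pool.Agent.LibCH71.entire_continuous a f hf
  have hnz := Pool.Agent.LibCH71.V0 a f hf hp
  have hT := T1b a f hf
  obtain ⟨ν, X, hN⟩ := N1 a hnz (fun x => (hT x).tendsto_atTop_zero)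
  have hlim' := L1 a f ν X hN C hC0 hlim
  have hSD := A4 a f hf hfc ν X hN C hC0 hC1 hlim'
  -- a bound for the maximum modulus
  have hK : ∃ x0 : ℝ, ∀ x, x0 ≤ x → Ms f x ≤ (1 / C + 1) * mu a ν x := by
    have h1 : ∀ᶠ x in atTop, Ms f x / mu a ν x < 1 / C + 1 :=
      hlim'.eventually_lt_const (by linarith)
    obtain ⟨x0, hx0⟩ := h1.exists_forall_of_atTop
    refine ⟨x0, fun x hx => ?_⟩
    have h2 := hx0 x hx
    rw [div_lt_iff₀ (hN.pos x)] at h2
    exact h2.le
  obtain ⟨x0, hx0⟩ := hK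
  have hK0 : 0 ≤ 1 / C + 1 := by positivity
  have hPV := P1 a f hf ν X hN (1 / C + 1) x0 hK0 hx0
  obtain ⟨ξ1, hξ1⟩ := N2 a ν X hN hSD
  obtain ⟨σ, hσ1, hσL, hσξ, hσtop, hσG⟩ := S1 (fun D ε x => FB a ν X D ε x)
    (fun D D' ε x hD hDD hF => F8b a ν X hN D D' ε x (by linarith) hDD hF)
    (fun D ε ε' x hε hF S => (hF S).trans (mul_le_mul_of_nonneg_right hε (hN.pos x).le))
    (fun D hD ε hε => F8 a ν X hN hSD (1 / C + 1) x0 hK0 hPV D (by linarith) ε hε) ξ1
  set s : ℕ → ℝ := fun n => σ (X n) with hs_def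
  have hs1 : ∀ n, 1 ≤ s n := fun n => hσ1 _
  have hs : ∀ n, s n ≤ n + 1 := by
    intro n
    have hn : (0 : ℝ) ≤ n := n.cast_nonneg
    rcases le_total (X n) ξ1 with hc | hc
    · have : s n = 1 := hσξ _ hc
      rw [this]
      linarith
    · have h2 := hσL (X n) ξ1
      rw [hσξ ξ1 le_rfl, abs_of_nonneg (sub_nonneg.2 hc)] at h2
      have h3 := (abs_le.1 h2).2
      have h4 := hξ1 n
      show σ (X n) ≤ n + 1
      linarith
  obtain ⟨x1, hx1⟩ := hσG 1 one_pos
  have hsum : ∀ x, x1 ≤ x → Summable (DN a X s t x) := fun x hx =>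
    C3a a ν X hN hT t ht0 ht1.le σ hσ1 hσL x 1 (hx1 x hx)
  obtain ⟨hF, hDT⟩ := C1 a X s t hs1 hs x1 hsum
  have hFc : Continuous (FF a X s t) := Pool.Agent.LibCH71.entire_continuous _ _ hF
  have hbnz : ∀ N : ℕ, ∃ n, N ≤ n ∧ bb a X s t n ≠ 0 := by
    intro N
    obtain ⟨n, hn, hna⟩ := hnz N
    refine ⟨3 * n, by omega, ?_⟩
    rw [C2a]
    exact hna
  refine ⟨bb a X s t, FF a X s t, hF, T1 _ _ hF hbnz, ?_⟩
  obtain ⟨hk1, hk2⟩ := K2 t ht0 ht1.le
  -- the maximum term
  obtain ⟨x2, hx2⟩ := hσG (1 - t) (by linarith)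
  have hmT : ∀ x, x2 ≤ x →
      (⨆ N, ‖bb a X s t N‖ * Real.exp (x / 3) ^ N) = mu a ν x := fun x hx =>
    L2 a ν X hN hT t ht0 ht1.le σ hσ1 hσL x (1 - t) (by linarith) (hx2 x hx)
  -- the maximum modulus
  have hM : Tendsto (fun x => Ms (FF a X s t) (x / 3) / mu a ν x) atTop (𝓝 ((1 + t) / C)) := by
    rw [Metric.tendsto_atTop]
    intro ε hε
    have hC' : 0 < 1 / C + 1 := by positivity
    -- parameters
    obtain ⟨s0, hs0⟩ := K3 t ht0 ht1.le (ε / (4 * (1 / C + 1))) (by positivity)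
    obtain ⟨x3, hx3⟩ := hσG (ε / 4) (by positivity)
    obtain ⟨x4, hx4⟩ := (hσtop.eventually_ge_atTop s0).exists_forall_of_atTop
    obtain ⟨x5, hx5⟩ := Metric.tendsto_atTop.1 hlim' (ε / (4 * (1 + t))) (by positivity)
    refine ⟨max (max (max x3 x4) x5) (max x0 x1), fun x hx => ?_⟩
    have hx3' : x3 ≤ x := le_trans (le_trans (le_max_left _ _) (le_trans (le_max_left _ _)
      (le_max_left _ _))) hx
    have hx4' : x4 ≤ x := le_trans (le_trans (le_max_right _ _) (le_trans (le_max_left _ _)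
      (le_max_left _ _))) hx
    have hx5' : x5 ≤ x := le_trans (le_trans (le_max_right _ _) (le_max_left _ _)) hx
    have hx0' : x0 ≤ x := le_trans (le_trans (le_max_left _ _) (le_max_right _ _)) hx
    have hx1' : x1 ≤ x := le_trans (le_trans (le_max_right _ _) (le_max_right _ _)) hx
    have hmu := hN.pos x
    have hclose : ∀ θ : ℝ, ‖FF a X s t (Complex.exp (((x / 3 : ℝ) : ℂ) + θ * Complex.I)) -
        f (Complex.exp (x + 3 * θ * Complex.I)) * PF t (σ x) θ‖ ≤ ε / 4 * mu a ν x := by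
      intro θ
      rw [← (hDT x hx1' θ).tsum_eq]
      exact C4 a f hf ν X hN hT t ht0 ht1.le σ hσ1 hσL x (ε / 4) (hx3 x hx3') θ
    have h1 := M1 f (FF a X s t) hfc hFc x t (σ x) (ε / 4) (ε / (4 * (1 / C + 1))) (mu a ν x) ht0
      hk1 hk2 (hs0 (σ x) (hx4 x hx4')) hclose
    have h2 := hx5 x hx5'
    rw [Real.dist_eq] at h2 ⊢
    have h3 : ε / (4 * (1 / C + 1)) * Ms f x ≤ ε / 4 * mu a ν x := by
      have h4 := hx0 x hx0'
      calc ε / (4 * (1 / C + 1)) * Ms f x
          ≤ ε / (4 * (1 / C + 1)) * ((1 / C + 1) * mu a ν x) := by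
            apply mul_le_mul_of_nonneg_left h4
            positivity
        _ = ε / 4 * mu a ν x := by
            field_simp
    have h5 : |Ms (FF a X s t) (x / 3) - (1 + t) * Ms f x| ≤ ε / 2 * mu a ν x := by linarith
    have h6 : |Ms (FF a X s t) (x / 3) / mu a ν x - (1 + t) * (Ms f x / mu a ν x)| ≤ ε / 2 := by
      have h7 : Ms (FF a X s t) (x / 3) / mu a ν x - (1 + t) * (Ms f x / mu a ν x) =
          (Ms (FF a X s t) (x / 3) - (1 + t) * Ms f x) / mu a ν x := by ring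
      rw [h7, abs_div, abs_of_pos hmu, div_le_iff₀ hmu]
      exact h5
    have h8 : |(1 + t) * (Ms f x / mu a ν x) - (1 + t) / C| < ε / 4 := by
      have h9 : (1 + t) * (Ms f x / mu a ν x) - (1 + t) / C =
          (1 + t) * (Ms f x / mu a ν x - 1 / C) := by ring
      rw [h9, abs_mul, abs_of_pos (by linarith : (0 : ℝ) < 1 + t)]
      calc (1 + t) * |Ms f x / mu a ν x - 1 / C| < (1 + t) * (ε / (4 * (1 + t))) := by
            apply mul_lt_mul_of_pos_left h2
            linarith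
        _ = ε / 4 := by
            have : (1 + t) ≠ 0 := by linarith
            field_simp
    calc |Ms (FF a X s t) (x / 3) / mu a ν x - (1 + t) / C|
        ≤ |Ms (FF a X s t) (x / 3) / mu a ν x - (1 + t) * (Ms f x / mu a ν x)| +
          |(1 + t) * (Ms f x / mu a ν x) - (1 + t) / C| := abs_sub_le _ _ _
      _ < ε := by linarith
  -- the ratio in the variable `x`
  have hR : Tendsto (fun x : ℝ => (⨆ N, ‖bb a X s t N‖ * Real.exp (x / 3) ^ N) /
      Ms (FF a X s t) (x / 3)) atTop (𝓝 (C / (1 + t))) := by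
    have h1 := hM.inv₀ (by positivity)
    rw [inv_div] at h1
    refine h1.congr' ?_
    filter_upwards [eventually_ge_atTop x2] with x hx
    rw [hmT x hx, inv_div]
  have h3 : Tendsto (fun r : ℝ => 3 * Real.log r) atTop atTop :=
    Real.tendsto_log_atTop.const_mul_atTop (by norm_num)
  refine (hR.comp h3).congr' ?_
  filter_upwards [eventually_gt_atTop 0] with r hr
  simp only [Function.comp, Ms]
  rw [show 3 * Real.log r / 3 = Real.log r by ring, Real.exp_log hr]

/-- every positive number below a limit is a limit -/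
theorem main (C C' : ℝ) (h : IsLim C) (hC1 : C < 1) (h0 : 0 < C') (h1 : C' ≤ C) : IsLim C' := by
  -- `q ^ k C ≤ C'` for some `k`, `q = 2/3`
  have key : ∀ k : ℕ, ∀ C : ℝ, IsLim C → C < 1 → 0 < C → ∀ C' : ℝ, C' ≤ C →
      C * (2 / 3) ^ k ≤ C' → IsLim C' := by
    intro k
    induction k with
    | zero =>
      intro C h _ _ C' h1 h2
      rw [pow_zero, mul_one] at h2
      rwa [le_antisymm h1 h2]
    | succ k ih =>
      intro C h hC1 hC0 C' h1 h2
      have hC'0 : 0 < C' := lt_of_lt_of_le (by positivity) h2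
      by_cases hc : C * (2 / 3) ≤ C'
      · -- one step
        have h3 := step C hC0 hC1 h (C / C' - 1) (by
          rw [sub_nonneg, le_div_iff₀ hC'0]
          linarith) (by
          rw [sub_lt_iff_lt_add, div_lt_iff₀ hC'0]
          linarith)
        have h4 : C / (1 + (C / C' - 1)) = C' := by
          have e1 : (1 : ℝ) + (C / C' - 1) = C / C' := by ring
          rw [e1, div_div_eq_mul_div, mul_comm, mul_div_assoc, div_self hC0.ne', mul_one]
        rwa [h4] at h3
      · push Not at hc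
        have h3 := step C hC0 hC1 h (1 / 2) (by norm_num) (by norm_num)
        have h4 : C / (1 + 1 / 2) = C * (2 / 3) := by ring
        rw [h4] at h3
        refine ih (C * (2 / 3)) h3 (by linarith) (by positivity) C' hc.le ?_
        rw [pow_succ] at h2
        linarith
  have hC0 : 0 < C := lt_of_lt_of_le h0 h1
  obtain ⟨k, hk⟩ := exists_pow_lt_of_lt_one (show (0 : ℝ) < C' / C by positivity)
    (show (2 / 3 : ℝ) < 1 by norm_num)
  refine key k C h hC1 hC0 C' h1 ?_
  rw [lt_div_iff₀ hC0] at hk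
  linarith

end Pool.Agent.LibIV39
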