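import Pool.Agent.LibIV39.Defs

/-! N1 (MEDIUM, only Mathlib): central index. PLAN. Fix `x`. The set `A x = {n | ∀ m, T a m x ≤ T a n x}`
is nonempty (some `a n ≠ 0`, so some term is positive; the terms tend to `0`, hence the maximum is
attained) and bounded above (terms tend to `0`, the maximum is `> 0`). `ν x := sSup (A x)`;
`ν x ∈ A x` by `Nat.sSup_mem`. Monotone: `x < y`, `n = ν x`, `m = ν y`; if `m < n` then
`T n y = T n x · e^{n(y-x)} ≥ T m x · e^{n(y-x)} ≥ T m y`, so `n ∈ A y`, contradiction with the sSup.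
Tends to infinity: for `N` take `n ≥ N` with `a n ≠ 0`; for large `x` `T m x < T n x` for all the
finitely many `m < N` (`‖a m‖ e^{m x} < ‖a n‖ e^{n x}` as `m < n`), so `ν x ≥ N`; use
`tendsto_atTop_mono` / `Monotone` (`tendsto_atTop_atTop_of_monotone`).
`X n := sInf {ξ | 0 ≤ ξ ∧ n ≤ ν ξ}`; nonempty by `top`, bounded below by `0`;
X1: `notMem_of_lt_csInf`; X2: `exists_lt_of_csInf_lt` + monotone; X0: `le_csInf`. -/

set_option autoImplicit false

namespace Pool.Agent.LibIV39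

open Filter Topology

private theorem N1_nonneg (a : ℕ → ℂ) (n : ℕ) (x : ℝ) : 0 ≤ T a n x :=
  mul_nonneg (norm_nonneg _) (Real.exp_pos _).le

private theorem N1_pos {a : ℕ → ℂ} {n : ℕ} (h : a n ≠ 0) (x : ℝ) : 0 < T a n x :=
  mul_pos (norm_pos_iff.2 h) (Real.exp_pos _)

private theorem N1_att (a : ℕ → ℂ) (hnz : ∀ N : ℕ, ∃ n, N ≤ n ∧ a n ≠ 0)
    (hT : ∀ x : ℝ, Tendsto (fun n => T a n x) atTop (𝓝 0)) (x : ℝ) :
    {n : ℕ | ∀ m, T a m x ≤ T a n x}.Nonempty ∧ BddAbove {n : ℕ | ∀ m, T a m x ≤ T a n x} := by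
  obtain ⟨n0, -, hn0⟩ := hnz 0
  have hc := N1_pos hn0 x
  obtain ⟨N, hN⟩ := eventually_atTop.1 ((hT x).eventually_lt_const hc)
  constructor
  · obtain ⟨n, hn, hmax⟩ := Finset.exists_max_image (Finset.range (max N (n0 + 1)))
      (fun n => T a n x) ⟨n0, Finset.mem_range.2 (by omega)⟩
    refine ⟨n, fun m => ?_⟩
    by_cases hm : m < max N (n0 + 1)
    · exact hmax m (Finset.mem_range.2 hm)
    · have h1 := hN m (by omega)
      have h2 := hmax n0 (Finset.mem_range.2 (by omega))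
      exact h1.le.trans h2
  · refine ⟨N, fun n hn => ?_⟩
    by_contra hcon
    have h1 := hN n (by omega)
    have h2 := hn n0
    exact absurd h1 (not_lt.2 h2)

theorem N1 (a : ℕ → ℂ) (hnz : ∀ N : ℕ, ∃ n, N ≤ n ∧ a n ≠ 0)
    (hT : ∀ x : ℝ, Tendsto (fun n => T a n x) atTop (𝓝 0)) :
    ∃ (ν : ℝ → ℕ) (X : ℕ → ℝ), NuX a ν X := by
  obtain ⟨ν, hν⟩ : ∃ ν : ℝ → ℕ, ν = fun x => sSup {n : ℕ | ∀ m, T a m x ≤ T a n x} := ⟨_, rfl⟩
  have hmem : ∀ x m, T a m x ≤ T a (ν x) x := by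
    intro x
    have h1 := Nat.sSup_mem (N1_att a hnz hT x).1 (N1_att a hnz hT x).2
    rw [hν]
    exact h1
  have hle : ∀ x n, (∀ m, T a m x ≤ T a n x) → n ≤ ν x := by
    intro x n hn
    rw [hν]
    exact le_csSup (N1_att a hnz hT x).2 hn
  have hmono : Monotone ν := by
    intro x y hxy
    by_contra hcon
    push Not at hcon
    have h1 : ∀ m, T a m y ≤ T a (ν x) y := by
      intro m
      refine (hmem y m).trans ?_
      have e : ∀ k : ℕ, T a k y = T a k x * Real.exp (k * (y - x)) := by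
        intro k
        unfold T
        rw [mul_assoc, ← Real.exp_add]
        congr 2
        ring
      rw [e, e]
      have h2 := hmem x (ν y)
      have h3 : Real.exp ((ν y : ℝ) * (y - x)) ≤ Real.exp ((ν x : ℝ) * (y - x)) := by
        apply Real.exp_le_exp.2
        have h4 : (ν y : ℝ) ≤ ν x := by exact_mod_cast hcon.le
        exact mul_le_mul_of_nonneg_right h4 (by linarith)
      exact mul_le_mul h2 h3 (Real.exp_pos _).le (N1_nonneg a _ _)
    have h5 := hle y (ν x) h1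
    omega
  have htop : ∀ N : ℕ, ∃ x : ℝ, N ≤ ν x := by
    intro N
    obtain ⟨n, hn, han⟩ := hnz N
    have hpos : 0 < ‖a n‖ := norm_pos_iff.2 han
    obtain ⟨B, hB⟩ : ∃ B : ℝ, B = ∑ m ∈ Finset.range N, ‖a m‖ := ⟨_, rfl⟩
    have hB0 : 0 ≤ B := by
      rw [hB]
      exact Finset.sum_nonneg fun _ _ => norm_nonneg _
    refine ⟨B / ‖a n‖, ?_⟩
    obtain ⟨x, hx⟩ : ∃ x : ℝ, x = B / ‖a n‖ := ⟨_, rfl⟩
    rw [← hx]
    have hx0 : 0 ≤ x := by rw [hx]; positivity
    by_contra hcon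
    push Not at hcon
    obtain ⟨m, hm⟩ : ∃ m, m = ν x := ⟨_, rfl⟩
    have h1 := hmem x n
    rw [← hm] at h1 hcon
    have h2 : ‖a m‖ ≤ B := by
      rw [hB]
      exact Finset.single_le_sum (f := fun m => ‖a m‖) (fun _ _ => norm_nonneg _)
        (Finset.mem_range.2 hcon)
    have h3 : B < ‖a n‖ * Real.exp x := by
      have h4 : x + 1 ≤ Real.exp x := Real.add_one_le_exp x
      have h5 : ‖a n‖ * (x + 1) = B + ‖a n‖ := by
        rw [hx]
        field_simp
      have h6 : ‖a n‖ * (x + 1) ≤ ‖a n‖ * Real.exp x := mul_le_mul_of_nonneg_left h4 hpos.le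
      linarith
    have h7 : T a m x < T a n x := by
      unfold T
      have h8 : ‖a m‖ * Real.exp (m * x) < ‖a n‖ * Real.exp x * Real.exp (m * x) :=
        mul_lt_mul_of_pos_right (h2.trans_lt h3) (Real.exp_pos _)
      have h9 : ‖a n‖ * Real.exp x * Real.exp (m * x) ≤ ‖a n‖ * Real.exp (n * x) := by
        rw [mul_assoc, ← Real.exp_add]
        apply mul_le_mul_of_nonneg_left _ hpos.le
        apply Real.exp_le_exp.2
        have h10 : (m : ℝ) + 1 ≤ n := by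
          have : m + 1 ≤ n := by omega
          exact_mod_cast this
        nlinarith
      exact h8.trans_le h9
    exact absurd h7 (not_lt.2 h1)
  have hS : ∀ n : ℕ, {ξ : ℝ | 0 ≤ ξ ∧ n ≤ ν ξ}.Nonempty := by
    intro n
    obtain ⟨x, hx⟩ := htop n
    exact ⟨max 0 x, le_max_left _ _, hx.trans (hmono (le_max_right _ _))⟩
  have hB : ∀ n : ℕ, BddBelow {ξ : ℝ | 0 ≤ ξ ∧ n ≤ ν ξ} := fun n => ⟨0, fun ξ hξ => hξ.1⟩
  refine ⟨ν, fun n => sInf {ξ : ℝ | 0 ≤ ξ ∧ n ≤ ν ξ}, hmono,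
    tendsto_atTop_atTop_of_monotone hmono htop, hmem, ?_, ?_, ?_, ?_⟩
  · intro x
    obtain ⟨n0, -, hn0⟩ := hnz 0
    exact (N1_pos hn0 x).trans_le (hmem x n0)
  · intro n
    exact le_csInf (hS n) (fun ξ hξ => hξ.1)
  · intro n ξ h0 h1
    by_contra hcon
    push Not at hcon
    exact absurd (csInf_le (hB n) ⟨h0, hcon⟩) (not_le.2 h1)
  · intro n ξ h1
    obtain ⟨ξ', hξ', h2⟩ := exists_lt_of_csInf_lt (hS n) h1
    exact hξ'.2.trans (hmono h2.le)

end Pool.Agent.LibIV39
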