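import Pool.Agent.LibIV39.Fin
import Pool.Agent.LibCH71.Fin

set_option autoImplicit false

namespace Pool.Agent.LibIV39

open Filter Topology

theorem lim_le (C : ℝ) (h : IsLim C) : C ≤ 6249 / 10000 := by
  obtain ⟨a, f, hf, hp, hlim⟩ := h
  by_contra hc
  push Not at hc
  have h1 : ∀ᶠ r : ℝ in atTop, 6249 / 10000 <
      (⨆ n, ‖a n‖ * r ^ n) / (⨆ z : Metric.sphere (0 : ℂ) r, ‖f z‖) :=
    hlim.eventually_const_lt hc
  obtain ⟨R, hR⟩ := h1.exists_forall_of_atTop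
  obtain ⟨r, hr, _, h2⟩ := Pool.Agent.LibCH71.main a f hf hp R
  exact absurd h2 (not_le.2 (hR r hr))

theorem top (C C' : ℝ) (h0 : 0 < C') (h1 : C' ≤ C) (h : IsLim C) : IsLim C' :=
  main C C' h (lt_of_le_of_lt (lim_le C h) (by norm_num)) h0 h1

end Pool.Agent.LibIV39
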